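import Pool.Agent.Lib.MP_c4a252_co.Basic

/-! Rational approximation of weights, the constant `S`, and the minimax step. -/

namespace Pool.Agent.Lib.MP_c4a252_co

lemma Prob.approx {K : Set ℂ} {μ : M} (h : Prob K μ) {ε : ℝ} (hε : 0 < ε) :
    ∃ n : ℕ, 0 < n ∧ ∃ f : Fin n → ℂ, (∀ k, f k ∈ K) ∧
      ∀ φ : ℂ → ℝ, (∀ x ∈ K, |φ x| ≤ 1) → |ev φ μ - (∑ k, φ (f k)) / n| ≤ ε := by
  classical
  set s := μ.support with hs
  have h1 : ∑ x ∈ s, μ x = 1 := by simpa [mass, ev_eq] using h.one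
  obtain ⟨N, hN⟩ := exists_nat_gt (2 * (s.card : ℝ) / ε)
  have hN0 : (0 : ℝ) < N := lt_of_le_of_lt (by positivity) hN
  let m : ℂ → ℕ := fun x => ⌈(N : ℝ) * μ x⌉₊
  have m1 : ∀ x, (N : ℝ) * μ x ≤ m x := fun x => Nat.le_ceil _
  have m2 : ∀ x, (m x : ℝ) ≤ N * μ x + 1 := fun x =>
    (Nat.ceil_lt_add_one (mul_nonneg hN0.le (h.nonneg x))).le
  let κ := Σ x : s, Fin (m x)
  have hc : (Fintype.card κ : ℝ) = ∑ x ∈ s, (m x : ℝ) := by
    simp only [κ, Fintype.card_sigma, Fintype.card_fin]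
    push_cast
    exact Finset.sum_coe_sort s fun x => (m x : ℝ)
  set n : ℝ := ((Fintype.card κ : ℕ) : ℝ) with hn
  have n1 : (N : ℝ) ≤ n := by
    rw [hc]
    calc (N : ℝ) = ∑ x ∈ s, N * μ x := by rw [← Finset.mul_sum, h1, mul_one]
      _ ≤ _ := Finset.sum_le_sum fun x _ => m1 x
  have n2 : n ≤ N + s.card := by
    rw [hc]
    calc _ ≤ ∑ x ∈ s, (N * μ x + 1) := Finset.sum_le_sum fun x _ => m2 x
      _ = _ := by rw [Finset.sum_add_distrib, ← Finset.mul_sum, h1]; simp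
  have hn0 : 0 < n := hN0.trans_le n1
  refine ⟨Fintype.card κ, Nat.cast_pos.1 (hn ▸ hn0), fun k => ((Fintype.equivFin κ).symm k).1,
    fun k => h.mem (Subtype.prop _), fun φ hφ => ?_⟩
  have e : ∑ k, φ ((Fintype.equivFin κ).symm k).1 = ∑ x ∈ s, (m x : ℝ) * φ x := by
    rw [(Fintype.equivFin κ).symm.sum_comp fun k : κ => φ k.1]
    simp only [κ, Fintype.sum_sigma, Finset.sum_const, Finset.card_univ, Fintype.card_fin,
      nsmul_eq_mul]
    exact Finset.sum_coe_sort s fun x => (m x : ℝ) * φ x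
  rw [e, ev_eq, Finset.sum_div, ← Finset.sum_sub_distrib]
  refine (Finset.abs_sum_le_sum_abs _ _).trans ?_
  have b : ∀ x ∈ s, |μ x * φ x - m x * φ x / n| ≤ (s.card * μ x + 1) / N := by
    intro x hx
    have e2 : μ x * φ x - m x * φ x / n = (n * μ x - m x) / n * φ x := by field_simp
    have hx0 := h.nonneg x
    have : |n * μ x - m x| ≤ s.card * μ x + 1 := by
      rw [abs_le]; constructor <;> nlinarith [m1 x, m2 x, mul_nonneg (Nat.cast_nonneg s.card) hx0]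
    rw [e2, abs_mul, abs_div, abs_of_pos hn0]
    calc _ ≤ (s.card * μ x + 1) / N * 1 :=
          mul_le_mul (by gcongr) (hφ x (h.mem hx)) (abs_nonneg _) (by positivity)
      _ = _ := mul_one _
  refine (Finset.sum_le_sum b).trans ?_
  rw [← Finset.sum_div, Finset.sum_add_distrib, ← Finset.mul_sum, h1, div_le_iff₀ hN0]
  rw [div_lt_iff₀ hε] at hN
  simp only [Finset.sum_const, nsmul_eq_mul, mul_one]
  linarith

def Sset : Set ℝ := {s : ℝ | ∃ n : ℕ, 0 < n ∧ ∃ x : Fin n → EuclideanSpace ℝ (Fin 2),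
  (∀ i j, dist (x i) (x j) ≤ 1) ∧ s = (∑ i, ∑ j, dist (x i) (x j)) / ((n : ℝ) ^ 2)}

noncomputable def S : ℝ := sSup Sset

lemma Sset_le : ∀ s ∈ Sset, s ≤ 1 := by
  rintro s ⟨n, hn, x, hx, rfl⟩
  rw [div_le_one (by positivity)]
  calc _ ≤ ∑ _i : Fin n, ∑ _j : Fin n, (1 : ℝ) :=
        Finset.sum_le_sum fun i _ => Finset.sum_le_sum fun j _ => hx i j
    _ = _ := by simp [sq]

lemma S_le_one : S ≤ 1 := Real.sSup_le Sset_le zero_le_one

def Diam1 (K : Set ℂ) : Prop := ∀ x ∈ K, ∀ y ∈ K, ‖x - y‖ ≤ 1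

lemma Prob.le_S {K : Set ℂ} {μ : M} (h : Prob K μ) (hK : Diam1 K) : B μ μ ≤ S := by
  refine le_of_forall_pos_le_add fun ε hε => ?_
  obtain ⟨n, hn, f, hf, ha⟩ := h.approx (half_pos hε)
  have hn' : (0 : ℝ) < n := by exact_mod_cast hn
  have h1 := (abs_le.1 (ha (U μ) fun x hx => abs_le.2
    ⟨h.ge fun y _ => by linarith [norm_nonneg (y - x)], h.le fun y hy => hK y hy x hx⟩)).2
  have h2 : ∀ k, U μ (f k) ≤ (∑ l, ‖f l - f k‖) / n + ε / 2 := fun k => by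
    have := (abs_le.1 (ha (fun y => ‖y - f k‖) fun y hy => by
      rw [abs_norm]; exact hK y hy _ (hf k))).2
    unfold U; linarith
  have h3 : (∑ k, ∑ l, ‖f l - f k‖) / (n : ℝ) ^ 2 ≤ S := by
    refine le_csSup ⟨1, Sset_le⟩ ⟨n, hn, fun k => Complex.orthonormalBasisOneI.repr (f k),
      fun i j => ?_, ?_⟩
    · rw [LinearIsometryEquiv.dist_map, dist_eq_norm]; exact hK _ (hf i) _ (hf j)
    · simp only [LinearIsometryEquiv.dist_map]
      simp only [dist_eq_norm, norm_sub_rev]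
  have h4 : (∑ k, U μ (f k)) / n ≤ (∑ k, ∑ l, ‖f l - f k‖) / (n : ℝ) ^ 2 + ε / 2 := by
    rw [div_le_iff₀ hn']
    refine (Finset.sum_le_sum fun k _ => h2 k).trans_eq ?_
    rw [Finset.sum_add_distrib, ← Finset.sum_div]
    simp only [Finset.sum_const, Finset.card_univ, Fintype.card_fin, nsmul_eq_mul]
    field_simp
  unfold B; linarith

/-- one half of the rendezvous property -/
def RV (E : Set ℂ) (a : ℝ) : Prop :=
  ∀ n : ℕ, 0 < n → ∀ x : Fin n → ℂ, (∀ i, x i ∈ E) → ∃ y ∈ E, a ≤ (∑ i, ‖x i - y‖) / n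

lemma RV.real {E : Set ℂ} {a : ℝ} (h : RV E a) (hE : Diam1 E) {ν : M} (hν : Prob E ν) {ε : ℝ}
    (hε : 0 < ε) : ∃ y ∈ E, a - ε ≤ U ν y := by
  obtain ⟨n, hn, f, hf, ha⟩ := hν.approx hε
  obtain ⟨y, hy, h1⟩ := h n hn f hf
  have := (abs_le.1 (ha (fun x => ‖x - y‖) fun x hx => by rw [abs_norm]; exact hE x hx y hy)).1
  exact ⟨y, hy, by unfold U; linarith⟩

theorem RV.minimax {E : Set ℂ} {a : ℝ} (h : RV E a) (hE : Diam1 E) (hc : IsCompact E)
    (hne : E.Nonempty) {ε : ℝ} (hε : 0 < ε) : ∃ μ, Prob E μ ∧ ∀ y ∈ E, a - 3 * ε ≤ U μ y := by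
  classical
  obtain ⟨t, htE, ht, hcov⟩ := hc.finite_cover_balls hε
  have : Fintype t := ht.fintype
  have near : ∀ y ∈ E, ∃ i : t, ‖y - i‖ < ε := fun y hy => by
    obtain ⟨x, hx, h1⟩ := Set.mem_iUnion₂.1 (hcov hy)
    exact ⟨⟨x, hx⟩, by rwa [mem_ball_iff_norm] at h1⟩
  obtain ⟨i0, -⟩ := near _ hne.some_mem
  have : Nonempty t := ⟨i0⟩
  let mk : (t → ℝ) →ₗ[ℝ] M := Fintype.linearCombination ℝ fun i : t => Finsupp.single (i : ℂ) 1
  have hev : ∀ f w, ev f (mk w) = ∑ i, w i * f i := fun f w => by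
    simp [mk, Fintype.linearCombination_apply]
  have hp : ∀ w ∈ stdSimplex ℝ t, Prob E (mk w) := fun w hw =>
    ⟨by simpa [mass, hev] using hw.2, fun f hf => by
      rw [hev]; exact Finset.sum_nonneg fun i _ => mul_nonneg (hw.1 i) (hf _ (htE i.2))⟩
  have hcv := convex_stdSimplex ℝ t
  have hne' : (stdSimplex ℝ t).Nonempty := ⟨_, single_mem_stdSimplex ℝ i0⟩
  have l1 : ∀ y, (fun x => B (mk x) (mk y)) = (ev (U (mk y))) ∘ₗ mk := fun y => rfl
  have l2 : ∀ x, (fun y => B (mk x) (mk y)) = (ev (U (mk x))) ∘ₗ mk := fun x => by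
    funext y; rw [B_comm]; rfl
  obtain ⟨p, hpm, q, hq, hs⟩ := Sion.exists_isSaddlePointOn (f := fun x y => B (mk x) (mk y))
    hne' hcv (isCompact_stdSimplex ℝ t)
    (fun y _ => by
      rw [l1]; exact (LinearMap.continuous_of_finiteDimensional _).continuousOn.lowerSemicontinuousOn)
    (fun y _ => by rw [l1]; exact (LinearMap.convexOn _ hcv).quasiconvexOn)
    hcv hne' (isCompact_stdSimplex ℝ t)
    (fun y _ => by
      rw [l2]; exact (LinearMap.continuous_of_finiteDimensional _).continuousOn.upperSemicontinuousOn)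
    (fun y _ => by rw [l2]; exact (LinearMap.concaveOn _ hcv).quasiconcaveOn)
  refine ⟨mk q, hp q hq, fun y hy => ?_⟩
  obtain ⟨z, hz, h1⟩ := h.real hE (hp p hpm) hε
  obtain ⟨i, hi⟩ := near y hy
  obtain ⟨j, hj⟩ := near z hz
  have h2 := hs _ (single_mem_stdSimplex ℝ i) _ (single_mem_stdSimplex ℝ j)
  have e : ∀ (k : t) ν, B (mk (Pi.single k 1)) ν = U ν k := fun k ν => by
    simp [B, hev, Pi.single_apply]
  simp only [B_comm (mk p), e] at h2
  have h3 := (hp p hpm).U_lip z j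
  have h4 := (hp q hq).U_lip i y
  rw [norm_sub_rev] at h4
  linarith

end Pool.Agent.Lib.MP_c4a252_co
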