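import Mathlib

/-! Finitely supported signed measures in the plane, distance potentials, negative type. -/

namespace Pool.Agent.Lib.MP_c4a252_co

open Complex MeasureTheory

abbrev M := ℂ →₀ ℝ

noncomputable def ev (f : ℂ → ℝ) : M →ₗ[ℝ] ℝ := Finsupp.linearCombination ℝ f

lemma ev_eq (f : ℂ → ℝ) (μ : M) : ev f μ = ∑ x ∈ μ.support, μ x * f x := by
  simp [ev, Finsupp.linearCombination_apply, Finsupp.sum]

@[simp] lemma ev_single (f : ℂ → ℝ) (x : ℂ) (a : ℝ) : ev f (Finsupp.single x a) = a * f x := by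
  simp [ev]

lemma ev_add (f g : ℂ → ℝ) (μ : M) : ev (fun x => f x + g x) μ = ev f μ + ev g μ := by
  simp [ev_eq, mul_add, Finset.sum_add_distrib]

lemma ev_sub (f g : ℂ → ℝ) (μ : M) : ev (fun x => f x - g x) μ = ev f μ - ev g μ := by
  simp [ev_eq, mul_sub, Finset.sum_sub_distrib]

lemma ev_mul (c : ℝ) (f : ℂ → ℝ) (μ : M) : ev (fun x => c * f x) μ = c * ev f μ := by
  simp only [ev_eq, Finset.mul_sum]; exact Finset.sum_congr rfl fun x _ => by ring

lemma ev_sum {κ : Type*} (s : Finset κ) (f : κ → ℂ → ℝ) (μ : M) :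
    ev (fun x => ∑ k ∈ s, f k x) μ = ∑ k ∈ s, ev (f k) μ := by
  simp only [ev_eq, Finset.mul_sum]; exact Finset.sum_comm

noncomputable def mass (μ : M) : ℝ := ev (fun _ => 1) μ

lemma ev_const (c : ℝ) (μ : M) : ev (fun _ => c) μ = c * mass μ := by
  rw [mass, ← ev_mul]; simp

lemma ev_comm (k : ℂ → ℂ → ℝ) (μ ν : M) :
    ev (fun x => ev (k x) ν) μ = ev (fun y => ev (fun x => k x y) μ) ν := by
  simp only [ev_eq, Finset.mul_sum]
  rw [Finset.sum_comm]
  exact Finset.sum_congr rfl fun y _ => Finset.sum_congr rfl fun x _ => by ring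

lemma ev_map (f : ℂ → ℝ) (g : ℂ → ℂ) (μ : M) : ev f (μ.mapDomain g) = ev (fun x => f (g x)) μ := by
  simp [ev, Finsupp.linearCombination_mapDomain]; rfl

/-- potential -/
noncomputable def U (μ : M) (z : ℂ) : ℝ := ev (fun x => ‖x - z‖) μ

/-- mutual energy -/
noncomputable def B (μ ν : M) : ℝ := ev (U ν) μ

lemma B_comm (μ ν : M) : B μ ν = B ν μ := by
  unfold B U
  rw [ev_comm (fun x y => ‖y - x‖)]
  simp only [norm_sub_rev]

lemma B_add (μ μ' ν : M) : B (μ + μ') ν = B μ ν + B μ' ν := map_add _ _ _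
lemma B_sub (μ μ' ν : M) : B (μ - μ') ν = B μ ν - B μ' ν := map_sub _ _ _
lemma B_smul (c : ℝ) (μ ν : M) : B (c • μ) ν = c * B μ ν := map_smul _ _ _
lemma B_add' (μ ν ν' : M) : B μ (ν + ν') = B μ ν + B μ ν' := by
  rw [B_comm, B_add, B_comm ν, B_comm ν']
lemma B_sub' (μ ν ν' : M) : B μ (ν - ν') = B μ ν - B μ ν' := by
  rw [B_comm, B_sub, B_comm ν, B_comm ν']
lemma B_smul' (c : ℝ) (μ ν : M) : B μ (c • ν) = c * B μ ν := by
  rw [B_comm, B_smul, B_comm ν]
lemma B_single (x : ℂ) (a : ℝ) (ν : M) : B (Finsupp.single x a) ν = a * U ν x := ev_single _ _ _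

/-- probability measure carried by `K` -/
structure Prob (K : Set ℂ) (μ : M) : Prop where
  one : mass μ = 1
  pos : ∀ f : ℂ → ℝ, (∀ x ∈ K, 0 ≤ f x) → 0 ≤ ev f μ

lemma Prob.mono {K : Set ℂ} {μ : M} (h : Prob K μ) {f g : ℂ → ℝ} (hfg : ∀ x ∈ K, f x ≤ g x) :
    ev f μ ≤ ev g μ := by
  have := h.pos (fun x => g x - f x) fun x hx => sub_nonneg.2 (hfg x hx)
  rw [ev_sub] at this; linarith

lemma Prob.le {K : Set ℂ} {μ : M} (h : Prob K μ) {f : ℂ → ℝ} {c : ℝ} (hf : ∀ x ∈ K, f x ≤ c) :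
    ev f μ ≤ c := by
  have := h.mono (g := fun _ => c) hf
  rwa [ev_const, h.one, mul_one] at this

lemma Prob.ge {K : Set ℂ} {μ : M} (h : Prob K μ) {f : ℂ → ℝ} {c : ℝ} (hf : ∀ x ∈ K, c ≤ f x) :
    c ≤ ev f μ := by
  have := h.mono (f := fun _ => c) hf
  rwa [ev_const, h.one, mul_one] at this

lemma Prob.subset {K K' : Set ℂ} {μ : M} (h : Prob K μ) (hK : K ⊆ K') : Prob K' μ :=
  ⟨h.one, fun f hf => h.pos f fun x hx => hf x (hK hx)⟩

lemma Prob.map {K K' : Set ℂ} {μ : M} (h : Prob K μ) {g : ℂ → ℂ} (hg : ∀ x ∈ K, g x ∈ K') :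
    Prob K' (μ.mapDomain g) :=
  ⟨by rw [mass, ev_map]; exact h.one, fun f hf => by
    rw [ev_map]; exact h.pos _ fun x hx => hf _ (hg x hx)⟩

lemma Prob.single {K : Set ℂ} {x : ℂ} (hx : x ∈ K) : Prob K (Finsupp.single x 1) :=
  ⟨by simp [mass], fun f hf => by simpa using hf x hx⟩

lemma Prob.mix {K : Set ℂ} {μ ν : M} (h : Prob K μ) (h' : Prob K ν) {a b : ℝ} (ha : 0 ≤ a)
    (hb : 0 ≤ b) (hab : a + b = 1) : Prob K (a • μ + b • ν) :=
  ⟨by
    have h1 := h.one; have h2 := h'.one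
    simp only [mass, map_add, map_smul, smul_eq_mul] at *
    rw [h1, h2]; linarith,
   fun f hf => by
    simp only [map_add, map_smul, smul_eq_mul]
    exact add_nonneg (mul_nonneg ha (h.pos f hf)) (mul_nonneg hb (h'.pos f hf))⟩

lemma Prob.nonneg {K : Set ℂ} {μ : M} (h : Prob K μ) (x : ℂ) : 0 ≤ μ x := by
  classical
  have := h.pos (fun y => if y = x then 1 else 0) fun y _ => by positivity
  rw [ev_eq] at this
  simp only [mul_ite, mul_one, mul_zero, Finset.sum_ite_eq', Finsupp.mem_support_iff] at this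
  split_ifs at this with h0
  · exact this
  · exact (not_not.1 h0).ge

lemma Prob.mem {K : Set ℂ} {μ : M} (h : Prob K μ) {x : ℂ} (hx : x ∈ μ.support) : x ∈ K := by
  classical
  by_contra hK
  have := h.pos (fun y => if y = x then -1 else 0) fun y hy => by
    rw [if_neg]; rintro rfl; exact hK hy
  rw [ev_eq] at this
  simp only [mul_ite, mul_neg, mul_one, mul_zero, Finset.sum_ite_eq', hx, if_true] at this
  exact Finsupp.mem_support_iff.1 hx (le_antisymm (by linarith) (h.nonneg x))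

lemma Prob.U_lip {K : Set ℂ} {μ : M} (h : Prob K μ) (z w : ℂ) : U μ z ≤ U μ w + ‖z - w‖ := by
  have := h.mono (f := fun x => ‖x - z‖) (g := fun x => ‖x - w‖ + ‖z - w‖) fun x _ => by
    have := norm_sub_le (x - w) (z - w)
    rwa [sub_sub_sub_cancel_right] at this
  rwa [ev_add, ev_const, h.one, mul_one] at this

lemma Prob.U_convex {K : Set ℂ} {μ : M} (h : Prob K μ) (z w : ℂ) {a b : ℝ} (ha : 0 ≤ a)
    (hb : 0 ≤ b) (hab : a + b = 1) : U μ (a • z + b • w) ≤ a * U μ z + b * U μ w := by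
  have := h.mono (f := fun x => ‖x - (a • z + b • w)‖)
    (g := fun x => a * ‖x - z‖ + b * ‖x - w‖) fun x _ => by
    have e : x - (a • z + b • w) = a • (x - z) + b • (x - w) := by
      rw [smul_sub, smul_sub, sub_add_sub_comm, ← add_smul, hab, one_smul]
    rw [e]
    refine (norm_add_le _ _).trans ?_
    rw [norm_smul, norm_smul, Real.norm_of_nonneg ha, Real.norm_of_nonneg hb]
  rwa [ev_add, ev_mul, ev_mul] at this

/-! negative type -/

lemma abs_sub_int (R s t : ℝ) (hs : s ∈ Set.Icc (-R) R) (ht : t ∈ Set.Icc (-R) R) :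
    ∫ u in Set.Icc (-R) R, ((Set.Iic s).indicator (fun _ => (1 : ℝ)) u -
      (Set.Iic t).indicator (fun _ => (1 : ℝ)) u) ^ 2 = |s - t| := by
  wlog h : s ≤ t generalizing s t
  · rw [abs_sub_comm, ← this t s ht hs (le_of_not_ge h)]
    congr 1; funext u; ring
  have e : ∀ u, ((Set.Iic s).indicator (fun _ => (1 : ℝ)) u -
      (Set.Iic t).indicator (fun _ => (1 : ℝ)) u) ^ 2 =
      (Set.Ioc s t).indicator (fun _ => (1 : ℝ)) u := by
    intro u
    by_cases h1 : u ≤ s <;> by_cases h2 : u ≤ t <;> simp [Set.indicator, h1, h2]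
    exact absurd (h1.trans h) h2
  simp_rw [e]
  rw [integral_indicator measurableSet_Ioc, Measure.restrict_restrict measurableSet_Ioc,
    Set.inter_eq_left.2 (show Set.Ioc s t ⊆ Set.Icc (-R) R from
      fun u hu => ⟨hs.1.trans hu.1.le, hu.2.trans ht.2⟩)]
  simp [abs_of_nonpos (sub_nonpos.2 h), h]

lemma neg_type_line (σ : M) (h0 : mass σ = 0) (p : ℂ → ℝ) :
    ev (fun x => ev (fun y => |p x - p y|) σ) σ ≤ 0 := by
  obtain ⟨R, hR⟩ := (σ.support.finite_toSet.image fun x => |p x|).bddAbove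
  have hp : ∀ x ∈ σ.support, p x ∈ Set.Icc (-R) R := fun x hx =>
    abs_le.1 (hR ⟨x, hx, rfl⟩)
  set i : ℂ → ℝ → ℝ := fun x u => (Set.Iic (p x)).indicator (fun _ => (1 : ℝ)) u with hi
  have hint : ∀ x y, Integrable (fun u => (i x u - i y u) ^ 2)
      (volume.restrict (Set.Icc (-R) R)) := by
    intro x y
    refine Integrable.of_bound (C := 1) ?_ (ae_of_all _ fun u => ?_)
    · refine (Measurable.pow_const (Measurable.sub ?_ ?_) 2).aestronglyMeasurable <;>
        exact measurable_const.indicator measurableSet_Iic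
    · by_cases h1 : u ≤ p x <;> by_cases h2 : u ≤ p y <;> simp [hi, Set.indicator, h1, h2]
  have e : ev (fun x => ev (fun y => |p x - p y|) σ) σ =
      ∫ u in Set.Icc (-R) R, ∑ x ∈ σ.support, σ x * ∑ y ∈ σ.support, σ y * (i x u - i y u) ^ 2 := by
    rw [integral_finsetSum _ fun x _ =>
      (integrable_finsetSum _ fun y _ => (hint x y).const_mul _).const_mul _]
    simp only [ev_eq]
    refine Finset.sum_congr rfl fun x hx => ?_
    rw [integral_const_mul, integral_finsetSum _ fun y _ => (hint x y).const_mul _]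
    congr 1
    refine Finset.sum_congr rfl fun y hy => ?_
    rw [integral_const_mul, abs_sub_int R _ _ (hp x hx) (hp y hy)]
  rw [e]
  refine integral_nonpos fun u => ?_
  have e2 : ∑ x ∈ σ.support, σ x * ∑ y ∈ σ.support, σ y * (i x u - i y u) ^ 2 =
      -2 * (ev (fun x => i x u) σ) ^ 2 := by
    have : ∀ x, ev (fun y => (i x u - i y u) ^ 2) σ =
        (-2 * ev (fun x => i x u) σ) * i x u + ev (fun y => i y u ^ 2) σ := by
      intro x
      have : (fun y => (i x u - i y u) ^ 2) =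
          fun y => (i x u ^ 2 + (-2 * i x u) * i y u) + i y u ^ 2 := by funext y; ring
      rw [this, ev_add, ev_add, ev_const, h0, ev_mul]; ring
    simp only [← ev_eq, this]
    rw [ev_add, ev_mul, ev_const, h0]; ring
  show _ ≤ (0 : ℝ)
  rw [e2]; nlinarith [sq_nonneg (ev (fun x => i x u) σ)]

lemma int_re (z : ℂ) : ∫ θ in (0 : ℝ)..2 * Real.pi, |(z * exp (θ * I)).re| =
    ‖z‖ * ∫ θ in (0 : ℝ)..2 * Real.pi, |Real.cos θ| := by
  have e : ∀ θ : ℝ, |(z * exp (θ * I)).re| = ‖z‖ * |Real.cos (θ + arg z)| := by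
    intro θ
    conv_lhs => rw [← norm_mul_exp_arg_mul_I z, mul_assoc, ← Complex.exp_add, ← add_mul,
      ← ofReal_add, re_ofReal_mul, exp_ofReal_mul_I_re, abs_mul, abs_norm, add_comm]
  simp_rw [e]
  rw [intervalIntegral.integral_const_mul,
    intervalIntegral.integral_comp_add_right (fun θ => |Real.cos θ|)]
  have hp : Function.Periodic (fun θ => |Real.cos θ|) (2 * Real.pi) := fun θ => by simp
  have := hp.intervalIntegral_add_eq (arg z) 0
  rw [zero_add, add_comm (2 * Real.pi), this, zero_add]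

lemma int_cos_pos : 0 < ∫ θ in (0 : ℝ)..2 * Real.pi, |Real.cos θ| := by
  have h := intervalIntegral.integral_mono_on (f := fun θ => Real.cos θ ^ 2)
    (g := fun θ => |Real.cos θ|) (μ := volume) (a := 0) (b := 2 * Real.pi) (by positivity)
    ((by fun_prop : Continuous _).intervalIntegrable _ _)
    ((by fun_prop : Continuous _).intervalIntegrable _ _) fun θ _ => by
      rw [← sq_abs]
      nlinarith [abs_nonneg (Real.cos θ), Real.abs_cos_le_one θ]
  rw [integral_cos_sq] at h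
  simp at h
  linarith [Real.pi_pos]

theorem neg_type (σ : M) (h0 : mass σ = 0) : B σ σ ≤ 0 := by
  have hc : ∀ z : ℂ, IntervalIntegrable (fun θ : ℝ => |(z * exp (θ * I)).re|) volume 0
      (2 * Real.pi) := fun z => (by fun_prop : Continuous _).intervalIntegrable _ _
  have e : B σ σ * ∫ θ in (0 : ℝ)..2 * Real.pi, |Real.cos θ| =
      ∫ θ in (0 : ℝ)..2 * Real.pi, ∑ x ∈ σ.support, σ x *
        ∑ y ∈ σ.support, σ y * |((x - y) * exp (θ * I)).re| := by
    rw [intervalIntegral.integral_finsetSum fun x _ =>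
      (by fun_prop : Continuous _).intervalIntegrable _ _]
    simp only [B, U, ev_eq, Finset.sum_mul]
    refine Finset.sum_congr rfl fun x _ => ?_
    rw [intervalIntegral.integral_const_mul,
      intervalIntegral.integral_finsetSum fun y _ => (hc _).const_mul _, mul_assoc,
      Finset.sum_mul]
    congr 1
    refine Finset.sum_congr rfl fun y _ => ?_
    rw [intervalIntegral.integral_const_mul, int_re, norm_sub_rev, mul_assoc]
  have : B σ σ * ∫ θ in (0 : ℝ)..2 * Real.pi, |Real.cos θ| ≤ 0 := by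
    rw [e, ← neg_nonneg, ← intervalIntegral.integral_neg]
    refine intervalIntegral.integral_nonneg (by positivity) fun θ _ => ?_
    have := neg_type_line σ h0 fun x => (x * exp (θ * I)).re
    simp only [ev_eq] at this
    simp only [sub_mul, sub_re]
    linarith
  exact nonpos_of_mul_nonpos_left this int_cos_pos

lemma mass_sub (μ ν : M) : mass (μ - ν) = mass μ - mass ν := map_sub _ _ _

/-- dual bound -/
lemma Prob.energy_le {K : Set ℂ} {μ ν : M} (h : Prob K μ) (hν : mass ν = 1) {c : ℝ}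
    (hc : ∀ x ∈ K, U ν x ≤ c) : B μ μ ≤ 2 * c - B ν ν := by
  have h1 := neg_type (μ - ν) (by rw [mass_sub, h.one, hν, sub_self])
  rw [B_sub, B_sub', B_sub', B_comm ν μ] at h1
  have : B μ ν ≤ c := h.le hc
  linarith

/-- Cauchy-Schwarz in additive form -/
lemma cs (σ τ : M) (h0 : mass σ = 0) (h1 : mass τ = 0) (t : ℝ) :
    2 * t * B σ τ ≤ -B σ σ - t ^ 2 * B τ τ := by
  have h := neg_type (σ + t • τ) (by
    simp only [mass, map_add, map_smul, smul_eq_mul] at *
    rw [h0, h1]; ring)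
  rw [B_add, B_add', B_add', B_smul, B_smul, B_smul', B_smul', B_comm τ σ] at h
  linarith

end Pool.Agent.Lib.MP_c4a252_co
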