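import Pool.Agent.Lib.MP_c4a252_co.Data

set_option maxRecDepth 100000

namespace Pool.Agent.Lib.MP_c4a252_co

theorem LG_ok : LG.ok = true := by decide +kernel
theorem LM_ok : LM.ok = true := by decide +kernel
theorem LL_ok : LL.ok = true := by decide +kernel
theorem LN_ok : LN.ok = true := by decide +kernel
theorem LL_tok : (LL.l1 ++ LL.l2).all tok = true := by decide +kernel
theorem CR_good : CR.all LG.good = true := by decide +kernel
theorem CX_good : CX.all LG.good = true := by decide +kernel
theorem CM_good : CM.all LM.good = true := by decide +kernel
theorem CL_good : CL.all LL.good = true := by decide +kernel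
theorem CN_good : CN.all LN.good = true := by decide +kernel
theorem S_ge : 6672 / 10000 ≤ S := low_sound (vs := lowc) (W := lowW) (by decide +kernel)

end Pool.Agent.Lib.MP_c4a252_co
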