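import Pool.Agent.Lib.MP_c4a252_co.Geom

/-! Boolean checkers for polygon certificates and their soundness. -/

namespace Pool.Agent.Lib.MP_c4a252_co

noncomputable def force {α : Type} (n : ℕ) (k : ℕ → α) : α :=
  Nat.rec (motive := fun _ => α) (k 0) (fun m _ => k (Nat.succ m)) n

lemma force_eq {α : Type} (n : ℕ) (k : ℕ → α) : force n k = k n := by cases n <;> rfl

noncomputable def nt (q : ℕ) : ℕ → ℕ → ℕ
  | 0, x => x
  | k + 1, x => force ((x + q / x) / 2) fun y => nt q k y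

noncomputable def rt (q : ℕ) : ℕ := force (2 ^ (q.log2 / 2 + 1)) fun x => nt q 8 x

noncomputable def lo (q : ℕ) : ℕ :=
  force q fun q => force (rt q) fun r => cond (Nat.ble (r * r) q) r 0

noncomputable def up (q : ℕ) : ℕ :=
  force q fun q => force (rt q + 1) fun r => cond (Nat.ble q (r * r)) r (q + 1)

lemma lo_le (q : ℕ) : (lo q : ℝ) ≤ √q := by
  simp only [lo, force_eq]
  cases h : Nat.ble (rt q * rt q) q
  · simp
  · exact Real.le_sqrt_of_sq_le (by rw [sq]; exact_mod_cast Nat.le_of_ble_eq_true h)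

lemma le_up (q : ℕ) : √q ≤ (up q : ℝ) := by
  simp only [up, force_eq]
  cases h : Nat.ble q ((rt q + 1) * (rt q + 1))
  · exact Real.sqrt_le_iff.2 ⟨by positivity, by
      simp only [cond_false]; push_cast; nlinarith [Nat.cast_nonneg (α := ℝ) q]⟩
  · exact Real.sqrt_le_iff.2 ⟨by positivity, by
      rw [sq]; exact_mod_cast Nat.le_of_ble_eq_true h⟩

def ip2 (p n : P) : ℤ := 2 * p.1 * n.1 + 2 * p.2 * n.2 + p.1 * n.2 + p.2 * n.1
def nsq (p : P) : ℤ := p.1 * p.1 + p.1 * p.2 + p.2 * p.2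
def crs (p q : P) : ℤ := p.1 * q.2 - p.2 * q.1
def psub (p q : P) : P := (p.1 - q.1, p.2 - q.2)
def psmul (k : ℤ) (p : P) : P := (k * p.1, k * p.2)

noncomputable def pt (p : P) : ℂ := (1 / 3000000 : ℝ) • emb p

lemma ip_emb (p n : P) : ip (emb p) (emb n) = ip2 p n / 2 := by
  simp [ip, emb, ip2]; linear_combination (p.2 * n.2 / 4 : ℝ) * s3

lemma norm_emb (p : P) : ‖emb p‖ = √(nsq p).toNat := by
  have h : ‖emb p‖ ^ 2 = nsq p := by
    rw [← ip_self, ip_emb]; simp [ip2, nsq]; ring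
  have h0 : 0 ≤ nsq p := by exact_mod_cast h ▸ sq_nonneg ‖emb p‖
  have : ((nsq p).toNat : ℝ) = nsq p := by exact_mod_cast Int.toNat_of_nonneg h0
  rw [this, ← h, Real.sqrt_sq (norm_nonneg _)]

lemma emb_sub (p q : P) : emb (psub p q) = emb p - emb q := by
  apply Complex.ext <;> simp [emb, psub] <;> ring

lemma emb_smul (k : ℤ) (p : P) : emb (psmul k p) = (k : ℝ) • emb p := by
  apply Complex.ext <;> simp [emb, psmul] <;> ring

lemma pt_sub (p q : P) : pt p - pt q = (1 / 3000000 : ℝ) • emb (psub p q) := by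
  rw [emb_sub, smul_sub]; rfl

lemma norm_pt_sub (p q : P) : ‖pt p - pt q‖ = √(nsq (psub p q)).toNat / 3000000 := by
  rw [pt_sub, norm_smul, norm_emb]; simp [div_eq_inv_mul]

/-! energy certificates -/

abbrev WL := List (ℕ × P)

noncomputable def wm : WL → M
  | [] => 0
  | a :: l => Finsupp.single (pt a.2) (a.1 : ℝ) + wm l

def wsum : WL → ℕ
  | [] => 0
  | a :: l => a.1 + wsum l

noncomputable def usum (f : ℕ → ℕ) (v : P) : WL → ℕ
  | [] => 0
  | a :: l => a.1 * f (nsq (psub a.2 v)).toNat + usum f v l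

noncomputable def isum (vs : WL) : WL → ℕ
  | [] => 0
  | a :: l => a.1 * usum lo a.2 vs + isum vs l

lemma mass_mk (l : WL) : mass (wm l) = wsum l := by
  induction l with
  | nil => simp [wm, mass, wsum]
  | cons a l ih => simp only [mass, wm, wsum, map_add, ev_single] at *; rw [ih]; simp

lemma U_mk_le (v : P) (l : WL) : U (wm l) (pt v) ≤ usum up v l / 3000000 := by
  induction l with
  | nil => simp [wm, U, usum]
  | cons a l ih =>
    simp only [U, wm, usum, map_add, ev_single, norm_pt_sub] at *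
    have := mul_le_mul_of_nonneg_left (le_up (nsq (psub a.2 v)).toNat) (Nat.cast_nonneg a.1)
    push_cast; linarith

lemma U_mk_ge (v : P) (l : WL) : usum lo v l / 3000000 ≤ U (wm l) (pt v) := by
  induction l with
  | nil => simp [wm, U, usum]
  | cons a l ih =>
    simp only [U, wm, usum, map_add, ev_single, norm_pt_sub] at *
    have := mul_le_mul_of_nonneg_left (lo_le (nsq (psub a.2 v)).toNat) (Nat.cast_nonneg a.1)
    push_cast; linarith

lemma B_mk_ge (vs l : WL) : isum vs l / 3000000 ≤ B (wm l) (wm vs) := by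
  induction l with
  | nil => simp [wm, B, isum]
  | cons a l ih =>
    simp only [wm, isum, B_add, B_single] at *
    have := mul_le_mul_of_nonneg_left (U_mk_ge a.2 vs) (Nat.cast_nonneg a.1)
    push_cast; linarith

def pts (l : WL) : Set ℂ := {z | ∃ a ∈ l, z = pt a.2}

lemma ev_mk_nonneg (l : WL) (f : ℂ → ℝ) (hf : ∀ x ∈ pts l, 0 ≤ f x) : 0 ≤ ev f (wm l) := by
  induction l with
  | nil => simp [wm]
  | cons a l ih =>
    simp only [wm, map_add, ev_single]
    exact add_nonneg (mul_nonneg (Nat.cast_nonneg _) (hf _ ⟨a, by simp, rfl⟩))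
      (ih fun x ⟨b, hb, e⟩ => hf x ⟨b, by simp [hb], e⟩)

lemma prob_mk {l : WL} (h : 0 < wsum l) : Prob (pts l) ((wsum l : ℝ)⁻¹ • wm l) :=
  ⟨by
    have := mass_mk l
    simp only [mass, map_smul, smul_eq_mul] at *
    rw [this, inv_mul_cancel₀ (by positivity)],
   fun f hf => by
    rw [map_smul]; exact mul_nonneg (by positivity) (ev_mk_nonneg l f hf)⟩

structure Cert where
  a : P × P × P
  W : ℕ
  Um : ℕ
  Il : ℕ
  vs : WL

noncomputable def Cert.en (c : Cert) : Bool :=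
  Nat.beq (wsum c.vs) c.W && Nat.ble 1 c.W && Nat.ble c.Il (isum c.vs c.vs) &&
    c.vs.all (fun a => Nat.ble (usum up a.2 c.vs) c.Um) &&
    Nat.ble (20000 * c.Um * c.W) (6671 * 3000000 * c.W * c.W + 10000 * c.Il)

noncomputable def Cert.R (c : Cert) : Set ℂ := convexHull ℝ (pts c.vs)

lemma Cert.compact (c : Cert) : IsCompact c.R :=
  Set.Finite.isCompact_convexHull ℝ ((c.vs.finite_toSet.image fun a => pt a.2).subset
    fun _ ⟨a, ha, e⟩ => ⟨a, ha, e.symm⟩)

lemma Cert.en_sound {c : Cert} (h : c.en = true) (μ : M) (hμ : Prob c.R μ) :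
    B μ μ ≤ 6671 / 10000 := by
  simp only [Cert.en, Bool.and_eq_true, Nat.beq_eq, Nat.ble_eq, List.all_eq_true] at h
  obtain ⟨⟨⟨⟨h1, h2⟩, h3⟩, h4⟩, h5⟩ := h
  have hp := prob_mk (l := c.vs) (by omega)
  rw [h1] at hp
  have hW : (0 : ℝ) < c.W := by exact_mod_cast h2
  have h6 := hμ.energy_le hp.one (c := c.Um / (c.W * 3000000)) (convexHull_min ?_ ?_)
  · rw [B_smul, B_smul'] at h6
    have h7 := B_mk_ge c.vs c.vs
    have h3' : (c.Il : ℝ) ≤ isum c.vs c.vs := by exact_mod_cast h3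
    have h5' : (20000 * c.Um * c.W : ℝ) ≤ 6671 * 3000000 * c.W * c.W + 10000 * c.Il := by
      exact_mod_cast h5
    have h8 : (c.W : ℝ)⁻¹ * ((c.W : ℝ)⁻¹ * (c.Il / 3000000)) ≤
        (c.W : ℝ)⁻¹ * ((c.W : ℝ)⁻¹ * B (wm c.vs) (wm c.vs)) := by gcongr; linarith
    refine h6.trans (le_trans (by linarith : _ ≤ 2 * (c.Um / (c.W * 3000000)) -
      (c.W : ℝ)⁻¹ * ((c.W : ℝ)⁻¹ * (c.Il / 3000000))) ?_)
    field_simp; linarith
  · rintro _ ⟨a, ha, rfl⟩
    have h7 := U_mk_le a.2 c.vs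
    have h4' : (usum up a.2 c.vs : ℝ) ≤ c.Um := by exact_mod_cast h4 a ha
    show U _ _ ≤ _
    simp only [U, map_smul, smul_eq_mul] at *
    refine (mul_le_mul_of_nonneg_left (h7.trans (by gcongr : _ ≤ (c.Um : ℝ) / 3000000))
      (by positivity)).trans_eq (by field_simp)
  · intro z hz w hw a b ha hb hab
    refine (hp.U_convex z w ha hb hab).trans ?_
    have := mul_le_mul_of_nonneg_left hz ha
    have := mul_le_mul_of_nonneg_left hw hb
    calc _ ≤ (a + b) * (c.Um / (c.W * 3000000) : ℝ) := by linarith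
      _ = _ := by rw [hab, one_mul]

noncomputable def lowchk (vs : WL) (W : ℕ) : Bool :=
  Nat.beq (wsum vs) W && Nat.ble 1 W &&
    vs.all (fun a => vs.all fun b => Nat.ble (nsq (psub a.2 b.2)).toNat 9000000000000) &&
    Nat.ble (6672 * 3000000 * W * W) (10000 * isum vs vs)

lemma low_sound {vs : WL} {W : ℕ} (h : lowchk vs W = true) : 6672 / 10000 ≤ S := by
  simp only [lowchk, Bool.and_eq_true, Nat.beq_eq, Nat.ble_eq, List.all_eq_true] at h
  obtain ⟨⟨⟨h1, h2⟩, h3⟩, h4⟩ := h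
  have hp := prob_mk (l := vs) (by omega)
  rw [h1] at hp
  have hW : (0 : ℝ) < W := by exact_mod_cast h2
  refine le_trans ?_ (hp.le_S ?_)
  · rw [B_smul, B_smul']
    have h4' : (6672 * 3000000 * W * W : ℝ) ≤ 10000 * isum vs vs := by exact_mod_cast h4
    refine le_trans ?_ (by gcongr; exact B_mk_ge vs vs :
      (W : ℝ)⁻¹ * ((W : ℝ)⁻¹ * (isum vs vs / 3000000)) ≤ _)
    field_simp; linarith
  · rintro _ ⟨a, ha, rfl⟩ _ ⟨b, hb, rfl⟩
    rw [norm_pt_sub, div_le_one (by norm_num)]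
    have : (((nsq (psub a.2 b.2)).toNat : ℕ) : ℝ) ≤ ((9000000000000 : ℕ) : ℝ) :=
      Nat.cast_le.2 (h3 a ha b hb)
    exact Real.sqrt_le_iff.2 ⟨by norm_num, this.trans (by norm_num)⟩

end Pool.Agent.Lib.MP_c4a252_co
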