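import Pool.Agent.Lib.MP_c4a252_co.Check

/-! Support-function constraints, cones of directions and the level theorem. -/

namespace Pool.Agent.Lib.MP_c4a252_co

def sel {α : Type} (a : α × α × α) : Fin 3 → α := ![a.1, a.2.1, a.2.2]

def VQ (i : Fin 3) : P := psmul 3000000 (Vi i)

lemma pt_VQ (i : Fin 3) : pt (VQ i) = V i := by
  rw [pt, VQ, emb_smul, smul_smul]; simp [V]

inductive Con : Type
  | hex (i j : Fin 3) : Con
  | dep (i : Fin 3) : Con
  | anti (i : Fin 3) : Con
  | disc (i : Fin 3) (n : P) (N : ℕ) : Con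

def Con.dir : Con → P
  | hex i j => psmul 1000000 (psub (Vi i) (Vi j))
  | dep i => di i
  | anti i => psmul (-1000000) (di i)
  | disc _ n _ => n

def Con.bnd : Con → ℕ
  | hex _ _ => 0
  | dep _ => 0
  | anti _ => 1732051
  | disc _ _ N => N

def Con.base {α : Type} (v : Fin 3 → α) (a : α × α × α) : Con → α
  | hex i _ => v i
  | dep i => sel a i
  | anti i => sel a i
  | disc i _ _ => sel a i

def Con.ok (r : Fin 3 → Bool) : Con → Bool
  | disc i n N => r i && decide (nsq n ≤ (N : ℤ) * N)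
  | _ => true

abbrev A3 := ℂ × ℂ × ℂ

structure Valid (E : Set ℂ) (a : A3) (r : Fin 3 → Bool) : Prop where
  hex : E ⊆ H
  dep : ∀ i, ∀ x ∈ E, ip (x - sel a i) (dd i) ≤ 0
  anti : ∀ i, ∀ x ∈ E, -ip (x - sel a i) (dd i) ≤ 1.732051
  disc : ∀ i, r i = true → ∀ x ∈ E, ‖x - sel a i‖ ≤ 1

lemma ip_smul (z w : ℂ) (k : ℝ) : ip z (k • w) = k * ip z w := by simp [ip]; ring
lemma ip_add (z w w' : ℂ) : ip z (w + w') = ip z w + ip z w' := by simp [ip]; ring
lemma ip_sub_left (z z' w : ℂ) : ip (z - z') w = ip z w - ip z' w := by simp [ip]; ring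

lemma norm_emb_le {n : P} {N : ℕ} (h : nsq n ≤ (N : ℤ) * N) : ‖emb n‖ ≤ N := by
  rw [norm_emb]
  refine Real.sqrt_le_iff.2 ⟨by positivity, ?_⟩
  rw [sq]; exact_mod_cast Int.toNat_le.2 (by exact_mod_cast h)

lemma Con.valid {E : Set ℂ} {a : A3} {r : Fin 3 → Bool} (h : Valid E a r) {c : Con}
    (hc : c.ok r = true) {x : ℂ} (hx : x ∈ E) : ip (x - c.base V a) (emb c.dir) ≤ c.bnd := by
  cases c with
  | hex i j =>
    have := h.hex hx i j
    simp only [base, dir, bnd, emb_smul, emb_sub, ip_smul]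
    simp only [V] at this ⊢
    push_cast; linarith
  | dep i => simpa [base, dir, bnd, dd] using h.dep i x hx
  | anti i =>
    have := h.anti i x hx
    simp only [base, dir, bnd, emb_smul, ip_smul, dd] at this ⊢
    push_cast; linarith
  | disc i n N =>
    simp only [ok, Bool.and_eq_true, decide_eq_true_eq] at hc
    refine (ip_le _ _).trans ?_
    exact (mul_le_mul (h.disc i hc.1 x hx) (norm_emb_le hc.2) (norm_nonneg _)
      zero_le_one).trans_eq (one_mul _)

def sat (a : P × P × P) (v : P) (c : Con) : Bool :=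
  decide (6000000 * (c.bnd : ℤ) ≤ ip2 (psub v (c.base VQ a)) c.dir)

noncomputable def pt3 (a : P × P × P) : A3 := (pt a.1, pt a.2.1, pt a.2.2)

lemma sel_pt3 (a : P × P × P) (i : Fin 3) : sel (pt3 a) i = pt (sel a i) := by
  fin_cases i <;> rfl

lemma sat_sound {a : P × P × P} {v : P} {c : Con} (h : sat a v c = true) :
    (c.bnd : ℝ) ≤ ip (pt v - c.base V (pt3 a)) (emb c.dir) := by
  have e : c.base V (pt3 a) = pt (c.base VQ a) := by
    cases c <;> simp [Con.base, sel_pt3, pt_VQ]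
  have h' : (6000000 * (c.bnd : ℝ)) ≤ ip2 (psub v (c.base VQ a)) c.dir := by
    exact_mod_cast of_decide_eq_true h
  have := ip_emb (psub v (c.base VQ a)) c.dir
  rw [e, pt_sub]
  simp only [ip, Complex.real_smul, Complex.re_ofReal_mul, Complex.im_ofReal_mul] at this ⊢
  linarith

def chain (t : P) : P → List (Con × Con) → Bool
  | s, [] => s == t
  | s, c :: l => c.1.dir == s && decide (0 < crs c.1.dir c.2.dir) && chain t c.2.dir l

def cr (z w : ℂ) : ℝ := z.re * w.im - z.im * w.re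

def InCone (c : Con × Con) (u : ℂ) : Prop :=
  ∃ α β : ℝ, 0 ≤ α ∧ 0 ≤ β ∧ u = α • emb c.1.dir + β • emb c.2.dir

lemma chain_cover (t : P) (u : ℂ) (ht : cr (emb t) u ≤ 0) (l : List (Con × Con)) :
    ∀ s, chain t s l = true → 0 ≤ cr (emb s) u → s = t ∧ l = [] ∨ ∃ c ∈ l, InCone c u := by
  induction l with
  | nil => intro s h _; exact Or.inl ⟨by simpa [chain] using h, rfl⟩
  | cons c l ih =>
    intro s h hs
    simp only [chain, Bool.and_eq_true, beq_iff_eq, decide_eq_true_eq] at h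
    obtain ⟨⟨rfl, h2⟩, h3⟩ := h
    right
    rcases le_or_gt (cr (emb c.2.dir) u) 0 with h4 | h4
    · have h5 : 0 < cr (emb c.1.dir) (emb c.2.dir) := by
        have : cr (emb c.1.dir) (emb c.2.dir) = √3 / 2 * crs c.1.dir c.2.dir := by
          simp [cr, emb, crs]; ring
        rw [this]; positivity
      refine ⟨c, by simp, -cr (emb c.2.dir) u / cr (emb c.1.dir) (emb c.2.dir),
        cr (emb c.1.dir) u / cr (emb c.1.dir) (emb c.2.dir),
        div_nonneg (by linarith) h5.le, div_nonneg hs h5.le, ?_⟩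
      apply Complex.ext <;> simp <;> field_simp <;> simp [cr] <;> ring
    · rcases ih _ h3 h4.le with ⟨e, -⟩ | ⟨d, hd, h5⟩
      · rw [e] at h4; linarith
      · exact ⟨d, by simp [hd], h5⟩

lemma cover {l1 l2 : List (Con × Con)} (h1 : chain (0, -1000000) (0, 1000000) l1 = true)
    (h2 : chain (0, 1000000) (0, -1000000) l2 = true) (u : ℂ) : ∃ c ∈ l1 ++ l2, InCone c u := by
  have e : cr (emb (0, -1000000)) u = -cr (emb (0, 1000000)) u := by
    simp [cr, emb]; ring
  rcases le_total 0 (cr (emb (0, 1000000)) u) with h | h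
  · rcases chain_cover _ u (by linarith) l1 _ h1 h with ⟨e, -⟩ | ⟨c, hc, h3⟩
    · simp at e
    · exact ⟨c, by simp [hc], h3⟩
  · rcases chain_cover _ u h l2 _ h2 (by linarith) with ⟨e, -⟩ | ⟨c, hc, h3⟩
    · simp at e
    · exact ⟨c, by simp [hc], h3⟩

def Aff (φ : A3 → ℝ) : Prop := ∃ c : ℝ, IsLinearMap ℝ fun a => φ a - c

lemma Aff.sum {φ : A3 → ℝ} (h : Aff φ) {κ : Type} [Fintype κ] (l : κ → ℝ) (a : κ → A3)
    (hl : ∑ k, l k = 1) : φ (∑ k, l k • a k) = ∑ k, l k * φ (a k) := by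
  obtain ⟨c, hc⟩ := h
  have := map_sum (hc.mk' _) (fun k => l k • a k) Finset.univ
  simp only [map_smul, IsLinearMap.mk'_apply, smul_eq_mul, mul_sub, Finset.sum_sub_distrib,
    ← Finset.sum_mul, hl] at this
  linarith

lemma aff_sel (c : ℝ) (i : Fin 3) (n : ℂ) : Aff fun a => c + ip (sel a i) n :=
  ⟨c, by constructor <;> intros <;> fin_cases i <;> simp [sel, ip] <;> ring⟩

lemma aff_base (c : Con) : Aff fun a => c.bnd + ip (c.base V a) (emb c.dir) := by
  cases c with
  | hex i j =>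
    exact ⟨ip (V i) (emb (Con.hex i j).dir), by
      constructor <;> intros <;> simp [Con.base, Con.bnd]⟩
  | _ => exact aff_sel _ _ _

lemma Aff.comb {f g : A3 → ℝ} (hf : Aff f) (hg : Aff g) (α β : ℝ) :
    Aff fun a => α * f a + β * g a := by
  obtain ⟨c, h1, h2⟩ := hf
  obtain ⟨d, h3, h4⟩ := hg
  refine ⟨α * c + β * d, fun x y => ?_, fun k x => ?_⟩
  · linear_combination α * h1 x y + β * h3 x y
  · have := h2 k x; have := h4 k x
    simp only [smul_eq_mul] at *
    linear_combination α * h2 k x + β * h4 k x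

def V3 : P × P × P := (VQ 0, VQ 1, VQ 2)

def ddk : Con → Con → Bool
  | .disc i n N, .disc j n' N' => i == j && (List.finRange 3).all fun k => k == i ||
      (decide ((N : ℤ) ≤ ip2 (psub (Vi k) (Vi i)) n) &&
        decide ((N' : ℤ) ≤ ip2 (psub (Vi k) (Vi i)) n'))
  | _, _ => false

def tok (c : Con × Con) : Bool :=
  ddk c.1 c.2 || (List.finRange 3).any fun i => sat V3 (VQ i) c.1 && sat V3 (VQ i) c.2

lemma key {E : Set ℂ} {a : A3} {r : Fin 3 → Bool} (h : Valid E a r) {c : Con × Con}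
    (h1 : c.1.ok r = true) (h2 : c.2.ok r = true) {u : ℂ} (hu : InCone c u) :
    ∃ φ : A3 → ℝ, Aff φ ∧ (∀ x ∈ E, ip x u ≤ φ a) ∧
      (∀ a' v, sat a' v c.1 = true → sat a' v c.2 = true → φ (pt3 a') ≤ ip (pt v) u) ∧
      (tok c = true → ∃ y ∈ T, φ (pt3 V3) ≤ ip y u) := by
  obtain ⟨α, β, hα, hβ, rfl⟩ := hu
  obtain ⟨c1, c2⟩ := c
  have hs : ∀ a' v, sat a' v c1 = true → sat a' v c2 = true →
      α * (c1.bnd + ip (c1.base V (pt3 a')) (emb c1.dir)) +
        β * (c2.bnd + ip (c2.base V (pt3 a')) (emb c2.dir)) ≤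
      ip (pt v) (α • emb c1.dir + β • emb c2.dir) := fun a' v s1 s2 => by
    have s1 := sat_sound s1; have s2 := sat_sound s2
    rw [ip_sub_left] at s1 s2
    rw [ip_add, ip_smul, ip_smul]
    nlinarith
  by_cases hd : ddk c1 c2 = true
  · rcases c1 with _ | _ | _ | ⟨i, n, N⟩ <;> rcases c2 with _ | _ | _ | ⟨j, n', N'⟩ <;>
      simp only [ddk, Bool.false_eq_true, Bool.and_eq_true, beq_iff_eq, List.all_eq_true,
        Bool.or_eq_true, decide_eq_true_eq] at hd
    obtain ⟨rfl, hd⟩ := hd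
    simp only [Con.ok, Bool.and_eq_true, decide_eq_true_eq] at h1 h2
    simp only [Con.dir, Con.bnd, Con.base] at *
    set u := α • emb n + β • emb n' with hu
    have hN : ‖u‖ ≤ α * N + β * N' := by
      refine (norm_add_le _ _).trans ?_
      rw [norm_smul, norm_smul, Real.norm_of_nonneg hα, Real.norm_of_nonneg hβ]
      gcongr
      exacts [norm_emb_le h1.2, norm_emb_le h2.2]
    refine ⟨fun a => ‖u‖ + ip (sel a i) u, aff_sel _ _ _, fun x hx => ?_, fun a' v s1 s2 => ?_,
      fun _ => ?_⟩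
    · have := ip_le (x - sel a i) u
      have := mul_le_mul_of_nonneg_right (h.disc i h1.1 x hx) (norm_nonneg u)
      rw [ip_sub_left] at *
      linarith
    · refine le_trans ?_ (hs a' v s1 s2)
      have : ip (sel (pt3 a') i) u = α * ip (sel (pt3 a') i) (emb n) +
          β * ip (sel (pt3 a') i) (emb n') := by rw [hu, ip_add, ip_smul, ip_smul]
      linarith
    · have e : sel (pt3 V3) i = V i := by rw [sel_pt3, ← pt_VQ]; fin_cases i <;> rfl
      simp only [e]
      rcases eq_or_ne u 0 with h0 | h0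
      · exact ⟨V i, V_mem i, by simp [h0]⟩
      have hp := norm_pos_iff.2 h0
      have hw : ip (‖u‖⁻¹ • u) u = ‖u‖ := by
        have := ip_self u
        simp only [ip, Complex.real_smul, Complex.re_ofReal_mul, Complex.im_ofReal_mul] at *
        field_simp; linarith
      refine ⟨V i + ‖u‖⁻¹ • u, fun k => ?_, ?_⟩
      · rcases hd k (List.mem_finRange k) with rfl | ⟨k1, k2⟩
        · simp [h0]
        have hk : i ≠ k ∨ i = k := ne_or_eq _ _
        rcases hk with hk | rfl
        swap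
        · simp [h0]
        have k3 : ‖u‖ ≤ 2 * ip (V k - V i) u := by
          have k1' : (N : ℝ) ≤ ip2 (psub (Vi k) (Vi i)) n := by exact_mod_cast k1
          have k2' : (N' : ℝ) ≤ ip2 (psub (Vi k) (Vi i)) n' := by exact_mod_cast k2
          rw [hu, ip_add, ip_smul, ip_smul, V, V, ← emb_sub, ip_emb, ip_emb, ← hu]
          nlinarith
        have k4 := ip_self (V i - V k)
        rw [normV hk] at k4
        have k5 : ip (‖u‖⁻¹ • u) (‖u‖⁻¹ • u) = 1 := by rw [ip_smul, hw]; field_simp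
        have k6 : 1 ≤ 2 * ip (V k - V i) (‖u‖⁻¹ • u) := by
          rw [ip_smul, mul_left_comm, ← div_eq_inv_mul, le_div_iff₀ hp]; linarith
        apply norm_le_one
        generalize ‖u‖⁻¹ • u = w at *
        simp only [ip, Complex.sub_re, Complex.sub_im, Complex.add_re, Complex.add_im] at *
        linarith
      · have : ip (V i + ‖u‖⁻¹ • u) u = ip (V i) u + ip (‖u‖⁻¹ • u) u := by simp [ip]; ring
        linarith
  · refine ⟨_, (aff_base c1).comb (aff_base c2) α β, fun x hx => ?_, hs, fun ht => ?_⟩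
    · have s1 := Con.valid h h1 hx; have s2 := Con.valid h h2 hx
      rw [ip_sub_left] at s1 s2
      rw [ip_add, ip_smul, ip_smul]
      nlinarith
    · simp only [tok, hd, Bool.false_or, List.any_eq_true, Bool.and_eq_true] at ht
      obtain ⟨i, -, s1, s2⟩ := ht
      exact ⟨V i, V_mem i, pt_VQ i ▸ hs _ _ s1 s2⟩

structure Lev where
  l1 : List (Con × Con)
  l2 : List (Con × Con)
  r : Fin 3 → Bool

def Lev.ok (L : Lev) : Bool :=
  chain (0, -1000000) (0, 1000000) L.l1 && chain (0, 1000000) (0, -1000000) L.l2 &&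
    (L.l1 ++ L.l2).all fun c => c.1.ok L.r && c.2.ok L.r

noncomputable def Lev.good (L : Lev) (c : Cert) : Bool :=
  c.en && (L.l1 ++ L.l2).all fun d => c.vs.any fun v => sat c.a v.2 d.1 && sat c.a v.2 d.2

theorem level {L : Lev} {cs : List Cert} (hL : L.ok = true) (hc : cs.all L.good = true)
    {E : Set ℂ} {a a' : A3} (h : Valid E a L.r) {t : ℝ} (t0 : 0 ≤ t) (t1 : t ≤ 1)
    (ht : t = 1 ∨ (L.l1 ++ L.l2).all tok = true)
    (ha' : a' ∈ convexHull ℝ {z | ∃ c ∈ cs, z = pt3 c.a})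
    (ha : a = (1 - t) • pt3 V3 + t • a') {μ : M} (hμ : Prob E μ) :
    B μ μ ≤ (1 - t) * S + t * (6671 / 10000) := by
  simp only [Lev.ok, Lev.good, Bool.and_eq_true, List.all_eq_true, List.any_eq_true] at hL hc ht
  obtain ⟨ι, _, w, z, hw, hw1, hz, rfl⟩ := mem_convexHull_iff_exists_fintype.1 ha'
  choose c hcm hz using hz
  have := energy_dec (κ := Option ι) (fun k => k.elim (1 - t) fun k => t * w k)
    (fun k => by cases k <;> simp [t1, mul_nonneg t0 (hw _)])
    (fun k => k.elim T fun k => (c k).R)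
    (fun k => by cases k; exacts [convex_T, convex_convexHull _ _])
    (fun k => by cases k; exacts [compact_T, Cert.compact _])
    (fun k => k.elim S fun _ => 6671 / 10000)
    (fun k ν hν => by
      cases k; exacts [hν.le_S diam_T, Cert.en_sound (hc _ (hcm _)).1 ν hν])
    (E := E) (fun x hx u => ?_) hμ
  · simpa [Fintype.sum_option, ← Finset.sum_mul, ← Finset.mul_sum, hw1] using this
  obtain ⟨d, hd, hu⟩ := cover hL.1.1 hL.1.2 u
  obtain ⟨φ, k1, k2, k3, k4⟩ := key h (hL.2 d hd).1 (hL.2 d hd).2 hu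
  obtain ⟨y, hy, k5⟩ : ∃ y ∈ T, (1 - t) * φ (pt3 V3) ≤ (1 - t) * ip y u := by
    rcases ht with rfl | ht
    · exact ⟨V 0, V_mem 0, by simp⟩
    · obtain ⟨y, hy, k5⟩ := k4 (ht d hd)
      exact ⟨y, hy, mul_le_mul_of_nonneg_left k5 (by linarith)⟩
  choose v hv s1 s2 using fun k => (hc _ (hcm k)).2 d hd
  refine ⟨fun k => k.elim y fun k => pt (v k).2, fun k => ?_, (k2 x hx).trans ?_⟩
  · cases k; exacts [hy, subset_convexHull _ _ ⟨_, hv _, rfl⟩]
  have e := k1.sum (κ := Option ι) (fun k => k.elim (1 - t) fun k => t * w k)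
    (fun k => k.elim (pt3 V3) z) (by simp [Fintype.sum_option, ← Finset.mul_sum, hw1])
  simp only [Fintype.sum_option, Option.elim, mul_smul, ← Finset.smul_sum, ← ha] at e ⊢
  rw [e]
  refine add_le_add k5 (Finset.sum_le_sum fun k _ => ?_)
  rw [hz]
  exact mul_le_mul_of_nonneg_left (k3 _ _ (s1 k) (s2 k)) (mul_nonneg t0 (hw k))

end Pool.Agent.Lib.MP_c4a252_co
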