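import Pool.Agent.Lib.MP_c4a252_co.Wedge2
import Pool.Agent.Lib.MP_c4a252_co.Cert

/-! The six terms of the symmetrized functional. -/

namespace Pool.Agent.Lib.MP_c4a252_co

open Set

lemma s_lo : 1.732 ≤ √3 := Real.le_sqrt_of_sq_le (by norm_num)
lemma s_hi : √3 ≤ 1.7321 := Real.sqrt_le_iff.2 ⟨by norm_num, by norm_num⟩
lemma u0_pos : 0 < u0 := by unfold u0; positivity
lemma u1_le : u1 ≤ 1 / 1000000 := by unfold u1; norm_num

lemma L_circ {α β γ : ℝ} (hα : 0 < α) (h : α * γ = β ^ 2) :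
    L (φ α β γ) = √α * NN (β / α) := by
  have : L (φ α β γ) = L (fun u => √α * |u - β / α| + 0 * |u - β / α|) := by
    congr 1; funext u
    rw [φ, zero_mul, add_zero, ← Real.sqrt_sq_eq_abs, ← Real.sqrt_mul hα.le]
    congr 1; field_simp; linear_combination h
  rw [this, L_comb, zero_mul, add_zero, NN]

lemma quad_neg {α β γ : ℝ} (hα : 0 < α) (hβ : β ≤ 0) (hγ : 0 ≤ γ) :
    ∀ u ∈ Icc u0 u1, 0 < α * u ^ 2 - 2 * β * u + γ := fun u hu => by
  have := u0_pos.trans_le hu.1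
  nlinarith [mul_pos hα (pow_pos this 2), mul_nonneg (neg_nonneg.2 hβ) this.le]

lemma L_neg {α β γ : ℝ} (hα : 0 < α) (hβ : β ≤ 0) (hγ : 0 ≤ γ) (h : β ^ 2 ≤ α * γ) :
    0 ≤ L (φ α β γ) := by
  have := L_ge (C3_φ (quad_neg hα hβ hγ)) (K := 0) fun u hu => by
    have := u0_pos.trans_le hu.1
    have h1 : 0 ≤ (α * γ - β ^ 2) * (α * u - β) :=
      mul_nonneg (sub_nonneg.2 h) (by nlinarith [mul_pos hα this])
    exact div_nonpos_of_nonpos_of_nonneg (by linarith) (pow_nonneg (Real.sqrt_nonneg _) 5)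
  simpa using this

lemma L_far {α β w : ℝ} (hα : 0 ≤ α) (hβ : 0 ≤ β) (hβ2 : β ≤ 2) (hw : α - β ^ 2 = w)
    (h0 : 0 ≤ w) : -(3.1 * w * β) * Mc ≤ L (φ α β 1) := by
  have q : ∀ u ∈ Icc u0 u1, 0.999 ≤ α * u ^ 2 - 2 * β * u + 1 := fun u hu => by
    have := u0_pos.trans_le hu.1
    nlinarith [mul_nonneg hα (pow_pos this 2).le, hu.2, u1_le]
  refine L_ge (C3_φ fun u hu => lt_of_lt_of_le (by norm_num) (q u hu)) fun u hu => ?_
  have h1 : 0.999 ≤ φ α β 1 u := Real.le_sqrt_of_sq_le (le_trans (by norm_num) (q u hu))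
  have h2 : 0.999 ^ 5 ≤ φ α β 1 u ^ 5 := pow_le_pow_left₀ (by norm_num) h1 5
  have := u0_pos.trans_le hu.1
  rw [φ3, mul_one, hw, div_le_iff₀ (lt_of_lt_of_le (by norm_num) h2)]
  nlinarith [mul_nonneg h0 (mul_nonneg hα this.le), mul_nonneg h0 hβ,
    mul_nonneg (mul_nonneg h0 hβ) (sub_nonneg.2 h2)]

lemma L_mass : L (φ 1 0 1) ≤ 0.00001 * Mc := by
  refine L_le (C3_φ (quad_neg one_pos le_rfl zero_le_one)) fun u hu => ?_
  have := u0_pos.trans_le hu.1
  have h1 : 1 ≤ φ 1 0 1 u := Real.le_sqrt_of_sq_le (by nlinarith)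
  have h2 : 1 ≤ φ 1 0 1 u ^ 5 := one_le_pow₀ h1
  rw [φ3, le_div_iff₀ (by linarith)]
  nlinarith [hu.2, u1_le]

structure RD (R D : ℝ) : Prop where
  r0 : 0 ≤ R
  d0 : 0 ≤ D
  rel : D ^ 2 + R * D + R ^ 2 = 3 * R
  le : R + D ≤ 1

lemma RD.a1 {R D : ℝ} (h : RD R D) : 2 * R ≤ D ^ 2 := by
  nlinarith [h.rel, mul_nonneg h.r0 (sub_nonneg.2 h.le)]

lemma RD.a2 {R D : ℝ} (h : RD R D) : D ≤ 0.7321 := by
  have : D ^ 2 + 2 * D ≤ 2 := by
    nlinarith [h.rel, mul_nonneg (sub_nonneg.2 h.le) (by linarith [h.le, h.d0] : 0 ≤ 2 - R)]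
  nlinarith [h.d0]

lemma RD.a3 {R D : ℝ} (h : RD R D) : R ≤ 0.367 * D := by nlinarith [h.a1, h.a2, h.d0]

lemma RD.w3 {R D : ℝ} (h : RD R D) : (4 - 2 * D - R) * R - ((R - D) / √3) ^ 2 = D ^ 2 := by
  rw [div_pow, s3']; linear_combination (-4 / 3) * h.rel

lemma RD.b3 {R D : ℝ} (h : RD R D) : (R - D) / √3 ≤ 0 :=
  div_nonpos_of_nonpos_of_nonneg (by linarith [h.a3, h.d0]) (by positivity)

lemma RD.far3 {R D : ℝ} (h : RD R D) (hD : 0.001 ≤ D) :
    11 * Mc ≤ L (φ (4 - 2 * D - R) ((R - D) / √3) R) := by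
  have a1 := h.a1; have a2 := h.a2; have a3 := h.a3; have r0 := h.r0
  have q := quad_neg (α := 4 - 2 * D - R) (by linarith) h.b3 r0
  have := L_ge (C3_φ q) (K := -11) fun u hu => by
    have u_0 := u0_pos.trans_le hu.1
    have u_1 := hu.2.trans u1_le
    have hp : 0 < φ (4 - 2 * D - R) ((R - D) / √3) R u := Real.sqrt_pos.2 (q u hu)
    have b1 : -D ≤ (R - D) / √3 := by
      rw [le_div_iff₀ (by positivity)]; nlinarith [s_lo]
    have b2 : (R - D) / √3 ≤ -0.365 * D := by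
      rw [div_le_iff₀ (by positivity)]; nlinarith [s_hi]
    have h1 : φ (4 - 2 * D - R) ((R - D) / √3) R u ≤ 0.709 * D := by
      refine Real.sqrt_le_iff.2 ⟨by positivity, ?_⟩
      have : u ≤ 0.001 * D := by linarith
      nlinarith [mul_le_mul this this u_0.le (by positivity), mul_nonneg u_0.le r0,
        mul_le_mul_of_nonneg_left b1 u_0.le, mul_nonneg (mul_nonneg u_0.le u_0.le) r0,
        mul_nonneg (mul_nonneg u_0.le u_0.le) h.d0, mul_le_mul_of_nonneg_left this h.d0]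
    have h2 := pow_le_pow_left₀ hp.le h1 5
    rw [φ3, h.w3, div_le_iff₀ (pow_pos hp 5)]
    have h3 : 0 ≤ (4 - 2 * D - R) * u := mul_nonneg (by linarith) u_0.le
    have h4 : D ^ 2 ≤ 0.536 := by nlinarith
    have h5 : 0 < D ^ 3 := by positivity
    nlinarith [mul_le_mul_of_nonneg_left h4 h5.le, mul_nonneg (sq_nonneg D) h3,
      mul_le_mul_of_nonneg_left b2 (sq_nonneg D)]
  linarith

lemma RD.w1 {R D : ℝ} (h : RD R D) : (4 - R) * R = ((R + 2 * D) / √3) ^ 2 := by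
  rw [div_pow, s3']; linear_combination (-4 / 3) * h.rel

lemma RD.near3 {R D : ℝ} (h : RD R D) : 0 ≤ L (φ (4 - R) ((R + 2 * D) / √3) R) +
    L (φ (4 - 2 * D - R) ((R - D) / √3) R) := by
  have a1 := h.a1; have a2 := h.a2; have a3 := h.a3; have r0 := h.r0; have d0 := h.d0
  have q := quad_neg (α := 4 - 2 * D - R) (by linarith) h.b3 r0
  rw [L_circ (by linarith) h.w1]
  set t := (R + 2 * D) / √3 / (4 - R) with ht
  rcases le_total 0 (NN t) with hN | hN
  · exact add_nonneg (mul_nonneg (Real.sqrt_nonneg _) hN)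
      (L_neg (by linarith) h.b3 r0 (by nlinarith [h.w3]))
  rcases wedge t with h0 | ⟨ρ, b, p0, p1, b0, b1, b2, t1, hw⟩
  · exact add_nonneg (mul_nonneg (Real.sqrt_nonneg _) h0)
      (L_neg (by linarith) h.b3 r0 (by nlinarith [h.w3]))
  have hs : √(4 - R) ≤ 2 := Real.sqrt_le_iff.2 ⟨by norm_num, by linarith⟩
  have a4 : 0 < 4 - R := by linarith
  have t0 : 0 ≤ t := by positivity
  have t2 : √3 * t * (4 - R) = R + 2 * D := by rw [ht]; field_simp
  have t3 : t ^ 2 * (4 - R) = R := by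
    have : t * (4 - R) = (R + 2 * D) / √3 := by rw [ht]; field_simp
    have w := h.w1
    rw [← this] at w
    exact mul_left_cancel₀ a4.ne' (by linarith)
  have t4 := t1.trans u1_le
  clear_value t
  have q2 := quad_neg (α := 1) (β := -b / 2) (γ := b ^ 2) one_pos (by linarith) (by positivity)
  have key := L_mono (C3_φ q) (C3_φ q2) (2 * (0.999 * ρ ^ 3)) fun u hu => by
    have u_0 := u0_pos.trans_le hu.1
    have hp : 0 < φ (4 - 2 * D - R) ((R - D) / √3) R u := Real.sqrt_pos.2 (q u hu)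
    have hq : 0 < φ 1 (-b / 2) (b ^ 2) u := Real.sqrt_pos.2 (q2 u hu)
    have hq2 : φ 1 (-b / 2) (b ^ 2) u ^ 2 = 1 * u ^ 2 - 2 * (-b / 2) * u + b ^ 2 :=
      Real.sq_sqrt (q2 u hu).le
    have st : 0 ≤ √3 * t := by positivity
    have c0 : R ≤ 4 * t ^ 2 := by nlinarith [mul_nonneg (sq_nonneg t) r0]
    have c00 : R ≤ 0.00001 * t := by nlinarith
    have c1 : -(2 * t) ≤ (R - D) / √3 := by
      rw [le_div_iff₀ (by positivity)]; nlinarith [mul_nonneg st r0]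
    have c5 : 1.732 * t ≤ √3 * t := mul_le_mul_of_nonneg_right s_lo t0
    have c6 : √3 * t ≤ 1.7321 * t := mul_le_mul_of_nonneg_right s_hi t0
    have c2 : 2 * 0.9999 * (√3 * t) ≤ D - R := by
      nlinarith [mul_le_mul_of_nonneg_left (by linarith : R ≤ 0.00001) st]
    have c3 : (R - D) / √3 ≤ -(2 * 0.9999 * t) := by
      rw [div_le_iff₀ (by positivity)]; linarith
    have c4 : 4 * 0.9999 ≤ 4 - 2 * D - R := by nlinarith [mul_nonneg st r0]
    have h1 : φ (4 - 2 * D - R) ((R - D) / √3) R u ≤ 2 * φ 1 (-b / 2) (b ^ 2) u := by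
      refine Real.sqrt_le_iff.2 ⟨by positivity, ?_⟩
      rw [mul_pow, hq2]
      nlinarith [mul_le_mul_of_nonneg_left c1 u_0.le, mul_nonneg (sq_nonneg u) r0,
        mul_nonneg (sq_nonneg u) d0, mul_le_mul_of_nonneg_left b2 u_0.le,
        pow_le_pow_left₀ t0 b2 2]
    have h2 := pow_le_pow_left₀ hp.le h1 5
    have d1 : 12 * 0.9999 ^ 2 * t ^ 2 ≤ D ^ 2 := by
      have := pow_le_pow_left₀ (by positivity) (by linarith : 2 * 0.9999 * (√3 * t) ≤ D) 2
      rw [mul_pow, mul_pow √3, s3'] at this; linarith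
    have d2 : 0.9999 * (4 * u + 2 * t) ≤ (4 - 2 * D - R) * u - (R - D) / √3 := by
      nlinarith [mul_le_mul_of_nonneg_right c4 u_0.le]
    have d3 : ρ * (4 * u + 2 * b) ≤ 4 * u + 2 * t := by
      nlinarith [mul_le_mul_of_nonneg_right p1 u_0.le]
    have d4 : (ρ * b) ^ 2 ≤ t ^ 2 := pow_le_pow_left₀ (by positivity) b1 2
    have d5 := mul_le_mul d1 d2 (by positivity) (by positivity)
    have d6 := mul_le_mul d4 d3 (by positivity) (by positivity)
    have d7 : 0 ≤ ρ ^ 3 * b ^ 2 * (2 * u + b) := by positivity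
    have d8 : 24 * 0.999 * (ρ ^ 3 * b ^ 2 * (2 * u + b)) ≤
        D ^ 2 * ((4 - 2 * D - R) * u - (R - D) / √3) := by nlinarith
    rw [φ3, φ3, h.w3, ← mul_div_assoc, div_le_div_iff₀ (pow_pos hp 5) (pow_pos hq 5)]
    have d9 := mul_le_mul_of_nonneg_left h2 d7
    have d10 := mul_le_mul_of_nonneg_right d8 (pow_pos hq 5).le
    nlinarith
  change _ * GG b ≤ _ at key
  nlinarith [mul_nonneg (sub_nonneg.2 hs) (neg_nonneg.2 hN)]

noncomputable def Ψ (a b c : ℝ) : ℝ := L (φ (2 * c + 2 - a) ((a + c + 1 - 2 * b) / √3) a)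

theorem RD.tot {R D : ℝ} (h : RD R D) {k : ℝ} (k1 : 0.07 - 12 * D ≤ k) (k2 : -3 ≤ k) :
    0 < Ψ R (1 - D) 1 + Ψ 1 R (1 - D) + Ψ (1 - D) 1 R + Ψ (1 - D) R 1 + Ψ 1 (1 - D) R +
      Ψ R 1 (1 - D) - 6 * S * L (φ 1 0 1) + Mc * k := by
  have a1 := h.a1; have a2 := h.a2; have a3 := h.a3; have r0 := h.r0; have d0 := h.d0
  have le := h.le
  have e1 : Ψ R (1 - D) 1 = L (φ (4 - R) ((R + 2 * D) / √3) R) := by
    unfold Ψ; congr 2 <;> ring
  have e5 : Ψ 1 R (1 - D) = L (φ (3 - 2 * D) ((3 - D - 2 * R) / √3) 1) := by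
    unfold Ψ; congr 2 <;> ring
  have e4 : Ψ (1 - D) 1 R = L (φ (2 * R + 1 + D) ((R - D) / √3) (1 - D)) := by
    unfold Ψ; congr 2 <;> ring
  have e2 : Ψ (1 - D) R 1 = L (φ (3 + D) ((3 - D - 2 * R) / √3) (1 - D)) := by
    unfold Ψ; congr 2 <;> ring
  have e6 : Ψ 1 (1 - D) R = L (φ (2 * R + 1) ((R + 2 * D) / √3) 1) := by
    unfold Ψ; congr 2 <;> ring
  have e3 : Ψ R 1 (1 - D) = L (φ (4 - 2 * D - R) ((R - D) / √3) R) := by
    unfold Ψ; congr 2 <;> ring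
  have sp : 0 < √3 := by positivity
  have n2 : Ψ (1 - D) R 1 = 0 := by
    rw [e2, L_circ (by linarith) (by rw [div_pow, s3']; linear_combination (-4 / 3) * h.rel),
      NN_hi, mul_zero]
    rw [le_div_iff₀ (by linarith), le_div_iff₀ sp]
    nlinarith [mul_le_mul (mul_le_mul u1_le (by linarith : 3 + D ≤ 4) (by linarith) (by norm_num))
      s_hi sp.le (by norm_num)]
  have n4 : 0 ≤ Ψ (1 - D) 1 R := by
    rw [e4]
    refine L_neg (by linarith) h.b3 (by linarith) ?_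
    rw [div_pow, s3']; nlinarith [h.rel, sq_nonneg (1 - R)]
  have b5 : (3 - D - 2 * R) / √3 ≤ 1.733 := by rw [div_le_iff₀ sp]; nlinarith [s_lo]
  have b6 : (R + 2 * D) / √3 ≤ 1.37 * D := by rw [div_le_iff₀ sp]; nlinarith [s_lo]
  have n5 := L_far (α := 3 - 2 * D) (β := (3 - D - 2 * R) / √3) (w := D ^ 2) (by linarith)
    (div_nonneg (by linarith) sp.le) (by linarith)
    (by rw [div_pow, s3']; linear_combination (-4 / 3) * h.rel) (by positivity)
  have n6 := L_far (α := 2 * R + 1) (β := (R + 2 * D) / √3) (w := (1 - R) ^ 2) (by linarith)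
    (by positivity) (by linarith)
    (by rw [div_pow, s3']; linear_combination (-4 / 3) * h.rel) (by positivity)
  have m0 := Mc_pos
  have s0 : 0 ≤ S := le_trans (by norm_num) S_ge
  have nm : S * L (φ 1 0 1) ≤ 0.00001 * Mc :=
    (mul_le_mul_of_nonneg_left L_mass s0).trans (mul_le_of_le_one_left (by positivity) S_le_one)
  have c5 : 3.1 * D ^ 2 * ((3 - D - 2 * R) / √3) ≤ 4 * D := by
    nlinarith [mul_le_mul_of_nonneg_left b5 (sq_nonneg D), mul_le_mul_of_nonneg_left a2 d0]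
  have c6 : 3.1 * (1 - R) ^ 2 * ((R + 2 * D) / √3) ≤ 4.3 * D := by
    have : (1 - R) ^ 2 ≤ 1 := by nlinarith
    nlinarith [mul_le_mul this b6 (by positivity) zero_le_one]
  have c7 := mul_le_mul_of_nonneg_right c5 m0.le
  have c8 := mul_le_mul_of_nonneg_right c6 m0.le
  rw [← e5] at n5
  rw [← e6] at n6
  rcases le_total D 0.001 with hD | hD
  · have n1 := h.near3
    rw [← e1, ← e3] at n1
    nlinarith [mul_le_mul_of_nonneg_right k1 m0.le, mul_le_mul_of_nonneg_right hD m0.le]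
  · have n3 := h.far3 hD
    have n1 : Ψ R (1 - D) 1 = 0 := by
      rw [e1, L_circ (by linarith) h.w1, NN_hi, mul_zero]
      rw [le_div_iff₀ (by linarith), le_div_iff₀ sp]
      nlinarith [mul_le_mul (mul_le_mul u1_le (by linarith : 4 - R ≤ 4) (by linarith)
        (by norm_num)) s_hi sp.le (by norm_num)]
    rw [← e3] at n3
    nlinarith [mul_le_mul_of_nonneg_right k2 m0.le, mul_le_mul_of_nonneg_right a2 m0.le]

end Pool.Agent.Lib.MP_c4a252_co
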