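import Pool.Agent.Lib.MP_c4a252_co.Levels

/-! Case analysis: near-maximisers contain points close to the vertices of a unit triangle. -/

namespace Pool.Agent.Lib.MP_c4a252_co

lemma tri {p : ℂ} (hp : p ∈ H) (i : Fin 3) {D : Set ℂ} (hD : Convex ℝ D) {s : ℝ} (hs : 0 < s)
    (he : 2 * (1 - ip (p - o) (dd i)) ≤ s) (h0 : V i ∈ D)
    (h : ∀ j, j ≠ i → V i + s • tt j ∈ D) : p ∈ D := by
  obtain ⟨α, a0, a1, a2, a3⟩ := coords hp i
  have := simplex_mem hD (p := V i) (v := fun j => if j = i then 0 else tt j) hs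
    (fun j => by
      by_cases hj : j = i
      · simpa [hj] using h0
      · simpa [hj] using h j hj)
    (α := fun j => if j = i then s - ∑ j, α j else α j)
    (fun j => by split_ifs; exacts [by linarith, a0 j])
    (by fin_cases i <;> simp [Fin.sum_univ_three] at a1 ⊢ <;> linarith)
  rw [a2]; convert this using 2
  refine Finset.sum_congr rfl fun j _ => ?_
  split_ifs with hj
  · simp [hj, a1]
  · rfl

def lset (l : List P) : Set ℂ := {z | ∃ q ∈ l, z = pt q}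

lemma hull_N {x : ℝ} (x1 : 0.2 ≤ x) (x2 : x ≤ 0.267949) {p q : ℂ} (hp : p ∈ H) (hq : q ∈ H)
    (e1 : 1 - ip (p - o) (dd 1) ≤ 0.067949) (e2 : 1 - ip (q - o) (dd 2) ≤ 0.067949) :
    (V 0 + x • -tt 0, p, q) ∈ hull CN := by
  have m : ∀ a ∈ [sh 0 0 (-200000), sh 0 0 (-267949)],
      ∀ b ∈ [sh 1 0 0, sh 1 0 135898, sh 1 2 135898],
      ∀ c ∈ [sh 2 0 0, sh 2 0 135898, sh 2 1 135898], (a, b, c) ∈ CN.map Cert.a := by
    decide +kernel
  have k : ∀ {l : List P} {a : P} {z : ℂ}, a ∈ l → z = pt a → z ∈ convexHull ℝ (lset l) :=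
    fun ha hz => subset_convexHull _ _ ⟨_, ha, hz⟩
  refine convexHull_min (s := lset _ ×ˢ lset _ ×ˢ lset _) ?_ (convex_convexHull _ _)
    (mk_mem_convexHull_prod (s := lset [sh 0 0 (-200000), sh 0 0 (-267949)]) ?_
      (mk_mem_convexHull_prod (s := lset [sh 1 0 0, sh 1 0 135898, sh 1 2 135898])
        (t := lset [sh 2 0 0, sh 2 0 135898, sh 2 1 135898]) ?_ ?_))
  · rintro ⟨_, _, _⟩ ⟨⟨a, ha, rfl⟩, ⟨b, hb, rfl⟩, c, hc, rfl⟩
    exact mem_hull (m a ha b hb c hc)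
  · refine line_mem (convex_convexHull _ _) (k (a := sh 0 0 (-200000)) (by simp) ?_)
      (k (a := sh 0 0 (-267949)) (by simp) ?_) x1 x2 <;> simp [pt_sh, neg_div] <;> norm_num
  · refine tri hp 1 (convex_convexHull _ _) (s := 0.135898) (by norm_num) (by linarith)
      (k (a := sh 1 0 0) (by simp) (by simp [pt_sh])) fun j hj => ?_
    fin_cases j
    · exact k (a := sh 1 0 135898) (by simp) (by simp [pt_sh]; norm_num)
    · simp at hj
    · exact k (a := sh 1 2 135898) (by simp) (by simp [pt_sh]; norm_num)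
  · refine tri hq 2 (convex_convexHull _ _) (s := 0.135898) (by norm_num) (by linarith)
      (k (a := sh 2 0 0) (by simp) (by simp [pt_sh])) fun j hj => ?_
    fin_cases j
    · exact k (a := sh 2 0 135898) (by simp) (by simp [pt_sh]; norm_num)
    · exact k (a := sh 2 1 135898) (by simp) (by simp [pt_sh]; norm_num)
    · simp at hj

noncomputable def mv6 : Fin 6 → A3 := ![mv 0 1, mv 0 2, mv 1 0, mv 1 2, mv 2 0, mv 2 1]

def mq (s : ℤ) : Fin 6 → P × P × P :=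
  ![(sh 0 1 s, VQ 1, VQ 2), (sh 0 2 s, VQ 1, VQ 2), (VQ 0, sh 1 0 s, VQ 2), (VQ 0, sh 1 2 s, VQ 2),
    (VQ 0, VQ 1, sh 2 0 s), (VQ 0, VQ 1, sh 2 1 s)]

lemma mq_mem {cs : List Cert} {s : ℤ} (h : ∀ k, mq s k ∈ cs.map Cert.a) (hs : 0 < s)
    {α : Fin 6 → ℝ} (h0 : ∀ k, 0 ≤ α k) (h1 : 0 < ∑ k, α k) :
    W3 + ((s : ℝ) / 1000000 / ∑ k, α k) • ∑ k, α k • mv6 k ∈ hull cs := by
  have := simplex_mem (D := hull cs) (convex_convexHull _ _) (p := W3) (v := mv6)
    (s := (s : ℝ) / 1000000) (by positivity) (fun k => by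
      convert mem_hull (h k) using 1
      fin_cases k <;> simp [mq, mv6, mv, W3, pt3, pt_sh, pt_VQ])
    (α := fun k => ((s : ℝ) / 1000000 / ∑ k, α k) * α k) (fun k => by have := h0 k; positivity)
    (by rw [← Finset.mul_sum]; field_simp)
  simpa only [Finset.smul_sum, smul_smul] using this

lemma norm_dd (i : Fin 3) : ‖dd i‖ ≤ 1.732051 := by
  have h : ‖dd i‖ ^ 2 = 3 := by
    rw [← ip_self]; fin_cases i <;> simp [ip, dd, di, emb] <;> linarith [s3]
  nlinarith [norm_nonneg (dd i)]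

lemma coords3 {p : Fin 3 → ℂ} (hp : ∀ i, p i ∈ H) : ∃ α : Fin 6 → ℝ, (∀ k, 0 ≤ α k) ∧
    (p 0, p 1, p 2) = W3 + ∑ k, α k • mv6 k ∧
    ∑ k, α k = 2 * ∑ i, (1 - ip (p i - o) (dd i)) ∧ ∀ i, ‖p i - V i‖ ≤ ∑ k, α k := by
  choose α a0 a1 a2 a3 using fun i => coords (hp i) i
  have e : ∑ k, ![α 0 1, α 0 2, α 1 0, α 1 2, α 2 0, α 2 1] k = ∑ i, ∑ j, α i j := by
    simp [Fin.sum_univ_succ, a1]; ring
  refine ⟨![α 0 1, α 0 2, α 1 0, α 1 2, α 2 0, α 2 1], fun k => by fin_cases k <;> simp [a0],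
    ?_, by rw [e, Finset.mul_sum]; exact Finset.sum_congr rfl fun i _ => a3 i, fun i => ?_⟩
  · rw [a2 0, a2 1, a2 2]
    simp [Fin.sum_univ_succ, a1, W3, mv6, mv]
  · rw [e]
    refine le_trans ?_ (Finset.single_le_sum (f := fun i => ∑ j, α i j)
      (fun i _ => Finset.sum_nonneg fun j _ => a0 i j) (Finset.mem_univ i))
    conv_lhs => rw [a2 i, add_sub_cancel_left]
    refine (norm_sum_le _ _).trans (Finset.sum_le_sum fun j _ => ?_)
    rw [tt, norm_smul, norm_smul, Real.norm_of_nonneg (a0 i j), Real.norm_of_nonneg (by norm_num)]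
    nlinarith [norm_dd j, a0 i j]

def Concl (E : Set ℂ) : Prop := ∀ μ ε, Prob E μ → S - ε ≤ B μ μ → ε < 1 / 10000 →
  ∃ g : ℂ → ℂ, (∀ x y, ‖g x - g y‖ = ‖x - y‖) ∧ ∀ i, ∃ p ∈ E, ‖g p - V i‖ ≤ 700 * ε

lemma Concl.of_level {L : Lev} {cs : List Cert} (hL : L.ok = true) (hc : cs.all L.good = true)
    {E : Set ℂ} {a : A3} (h : Valid E a L.r) (ha : a ∈ hull cs) : Concl E := by
  intro μ ε hμ h1 h2
  have := level hL hc h zero_le_one le_rfl (Or.inl rfl) ha (by simp) hμ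
  linarith [S_ge]

/-- data: depths of `E` below the six vertices of the hexagon -/
structure Dat (E : Set ℂ) (e f : Fin 3 → ℝ) : Prop where
  hex : E ⊆ H
  diam : Diam1 E
  he : ∀ i, ∀ x ∈ E, ip (x - o) (dd i) ≤ 1 - e i
  hp : ∀ i, ∃ p ∈ E, ip (p - o) (dd i) = 1 - e i
  hf : ∀ i, ∀ x ∈ E, -ip (x - o) (dd i) ≤ 1 - f i
  hq : ∀ i, ∃ p ∈ E, -ip (p - o) (dd i) = 1 - f i

lemma Dat.valid {E : Set ℂ} {e f : Fin 3 → ℝ} (h : Dat E e f) {a : A3} {r : Fin 3 → Bool}
    (ha : ∀ i, (sel a i ∈ E ∧ ip (sel a i - o) (dd i) = 1 - e i) ∨ (r i = false ∧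
      ∃ c, sel a i = V i + c • -tt i ∧ c ≤ e i ∧ 0.267949 ≤ c + f i)) : Valid E a r := by
  have e0 : ∀ i c, ip (V i + c • -tt i - o) (dd i) = 1 - c := fun i c => by
    have : √3 * √3 * c = 3 * c := by rw [s3]
    fin_cases i <;> simp [ip, V, Vi, emb, tt, dd, di, o] <;> linarith [s3]
  have e1 : ∀ x y n, ip (x - y) n = ip (x - o) n - ip (y - o) n := fun x y n => by simp [ip]; ring
  refine ⟨h.hex, fun i x hx => ?_, fun i x hx => ?_, fun i hi x hx => ?_⟩
  · have := h.he i x hx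
    rcases ha i with ⟨-, h1⟩ | ⟨-, c, h1, h2, h3⟩
    · rw [e1]; linarith
    · rw [e1, h1, e0]; linarith
  · rcases ha i with ⟨h0, -⟩ | ⟨-, c, h1, h2, h3⟩
    · have h1 := ip_le (sel a i - x) (dd i)
      have := mul_le_mul (h.diam _ h0 x hx) (norm_dd i) (norm_nonneg _) zero_le_one
      rw [e1] at h1 ⊢; linarith
    · have := h.hf i x hx
      rw [e1, h1, e0]; linarith
  · rcases ha i with ⟨h0, -⟩ | ⟨h0, -⟩
    · exact h.diam x hx _ h0
    · simp [hi] at h0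

lemma Dat.virt {E : Set ℂ} {e f : Fin 3 → ℝ} (h : Dat E e f) {cs : List Cert}
    (hc : cs.all LG.good = true) {x y z : ℝ} (ha : Φ x y z ∈ hull cs)
    (h0 : x ≤ e 0 ∧ 0.267949 ≤ x + f 0) (h1 : y ≤ e 1 ∧ 0.267949 ≤ y + f 1)
    (h2 : z ≤ e 2 ∧ 0.267949 ≤ z + f 2) : Concl E := by
  refine Concl.of_level LG_ok hc (h.valid fun i => Or.inr ?_) ha
  fin_cases i
  · exact ⟨rfl, x, by simp [sel, Φ, W3, mv], h0⟩
  · exact ⟨rfl, y, by simp [sel, Φ, W3, mv], h1⟩
  · exact ⟨rfl, z, by simp [sel, Φ, W3, mv], h2⟩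

lemma Dat.pos {E : Set ℂ} {e f : Fin 3 → ℝ} (h : Dat E e f) (i : Fin 3) :
    0 ≤ e i ∧ 0 ≤ f i ∧ 0.267949 ≤ e i + f i := by
  obtain ⟨p, hp, h1⟩ := h.hp i
  obtain ⟨q, hq, h2⟩ := h.hq i
  obtain ⟨α, a0, -, -, a3⟩ := coords (h.hex hp) i
  have := Finset.sum_nonneg fun j (_ : j ∈ Finset.univ) => a0 j
  have h3 := ip_le (p - q) (dd i)
  have := mul_le_mul (h.diam p hp q hq) (norm_dd i) (norm_nonneg _) zero_le_one
  have : ip (p - q) (dd i) = ip (p - o) (dd i) - ip (q - o) (dd i) := by simp [ip]; ring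
  refine ⟨by linarith, ?_, by linarith⟩
  have k := h.hex hq
  have k1 := k (i + 1) i; have k2 := k (i + 2) i
  fin_cases i <;> simp [ip, V, Vi, emb, dd, di, o] at h2 k1 k2 ⊢ <;> linarith [s3]

lemma Dat.caseML {E : Set ℂ} {e f : Fin 3 → ℝ} (h : Dat E e f) (hs : e 0 + e 1 + e 2 ≤ 0.125) :
    Concl E := by
  choose p hp he using h.hp
  obtain ⟨α, a0, a1, a2, a3⟩ := coords3 fun i => h.hex (hp i)
  have hv : ∀ r, Valid E (p 0, p 1, p 2) r := fun r => h.valid fun i =>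
    Or.inl (by fin_cases i <;> simp [sel, hp, he])
  simp only [he, Fin.sum_univ_three] at a2
  set s := ∑ k, α k with hs
  rcases le_total s 0.07 with h1 | h1
  · intro μ ε hμ h2 h3
    refine ⟨id, fun _ _ => rfl, fun i => ⟨p i, hp i, (a3 i).trans ?_⟩⟩
    have h4 := hμ.le_S h.diam
    rcases le_or_gt s 0 with h0 | h0
    · linarith
    have := level LL_ok CL_good (hv _) (t := s / 0.07) (by positivity)
      (by rw [div_le_one (by norm_num)]; exact h1) (Or.inr LL_tok)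
      (mq_mem (s := 70000) (by decide +kernel) (by norm_num) a0 h0)
      (by
        rw [a1, pt3_V3, smul_add, ← add_assoc, ← add_smul, smul_smul, ← hs]
        have : s / 0.07 * (((70000 : ℤ) : ℝ) / 1000000 / s) = 1 := by field_simp; norm_num
        rw [this]; simp) hμ
    have := mul_le_mul_of_nonneg_left S_ge h0.le
    norm_num at *
    linarith
  · have h0 : 0 < s := by linarith
    refine Concl.of_level LM_ok CM_good (hv _) ?_
    have := line_mem (convex_convexHull _ _)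
      (mq_mem (cs := CM) (s := 70000) (by decide +kernel) (by norm_num) a0 h0)
      (mq_mem (cs := CM) (s := 250000) (by decide +kernel) (by norm_num) a0 h0) (x := 1)
      (by rw [← hs, div_le_one h0]; push_cast; linarith)
      (by rw [← hs, one_le_div h0]; push_cast; linarith)
    rwa [one_smul, ← a1] at this

lemma Dat.caseN {E : Set ℂ} {e f : Fin 3 → ℝ} (h : Dat E e f) (h0 : f 0 ≤ 0.067949)
    (h1 : e 1 ≤ 0.067949) (h2 : e 2 ≤ 0.067949) : Concl E := by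
  choose p hp he using h.hp
  have := h.pos 0
  refine Concl.of_level LN_ok CN_good (a := (V 0 + min (e 0) 0.267949 • -tt 0, p 1, p 2))
    (h.valid fun i => ?_) (hull_N (le_min (by linarith) (by norm_num)) (min_le_right _ _)
      (h.hex (hp 1)) (h.hex (hp 2)) (by rw [he]; linarith) (by rw [he]; linarith))
  fin_cases i
  · refine Or.inr ⟨rfl, _, rfl, min_le_left _ _, ?_⟩
    show _ ≤ min (e 0) _ + f 0
    rcases le_total (e 0) 0.267949 with h3 | h3
    · rw [min_eq_left h3]; exact this.2.2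
    · rw [min_eq_right h3]; linarith
  · exact Or.inl (by simp [sel, hp, he])
  · exact Or.inl (by simp [sel, hp, he])

lemma min_ok {e f c : ℝ} (h : 0.267949 ≤ e + f) (h' : 0.267949 ≤ c + f) :
    min e c ≤ e ∧ 0.267949 ≤ min e c + f := by
  refine ⟨min_le_left _ _, ?_⟩
  rcases le_total e c with h3 | h3
  · rwa [min_eq_left h3]
  · rwa [min_eq_right h3]

lemma Dat.caseX {E : Set ℂ} {e f : Fin 3 → ℝ} (h : Dat E e f) (h0 : f 0 ≤ 0.067949)
    (h1 : 0.067949 ≤ e 1) (h1' : 0.067949 ≤ f 1) (h2 : e 2 ≤ 0.067949) : Concl E := by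
  have p0 := h.pos 0; have p1 := h.pos 1; have p2 := h.pos 2
  exact h.virt CX_good (hull_X (x := min (e 0) 0.267949) (y := min (e 1) 0.2)
    (le_min (by linarith) (by norm_num)) (min_le_right _ _) (le_min h1 (by norm_num))
    (min_le_right _ _) p2.1 h2) (min_ok p0.2.2 (by linarith)) (min_ok p1.2.2 (by linarith))
    ⟨le_rfl, p2.2.2⟩

lemma Dat.caseR {E : Set ℂ} {e f : Fin 3 → ℝ} (h : Dat E e f) (h0 : 0.067949 ≤ f 0)
    (h1 : 0.067949 ≤ f 1) (h2 : 0.067949 ≤ f 2) (m1 : e 1 ≤ e 0) (m2 : e 2 ≤ e 0) : Concl E := by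
  have p0 := h.pos 0; have p1 := h.pos 1; have p2 := h.pos 2
  rcases le_total (e 0 + e 1 + e 2) 0.125 with hs | hs
  · exact h.caseML hs
  refine h.virt CR_good (hull_R (x := min (e 0) 0.2) (y := min (e 1) 0.2) (z := min (e 2) 0.2)
    (min_le_right _ _) (le_min p1.1 (by norm_num)) (min_le_min_right _ m1)
    (le_min p2.1 (by norm_num)) (min_le_min_right _ m2) ?_) (min_ok p0.2.2 (by linarith))
    (min_ok p1.2.2 (by linarith)) (min_ok p2.2.2 (by linarith))
  rcases le_total (e 0) 0.2 with h3 | h3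
  · rwa [min_eq_left h3, min_eq_left (m1.trans h3), min_eq_left (m2.trans h3)]
  · have : 0 ≤ min (e 1) 0.2 := le_min p1.1 (by norm_num)
    have : 0 ≤ min (e 2) 0.2 := le_min p2.1 (by norm_num)
    rw [min_eq_right h3]; linarith

noncomputable def rot (z : ℂ) : ℂ := ω * z + (o - ω * o)

lemma rot_iso (x y : ℂ) : ‖rot x - rot y‖ = ‖x - y‖ := by
  rw [rot, rot, add_sub_add_right_eq_sub, ← mul_sub, norm_mul, norm_ω, one_mul]

lemma rot_ip (x : ℂ) (i : Fin 3) : ip (rot x - o) (dd i) = -ip (x - o) (dd (i + 1)) := by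
  have h1 : √3 * √3 * x.re = 3 * x.re := by rw [s3]
  fin_cases i <;> simp [ip, rot, emb, dd, di, o] <;> linarith [s3]

lemma rot_H {x : ℂ} (hx : x ∈ H) : rot x ∈ H := by
  intro i j
  have h1 : √3 * √3 * x.re = 3 * x.re := by rw [s3]
  have a1 := hx 0 1; have a2 := hx 0 2; have a3 := hx 1 0; have a4 := hx 1 2
  have a5 := hx 2 0; have a6 := hx 2 1
  simp [ip, V, Vi, emb] at a1 a2 a3 a4 a5 a6
  fin_cases i <;> fin_cases j <;> simp [ip, rot, V, Vi, emb, o] <;> linarith [s3]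

lemma B_map {g : ℂ → ℂ} (hg : ∀ x y, ‖g x - g y‖ = ‖x - y‖) (μ : M) :
    B (μ.mapDomain g) (μ.mapDomain g) = B μ μ := by
  simp only [B, U, ev_map, hg]; rfl

lemma Concl.of_image {E : Set ℂ} {g : ℂ → ℂ} (hg : ∀ x y, ‖g x - g y‖ = ‖x - y‖)
    (h : Concl (g '' E)) : Concl E := by
  intro μ ε hμ h1 h2
  obtain ⟨k, hk, h3⟩ := h _ ε (hμ.map fun x hx => Set.mem_image_of_mem g hx)
    (by rwa [B_map hg]) h2
  refine ⟨k ∘ g, fun x y => by simp [hk, hg], fun i => ?_⟩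
  obtain ⟨_, ⟨p, hp, rfl⟩, h4⟩ := h3 i
  exact ⟨p, hp, h4⟩

def Q6 (a b c d e f : ℝ) : Prop := ∀ E, Dat E ![a, b, c] ![d, e, f] → Concl E

lemma Q6.shift {a b c d e f : ℝ} (h : Q6 e f d b c a) : Q6 a b c d e f := by
  intro E hE
  have e1 : ∀ i : Fin 3, ![e, f, d] i = ![d, e, f] (i + 1) := fun i => by fin_cases i <;> rfl
  have e2 : ∀ i : Fin 3, ![b, c, a] i = ![a, b, c] (i + 1) := fun i => by fin_cases i <;> rfl
  refine Concl.of_image rot_iso (h _ ⟨?_, ?_, fun i => ?_, fun i => ?_, fun i => ?_, fun i => ?_⟩)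
  · rintro _ ⟨x, hx, rfl⟩; exact rot_H (hE.hex hx)
  · rintro _ ⟨x, hx, rfl⟩ _ ⟨y, hy, rfl⟩; rw [rot_iso]; exact hE.diam x hx y hy
  · rintro _ ⟨x, hx, rfl⟩; rw [rot_ip, e1]; exact hE.hf _ x hx
  · obtain ⟨p, hp, h1⟩ := hE.hq (i + 1); exact ⟨_, ⟨p, hp, rfl⟩, by rw [rot_ip, e1, h1]⟩
  · rintro _ ⟨x, hx, rfl⟩; rw [rot_ip, e2, neg_neg]; exact hE.he _ x hx
  · obtain ⟨p, hp, h1⟩ := hE.hp (i + 1); exact ⟨_, ⟨p, hp, rfl⟩, by rw [rot_ip, e2, neg_neg, h1]⟩

lemma Q6.noH {a b c d e f : ℝ} (h0 : 0.067949 ≤ d) (h1 : 0.067949 ≤ e) (h2 : 0.067949 ≤ f) :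
    Q6 a b c d e f := by
  have R : ∀ {a b c d e f : ℝ}, 0.067949 ≤ d → 0.067949 ≤ e → 0.067949 ≤ f → b ≤ a → c ≤ a →
      Q6 a b c d e f := fun h0 h1 h2 m1 m2 E hE => hE.caseR h0 h1 h2 m1 m2
  rcases le_total b a with h3 | h3 <;> rcases le_total c a with h4 | h4 <;>
    rcases le_total b c with h5 | h5
  all_goals first
    | exact R h0 h1 h2 (by linarith) (by linarith)
    | exact (R h2 h0 h1 (by linarith) (by linarith)).shift.shift
    | exact (R h1 h2 h0 (by linarith) (by linarith)).shift.shift.shift.shift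

lemma Q6.all (a b c d e f : ℝ) : Q6 a b c d e f := by
  have N : ∀ {a b c d e f : ℝ}, d ≤ 0.067949 → b ≤ 0.067949 → c ≤ 0.067949 → Q6 a b c d e f :=
    fun h0 h1 h2 E hE => hE.caseN h0 h1 h2
  have X : ∀ {a b c d e f : ℝ}, d ≤ 0.067949 → 0.067949 ≤ b → 0.067949 ≤ e → c ≤ 0.067949 →
    Q6 a b c d e f := fun h0 h1 h2 h3 E hE => hE.caseX h0 h1 h2 h3
  intro E hE
  have p0 : 0.267949 ≤ a + d := (hE.pos 0).2.2
  have p1 : 0.267949 ≤ b + e := (hE.pos 1).2.2
  have p2 : 0.267949 ≤ c + f := (hE.pos 2).2.2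
  refine (?_ : Q6 a b c d e f) E hE
  rcases le_total a 0.067949 with ha | ha <;> rcases le_total b 0.067949 with hb | hb <;>
    rcases le_total c 0.067949 with hc | hc <;> rcases le_total d 0.067949 with hd | hd <;>
    rcases le_total e 0.067949 with he | he <;> rcases le_total f 0.067949 with hf | hf
  all_goals first
    | exact Q6.noH hd he hf
    | exact (Q6.noH ha hb hc).shift.shift.shift
    | exact N hd hb hc
    | exact (N hb hf hd).shift
    | exact (N hf ha hb).shift.shift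
    | exact (N ha he hf).shift.shift.shift
    | exact (N he hc ha).shift.shift.shift.shift
    | exact (N hc hd he).shift.shift.shift.shift.shift
    | exact X hd hb he hc
    | exact (X hb hf hc hd).shift
    | exact (X hf ha hd hb).shift.shift
    | exact (X ha he hb hf).shift.shift.shift
    | exact (X he hc hf ha).shift.shift.shift.shift
    | exact (X hc hd ha he).shift.shift.shift.shift.shift
    | (exfalso; linarith)

theorem near {E : Set ℂ} (hc : IsCompact E) (hne : E.Nonempty) (hE : Diam1 E) : Concl E := by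
  obtain ⟨u, c, hu, hH⟩ := pal hc hne hE
  have iso : ∀ x y, ‖(u * x + c) - (u * y + c)‖ = ‖x - y‖ := fun x y => by
    rw [add_sub_add_right_eq_sub, ← mul_sub, norm_mul, hu, one_mul]
  refine Concl.of_image (g := fun x => u * x + c) iso ?_
  have hc' := hc.image (f := fun x => u * x + c) (by fun_prop)
  have hne' := hne.image fun x => u * x + c
  have k1 := fun i => hc'.exists_isMaxOn hne' (f := fun x => ip (x - o) (dd i))
    (by unfold ip; fun_prop)
  have k2 := fun i => hc'.exists_isMaxOn hne' (f := fun x => -ip (x - o) (dd i))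
    (by unfold ip; fun_prop)
  choose p hp h1 using k1
  choose q hq h2 using k2
  let e := fun i => 1 - ip (p i - o) (dd i)
  let f := fun i => 1 + ip (q i - o) (dd i)
  have e1 : ![e 0, e 1, e 2] = e := by funext i; fin_cases i <;> rfl
  have e2 : ![f 0, f 1, f 2] = f := by funext i; fin_cases i <;> rfl
  refine Q6.all (e 0) (e 1) (e 2) (f 0) (f 1) (f 2) _ ?_
  rw [e1, e2]
  refine ⟨?_, ?_, fun i x hx => ?_, fun i => ⟨_, hp i, by simp [e]⟩, fun i x hx => ?_,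
    fun i => ⟨_, hq i, by simp [f]⟩⟩
  · rintro _ ⟨x, hx, rfl⟩; exact hH x hx
  · rintro _ ⟨x, hx, rfl⟩ _ ⟨y, hy, rfl⟩; rw [iso]; exact hE x hx y hy
  · simpa [e] using h1 i hx
  · simpa [f] using h2 i hx

end Pool.Agent.Lib.MP_c4a252_co
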