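import Pool.Agent.Lib.MP_c4a252_co.Fpos
import Pool.Agent.Lib.MP_c4a252_co.Near

/-! No connected set has rendezvous value close to the maximal energy. -/

namespace Pool.Agent.Lib.MP_c4a252_co

open Set

lemma cpt {X : Type} [TopologicalSpace X] {A : Set X} (hA : IsCompact A) {p q : X → ℝ}
    (hp : Continuous p) (hq : Continuous q) (h : ∀ z ∈ A, p z ≤ 0 → 0 < q z) :
    ∃ δ, 0 < δ ∧ ∀ z ∈ A, p z < δ → δ ≤ q z := by
  obtain ⟨δ, h0, h1⟩ := hA.exists_forall_le' (f := fun z => max (p z) (q z))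
    (hp.max hq).continuousOn (a := 0) fun z hz => by
      rcases le_or_gt (p z) 0 with h2 | h2
      · exact lt_max_of_lt_right (h z hz h2)
      · exact lt_max_of_lt_left h2
  exact ⟨δ, h0, fun z hz h2 => (le_max_iff.1 (h1 z hz)).resolve_left h2.not_ge⟩

lemma o_T : o ∈ T := by
  refine mem_T.2 ⟨?_, ?_, ?_⟩ <;> apply norm_le_one <;> simp [ip, o] <;> nlinarith [s3]

lemma T_o {x : ℂ} (hx : x ∈ T) : ‖x - o‖ ≤ 0.58 := by
  have h := T_H hx
  have h1 := h 0 1; have h2 := h 1 0; have h3 := h 0 2; have h4 := h 2 0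
  have h5 := h 1 2; have h6 := h 2 1
  simp only [V0, V1, V2, ip, Complex.sub_re, Complex.sub_im, Complex.one_re, Complex.one_im,
    Complex.zero_re, Complex.zero_im, ω_re, ω_im] at h1 h2 h3 h4 h5 h6
  refine (pow_le_pow_iff_left₀ (norm_nonneg _) (by norm_num) two_ne_zero).1 ?_
  obtain ⟨p, hp⟩ : ∃ p, x.re = p + 1 / 2 := ⟨x.re - 1 / 2, by ring⟩
  obtain ⟨q, hq⟩ : ∃ q, √3 * x.im = 2 * q + 1 / 2 := ⟨(√3 * x.im - 1 / 2) / 2, by ring⟩
  have e : ‖x - o‖ ^ 2 = p ^ 2 + 4 / 3 * q ^ 2 := by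
    simp only [nsq_eq, Complex.sub_re, Complex.sub_im, o, hp]
    linear_combination (1 / 3 * (√3 * x.im + 2 * q - 1 / 2)) * hq -
      (1 / 3 * x.im ^ 2 - 1 / 36) * s3
  have a1 : p ≤ 1 / 2 := by linarith
  have a2 : -1 / 2 ≤ p := by linarith
  have a3 : q + p / 2 ≤ 1 / 2 := by linarith [s3]
  have a4 : -1 / 2 ≤ q + p / 2 := by linarith [s3]
  have a5 : q - p / 2 ≤ 1 / 2 := by linarith [s3]
  have a6 : -1 / 2 ≤ q - p / 2 := by linarith [s3]
  rw [e]
  rcases le_total 0 p with b | b <;> rcases le_total 0 q with c | c <;> nlinarith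

lemma U_upper {μ : M} (h : Prob T μ) {t : ℝ} (t0 : 0 < t) (t1 : t ≤ 1 / 2)
    (hB : S - t ^ 2 ≤ B μ μ) {x : ℂ} (hx : x ∈ T) : U μ x ≤ S + 2 * t := by
  have h1 := (h.mix (Prob.single hx) (a := 1 - t) (b := t) (by linarith) t0.le (by ring)).le_S
    diam_T
  rw [B_add, B_add', B_add', B_smul, B_smul, B_smul, B_smul, B_smul', B_smul', B_smul', B_smul',
    B_comm μ (Finsupp.single x 1), B_single, B_single] at h1
  have h2 : U (Finsupp.single x 1) x = 0 := by simp [U]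
  rw [h2] at h1
  have h3 := mul_le_mul_of_nonneg_left hB (sq_nonneg (1 - t))
  have s1 := S_le_one
  have s0 : 0 ≤ S := le_trans (by norm_num) S_ge
  have : t * (2 * (1 - t) * U μ x) ≤ t * (S * (2 - t) + t * (1 - t) ^ 2) := by linarith
  have h4 := le_of_mul_le_mul_left this t0
  by_contra hc
  have h5 := mul_lt_mul_of_pos_left (not_le.1 hc) (by linarith : 0 < 2 * (1 - t))
  nlinarith [mul_le_mul_of_nonneg_left s1 t0.le, mul_pos t0 t0,
    mul_nonneg (mul_pos t0 t0).le (by linarith : 0 ≤ 1 - t)]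

structure Sym (g : ℂ → ℂ) : Prop where
  iso : ∀ x y, ‖g x - g y‖ = ‖x - y‖
  mem : ∀ z ∈ T, g z ∈ T
  fix : g o = o

lemma Sym.refl : Sym fun z => z := ⟨fun _ _ => rfl, fun _ h => h, rfl⟩
lemma Sym.rho {g : ℂ → ℂ} (h : Sym g) : Sym fun z => ρ (g z) :=
  ⟨fun x y => by rw [ρ_iso, h.iso], fun z hz => ρ_T (h.mem z hz), by simp only [h.fix, ρo]⟩
lemma Sym.kap : Sym fun z => κ z := ⟨κ_iso, fun _ => κ_T, κo⟩

lemma U_map {g : ℂ → ℂ} (hg : ∀ x y, ‖g x - g y‖ = ‖x - y‖) (μ : M) (z : ℂ) :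
    U (μ.mapDomain g) (g z) = U μ z := by simp only [U, ev_map, hg]

lemma U_sym {μ : M} (h : Prob T μ) {t : ℝ} (t0 : 0 < t) (hB : S - t ^ 2 ≤ B μ μ) {g : ℂ → ℂ}
    (hg : Sym g) {x : ℂ} (hx : x ∈ T) : |U μ x - U (μ.mapDomain g) x| ≤ 3 * t := by
  have h' := h.map hg.mem
  have h1 := (h.mix h' (a := 1 / 2) (b := 1 / 2) (by norm_num) (by norm_num) (by ring)).le_S diam_T
  have e := B_map hg.iso μ
  have eo := U_map hg.iso μ o
  rw [hg.fix] at eo
  generalize μ.mapDomain g = ν at *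
  rw [B_add, B_add', B_add', B_smul, B_smul, B_smul, B_smul, B_smul', B_smul', B_smul', B_smul',
    B_comm ν μ, e] at h1
  have c := cs (μ - ν) (Finsupp.single x 1 - Finsupp.single o 1)
    (by rw [mass_sub, h.one, h'.one, sub_self]) (by simp [mass])
  have e1 : B (μ - ν) (Finsupp.single x 1 - Finsupp.single o 1) = U μ x - U ν x := by
    rw [B_comm, B_sub, B_sub', B_sub', B_single, B_single, B_single, B_single, eo]; ring
  have e2 : B (μ - ν) (μ - ν) = 2 * B μ μ - 2 * B μ ν := by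
    rw [B_sub, B_sub', B_sub', B_comm ν μ, e]; ring
  have e3 : -2 ≤ B (Finsupp.single x 1 - Finsupp.single o 1)
      (Finsupp.single x 1 - Finsupp.single o 1) := by
    rw [B_sub, B_sub', B_sub', B_single, B_single, B_single, B_single]
    have := diam_T x hx o o_T
    have := diam_T o o_T x hx
    simp [U]; linarith
  rw [e1, e2] at c
  have c1 := c t
  have c2 := c (-t)
  have e4 := mul_le_mul_of_nonneg_left e3 (sq_nonneg t)
  rw [abs_le]
  constructor <;> refine le_of_mul_le_mul_left ?_ t0 <;> nlinarith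

lemma mx_ge {μ : M} (h : Prob T μ) {t : ℝ} (t0 : 0 < t) (t1 : t ≤ 1 / 100)
    (hB : S - t ^ 2 ≤ B μ μ) {y : ℂ} (hy : y ∈ T) (hU : S - t ^ 2 ≤ U μ y) :
    1 - 50 * t ≤ mx y := by
  by_contra hc
  simp only [mx, not_le, max_lt_iff] at hc
  have n : ‖(50 * t) • (y - o)‖ ≤ 50 * t := by
    rw [norm_smul, Real.norm_of_nonneg (by positivity)]
    exact mul_le_of_le_one_right (by positivity) (diam_T y hy o o_T)
  have a : ∀ v, ‖y - v‖ < 1 - 50 * t → ‖y + (50 * t) • (y - o) - v‖ ≤ 1 := fun v hv => by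
    rw [add_sub_right_comm]; linarith [norm_add_le (y - v) ((50 * t) • (y - o))]
  have hw : y + (50 * t) • (y - o) ∈ T := mem_T.2 ⟨a _ hc.1, a _ hc.2.1, by
    simpa using a 0 (by simpa using hc.2.2)⟩
  have p : 0 < 1 + 50 * t := by positivity
  have h1 := h.U_convex (y + (50 * t) • (y - o)) o (a := 1 / (1 + 50 * t))
    (b := 50 * t / (1 + 50 * t)) (by positivity) (by positivity) (by field_simp)
  have e : (1 / (1 + 50 * t)) • (y + (50 * t) • (y - o)) + (50 * t / (1 + 50 * t)) • o = y := by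
    match_scalars <;> field_simp; ring
  rw [e] at h1
  have h2 := U_upper h t0 (by linarith) hB hw
  have h3 : U μ o ≤ 0.58 := h.le fun x hx => T_o hx
  have h4 : (1 + 50 * t) * U μ y ≤ S + 2 * t + 50 * t * 0.58 := by
    refine (mul_le_mul_of_nonneg_left (h1.trans (add_le_add
      (mul_le_mul_of_nonneg_left h2 (by positivity))
      (mul_le_mul_of_nonneg_left h3 (by positivity)))) p.le).trans_eq ?_
    field_simp
  have h5 := mul_le_mul_of_nonneg_left hU p.le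
  have h6 := mul_le_mul_of_nonneg_left S_ge t0.le
  nlinarith [mul_le_mul_of_nonneg_left t1 t0.le, mul_le_mul_of_nonneg_left t1 (mul_pos t0 t0).le]

lemma arc_eq {x z : ℂ} (hx : x ∈ T) (hz : z ∈ T) (h1 : 1 ≤ ‖x‖) (h2 : 1 ≤ ‖z‖)
    (h : ‖z - 1‖ = ‖x - 1‖) : z = x := by
  have key : ∀ w ∈ T, 1 ≤ ‖w‖ → w.re ^ 2 + w.im ^ 2 = 1 ∧ ‖w - 1‖ ^ 2 = 2 - 2 * w.re ∧
      0 ≤ w.im := fun w hw h1 => by
    rw [mem_T] at hw
    have e := nsq_eq w
    rw [le_antisymm hw.2.2 h1] at e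
    have e1 : ‖w - 1‖ ^ 2 = 2 - 2 * w.re := by
      simp only [nsq_eq, Complex.sub_re, Complex.sub_im, Complex.one_re, Complex.one_im]
      linarith
    have e2 : ‖w - ω‖ ^ 2 = 2 - w.re - √3 * w.im := by
      simp only [nsq_eq, Complex.sub_re, Complex.sub_im, ω_re, ω_im]
      linear_combination -e + (1 / 4) * s3
    refine ⟨by linarith, e1, ?_⟩
    have : 0 ≤ √3 * w.im := by nlinarith [norm_nonneg (w - ω), sq_nonneg ‖w - 1‖]
    exact nonneg_of_mul_nonneg_right this (by positivity)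
  obtain ⟨a1, a2, a3⟩ := key x hx h1
  obtain ⟨b1, b2, b3⟩ := key z hz h2
  rw [h] at b2
  have e : z.re = x.re := by linarith
  rw [e] at b1
  exact Complex.ext e ((pow_left_inj₀ b3 a3 two_ne_zero).1 (by linarith))

lemma compact_K : IsCompact K :=
  compact_T.inter_right ((isClosed_le continuous_const continuous_norm).inter
    (isClosed_le (continuous_id.sub continuous_const).norm continuous_const))

lemma mx_cont : Continuous mx := by unfold mx; fun_prop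

lemma arc_near {η : ℝ} (h0 : 0 < η) : ∃ δ, 0 < δ ∧ ∀ x ∈ K, ∀ z ∈ T, 1 - mx z < δ →
    |‖z - 1‖ - ‖x - 1‖| < δ → ‖z - x‖ ≤ η ∨ ‖ρ (ρ (κ z)) - x‖ ≤ η := by
  have h1 : Continuous ρ := by unfold ρ; fun_prop
  have h2 : Continuous κ := by unfold κ; fun_prop
  have h3 := mx_cont
  obtain ⟨δ, d0, hd⟩ := cpt (compact_K.prod compact_T)
    (p := fun w => max (1 - mx w.2) |‖w.2 - 1‖ - ‖w.1 - 1‖|)
    (q := fun w => η - min ‖w.2 - w.1‖ ‖ρ (ρ (κ w.2)) - w.1‖) (by fun_prop) (by fun_prop) (by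
      rintro ⟨x, z⟩ ⟨⟨hx, x1, x2⟩, hz⟩ h
      simp only [max_le_iff, abs_nonpos_iff, sub_nonpos, sub_eq_zero, mx, le_max_iff] at h
      dsimp only at *
      obtain ⟨h | h | h, e⟩ := h
      · exact absurd (h.trans (e.le.trans x2)) (by norm_num)
      · rw [arc_eq hx (ρ_T (ρ_T (κ_T hz))) x1 (by rwa [ρc, ρb, κa]) (by rwa [ρa, ρc, κb])]
        simpa using h0
      · rw [arc_eq hx hz x1 h e]
        simpa using h0)
  refine ⟨δ, d0, fun x hx z hz a b => ?_⟩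
  have := hd (x, z) ⟨hx, hz⟩ (max_lt a b)
  exact min_le_iff.1 (by linarith)

def Good (t : ℝ) : Prop := ∃ (E : Set ℂ) (μ : M), E ⊆ T ∧ IsPreconnected E ∧ Prob E μ ∧
  (∀ y ∈ E, S - t ^ 2 ≤ U μ y) ∧ (∃ p ∈ E, ‖p - 1‖ ≤ t) ∧ ∃ p ∈ E, ‖p - ω‖ ≤ t

theorem not_good : ∃ t, 0 < t ∧ ¬ Good t := by
  obtain ⟨e, e0, he⟩ := cpt compact_T (p := fun z => 1 - mx z) (q := F)
    (continuous_const.sub mx_cont) F_cont fun z hz h => F_pos hz (by linarith)
  obtain ⟨C, C0, hC⟩ := σ1_bd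
  obtain ⟨η, η0, hη⟩ : ∃ η, 0 < η ∧ 12 * C * η < e :=
    ⟨e / (24 * C), by positivity, by field_simp; norm_num⟩
  obtain ⟨δ, d0, hd⟩ := arc_near η0
  obtain ⟨t, t0, t1, t2, t3, t4⟩ : ∃ t, 0 < t ∧ t ≤ 1 / 100 ∧ 50 * t < e ∧ 50 * t < δ ∧
      7 * t ≤ η := by
    refine ⟨min (min (1 / 100) (e / 100)) (min (δ / 100) (η / 7)), by positivity, ?_⟩
    have a1 := min_le_left (min (1 / 100) (e / 100)) (min (δ / 100) (η / 7))
    have a2 := min_le_right (min (1 / 100) (e / 100)) (min (δ / 100) (η / 7))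
    rw [le_min_iff] at a1 a2
    exact ⟨a1.1, by linarith [a1.2], by linarith [a2.1], by linarith [a2.2]⟩
  refine ⟨t, t0, ?_⟩
  rintro ⟨E, μ, hE, hc, hμ, hU, ⟨p, hp, p1⟩, q, hq, q1⟩
  have hT := hμ.subset hE
  have hB : S - t ^ 2 ≤ B μ μ := hμ.ge hU
  have hm : ∀ y ∈ E, 1 - 50 * t ≤ mx y := fun y hy => mx_ge hT t0 t1 hB (hE hy) (hU y hy)
  have tt : t ^ 2 ≤ t := by nlinarith
  have q2 : 0.6 ≤ ‖q - 1‖ := by
    have h1 := normV (i := 0) (j := 1) (by decide)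
    rw [V0, V1] at h1
    have h2 := norm_sub_le_norm_sub_add_norm_sub 1 q ω
    rw [norm_sub_rev 1 q] at h2; linarith
  have lowK : ∀ x ∈ K, S - (4 * t + η) ≤ U μ x := fun x hx => by
    obtain ⟨z, hz, e⟩ := hc.intermediate_value hp hq (f := fun z => ‖z - 1‖) (by fun_prop)
      (show max ‖p - 1‖ ‖x - 1‖ ∈ Icc ‖p - 1‖ ‖q - 1‖ from
        ⟨le_max_left _ _, max_le (by linarith) (hx.2.2.trans q2)⟩)
    dsimp only at e
    have h1 : |‖z - 1‖ - ‖x - 1‖| < δ := by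
      have := norm_nonneg (x - 1)
      rw [e, abs_lt]; constructor
      · linarith [le_max_right ‖p - 1‖ ‖x - 1‖]
      · linarith [max_le (by linarith : ‖p - 1‖ ≤ ‖x - 1‖ + t) (by linarith : ‖x - 1‖ ≤ ‖x - 1‖ + t)]
    have h2 := hU z hz
    rcases hd x hx z (hE hz) (by linarith [hm z hz]) h1 with h | h
    · linarith [hT.U_lip z x]
    · have h3 := U_sym hT t0 hB Sym.kap.rho.rho (Sym.kap.rho.rho.mem z (hE hz))
      rw [U_map Sym.kap.rho.rho.iso μ z] at h3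
      linarith [hT.U_lip (ρ (ρ (κ z))) x, (abs_le.1 h3).1]
  have key : ∀ g, Sym g → ev (fun z => ff (g z)) μ ≤ C * (2 * η) := fun g hg => by
    have h1 := hC (fun x => U (μ.mapDomain g) x - S) (2 * η) (by positivity) fun x hx => by
      have a := abs_le.1 (U_sym hT t0 hB hg hx.1)
      have b := U_upper hT t0 (by linarith) hB hx.1
      have c := lowK x hx
      rw [abs_le]; constructor <;> linarith [a.1, a.2]
    rw [ev_sub, ev_const] at h1
    have h2 : ev (fun z => U σ1 (g z)) μ = ev (U (μ.mapDomain g)) σ1 := by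
      rw [← ev_map]; exact B_comm _ _
    simp only [ff]
    rw [ev_sub, ev_const, hμ.one, h2]
    linarith
  have h1 : e ≤ ev F μ := hμ.ge fun y hy => he y (hE hy) (by linarith [hm y hy])
  unfold F at h1
  rw [ev_add, ev_add, ev_add, ev_add, ev_add] at h1
  linarith [key _ Sym.refl, key _ Sym.refl.rho, key _ Sym.refl.rho.rho, key _ Sym.kap,
    key _ Sym.kap.rho, key _ Sym.kap.rho.rho]

theorem good_of {E : Set ℂ} {μ : M} {t : ℝ} (hc : IsCompact E) (hn : IsConnected E) (hE : Diam1 E)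
    (hμ : Prob E μ) (t0 : 0 < t) (t1 : t ≤ 1)
    (hU : ∀ y ∈ E, S - 4 * (t ^ 2 / 100000) ≤ U μ y) : Good t := by
  have tt : t ^ 2 ≤ t := by nlinarith
  have t2 : 0 < t ^ 2 := by positivity
  obtain ⟨g, hg, hp⟩ := near hc hn.nonempty hE μ (4 * (t ^ 2 / 100000)) hμ (hμ.ge hU) (by linarith)
  obtain ⟨d, hd⟩ : ∃ d, d = 700 * (4 * (t ^ 2 / 100000)) := ⟨_, rfl⟩
  rw [← hd] at hp
  have d0 : 0 < d := by linarith
  have p : 0 < 1 + 3 * d := by positivity
  let k : ℂ → ℂ := fun z => o + (1 / (1 + 3 * d)) • (g z - o)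
  have k1 : ∀ x y, ‖k x - k y‖ = 1 / (1 + 3 * d) * ‖x - y‖ := fun x y => by
    simp only [k]
    rw [add_sub_add_left_eq_sub, ← smul_sub, sub_sub_sub_cancel_right, norm_smul, hg,
      Real.norm_of_nonneg (by positivity)]
  have k2 : ∀ z i, (1 + 3 * d) * ‖k z - V i‖ ≤ ‖g z - V i‖ + 2 * d := fun z i => by
    have e : (1 + 3 * d) • (k z - V i) = g z - V i - (3 * d) • (V i - o) := by
      simp only [k]; match_scalars <;> field_simp <;> ring
    rw [← Real.norm_of_nonneg p.le, ← norm_smul, e]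
    refine (norm_sub_le _ _).trans ?_
    rw [norm_smul, Real.norm_of_nonneg (by positivity)]
    nlinarith [T_o (V_mem i)]
  have k3 : ∀ i, ∃ p ∈ k '' E, ‖p - V i‖ ≤ t := fun i => by
    obtain ⟨x, hx, h1⟩ := hp i
    refine ⟨k x, mem_image_of_mem k hx, ?_⟩
    nlinarith [k2 x i, mul_nonneg d0.le (norm_nonneg (k x - V i))]
  have gc : Continuous g := (Isometry.of_dist_eq fun x y => by
    rw [dist_eq_norm, dist_eq_norm, hg]).continuous
  refine ⟨k '' E, μ.mapDomain k, ?_, hn.isPreconnected.image k (by simp only [k]; fun_prop),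
    hμ.map fun x hx => mem_image_of_mem k hx, ?_, V0 ▸ k3 0, V1 ▸ k3 1⟩
  · rintro _ ⟨z, hz, rfl⟩ i
    obtain ⟨x, hx, h1⟩ := hp i
    have h2 := norm_sub_le_norm_sub_add_norm_sub (g z) (g x) (V i)
    rw [hg] at h2
    refine le_of_mul_le_mul_left ?_ p
    linarith [k2 z i, hE z hz x hx]
  · rintro _ ⟨y, hy, rfl⟩
    have e : U (μ.mapDomain k) (k y) = 1 / (1 + 3 * d) * U μ y := by
      simp only [U, ev_map, k1, ev_mul]
    rw [e, one_div, ← div_eq_inv_mul, le_div_iff₀ p]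
    nlinarith [hU y hy, mul_le_mul_of_nonneg_left S_le_one d0.le, mul_pos d0 t2]

theorem gap0 : ∃ c, 0 ≤ c ∧ c < S ∧ ∀ (E : Set ℂ) (μ : M) (a : ℝ), IsCompact E → IsConnected E →
    Diam1 E → Prob E μ → (∀ y ∈ E, a ≤ U μ y) → a ≤ c := by
  obtain ⟨t, t0, ht⟩ := not_good
  have hm : 0 < min t 1 := lt_min t0 one_pos
  have h1 := pow_le_one₀ (n := 2) hm.le (min_le_right t 1)
  refine ⟨S - 4 * (min t 1 ^ 2 / 100000), by linarith [S_ge], by linarith [pow_pos hm 2],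
    fun E μ a hc hn hE hμ h => le_of_not_ge fun ha => ht ?_⟩
  obtain ⟨E', μ, h1, h2, h3, h4, ⟨p, hp, h5⟩, q, hq, h6⟩ :=
    good_of hc hn hE hμ hm (min_le_right _ _) fun y hy => ha.trans (h y hy)
  have := min_le_left t 1
  exact ⟨E', μ, h1, h2, h3, fun y hy => by linarith [h4 y hy, pow_le_pow_left₀ hm.le this 2],
    ⟨p, hp, h5.trans this⟩, q, hq, h6.trans this⟩

theorem gap : ∃ c, c < S ∧ ∀ (E : Set ℂ) (a : ℝ), IsCompact E → IsConnected E → Diam1 E →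
    RV E a → a ≤ c := by
  obtain ⟨c, -, hc, h⟩ := gap0
  refine ⟨c, hc, fun E a h1 h2 h3 h4 => le_of_forall_pos_le_add fun ε hε => ?_⟩
  obtain ⟨μ, hμ, hU⟩ := h4.minimax h3 h1 h2.nonempty (ε := ε / 3) (by positivity)
  linarith [h E μ _ h1 h2 h3 hμ hU]

theorem gap' : ∃ c, c < S ∧ ∀ (E : Set (EuclideanSpace ℝ (Fin 2))) (a : ℝ), IsCompact E →
    IsConnected E → 0 < Metric.diam E →
    (∀ n : ℕ, 0 < n → ∀ x : Fin n → EuclideanSpace ℝ (Fin 2),
      (∀ i, x i ∈ E) → ∃ y ∈ E, (∑ i, dist (x i) y) / (n : ℝ) = a) → a / Metric.diam E ≤ c := by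
  obtain ⟨c, hc, h⟩ := gap
  refine ⟨c, hc, fun E a h1 h2 h3 h4 => ?_⟩
  let k : EuclideanSpace ℝ (Fin 2) → ℂ := fun z =>
    (Metric.diam E)⁻¹ • Complex.orthonormalBasisOneI.repr.symm z
  have k1 : ∀ x y, ‖k x - k y‖ = (Metric.diam E)⁻¹ * dist x y := fun x y => by
    simp only [k]
    rw [← smul_sub, norm_smul, Real.norm_of_nonneg (by positivity), ← dist_eq_norm,
      LinearIsometryEquiv.dist_map]
  have kc : Continuous k := by simp only [k]; fun_prop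
  refine h (k '' E) _ (h1.image kc) (h2.image k kc.continuousOn) ?_ ?_
  · rintro _ ⟨x, hx, rfl⟩ _ ⟨y, hy, rfl⟩
    rw [k1, ← div_eq_inv_mul, div_le_one h3]
    exact Metric.dist_le_diam_of_mem h1.isBounded hx hy
  · intro n hn x hx
    choose x' hx' e using hx
    obtain ⟨y, hy, h5⟩ := h4 n hn x' hx'
    refine ⟨k y, mem_image_of_mem k hy, ?_⟩
    simp only [← e, k1]
    rw [← Finset.mul_sum, mul_div_assoc, h5, div_eq_inv_mul]

theorem gap'' : ∃ c, 0 ≤ c ∧ c < S ∧ ∀ (E : Set (EuclideanSpace ℝ (Fin 2))) (a : ℝ), IsCompact E →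
    IsConnected E → 0 < Metric.diam E → ∀ n : ℕ, 0 < n → ∀ x : Fin n → EuclideanSpace ℝ (Fin 2),
      (∀ i, x i ∈ E) → (∀ y ∈ E, a ≤ (∑ i, dist (x i) y) / (n : ℝ)) → a ≤ c * Metric.diam E := by
  obtain ⟨c, c0, hc, h⟩ := gap0
  refine ⟨c, c0, hc, fun E a h1 h2 h3 n hn x hx h4 => (div_le_iff₀ h3).1 ?_⟩
  let k : EuclideanSpace ℝ (Fin 2) → ℂ := fun z =>
    (Metric.diam E)⁻¹ • Complex.orthonormalBasisOneI.repr.symm z
  have k1 : ∀ x y, ‖k x - k y‖ = (Metric.diam E)⁻¹ * dist x y := fun x y => by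
    simp only [k]
    rw [← smul_sub, norm_smul, Real.norm_of_nonneg (by positivity), ← dist_eq_norm,
      LinearIsometryEquiv.dist_map]
  have kc : Continuous k := by simp only [k]; fun_prop
  have hn' : (0 : ℝ) < n := by exact_mod_cast hn
  have hev : ∀ f, ev f (∑ i, Finsupp.single (k (x i)) (n : ℝ)⁻¹) = (∑ i, f (k (x i))) / n :=
    fun f => by simp only [map_sum, ev_single, ← Finset.mul_sum, div_eq_inv_mul]
  refine h (k '' E) (∑ i, Finsupp.single (k (x i)) (n : ℝ)⁻¹) _ (h1.image kc)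
    (h2.image k kc.continuousOn) ?_ ⟨?_, fun f hf => ?_⟩ ?_
  · rintro _ ⟨x, hx, rfl⟩ _ ⟨y, hy, rfl⟩
    rw [k1, ← div_eq_inv_mul, div_le_one h3]
    exact Metric.dist_le_diam_of_mem h1.isBounded hx hy
  · rw [mass, hev]; simp [hn'.ne']
  · rw [hev]
    exact div_nonneg (Finset.sum_nonneg fun i _ => hf _ (mem_image_of_mem k (hx i))) hn'.le
  · rintro _ ⟨y, hy, rfl⟩
    rw [U, hev]
    simp only [k1]
    rw [← Finset.mul_sum, mul_div_assoc, div_eq_inv_mul]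
    exact mul_le_mul_of_nonneg_left (h4 y hy) (by positivity)

end Pool.Agent.Lib.MP_c4a252_co
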