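import Pool.Agent.Lib.MP_c4a252_co.Far

/-! The signed measure on one arc and positivity of its symmetrized potential. -/

namespace Pool.Agent.Lib.MP_c4a252_co

open Set

lemma nsq_eq (z : ℂ) : ‖z‖ ^ 2 = z.re ^ 2 + z.im ^ 2 := by
  rw [← ip_self, ip]; ring

noncomputable def γ (u : ℝ) : ℂ := ⟨(1 - u ^ 2) / (1 + u ^ 2), 2 * u / (1 + u ^ 2)⟩

lemma γ_dist (u : ℝ) (y : ℂ) : √(1 + u ^ 2) * ‖γ u - y‖ =
    φ (2 * ‖y‖ ^ 2 + 2 - ‖y - 1‖ ^ 2) ((‖y - 1‖ ^ 2 + ‖y‖ ^ 2 + 1 - 2 * ‖y - ω‖ ^ 2) / √3)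
      (‖y - 1‖ ^ 2) u := by
  have e : (‖y - 1‖ ^ 2 + ‖y‖ ^ 2 + 1 - 2 * ‖y - ω‖ ^ 2) / √3 = 2 * y.im := by
    rw [div_eq_iff (by positivity)]
    simp only [nsq_eq, Complex.sub_re, Complex.sub_im, ω_re, ω_im, Complex.one_re, Complex.one_im]
    linear_combination (-1 / 2) * s3
  rw [e, φ, ← Real.sqrt_sq (norm_nonneg (γ u - y)), ← Real.sqrt_mul (by positivity)]
  congr 1
  simp only [nsq_eq, Complex.sub_re, Complex.sub_im, Complex.one_re, Complex.one_im, γ]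
  field_simp; ring

/-- the part of the arc centred at `0` that is close to `1` -/
def K : Set ℂ := {x | x ∈ T ∧ 1 ≤ ‖x‖ ∧ ‖x - 1‖ ≤ 0.6}

lemma mem_T {z : ℂ} : z ∈ T ↔ ‖z - 1‖ ≤ 1 ∧ ‖z - ω‖ ≤ 1 ∧ ‖z‖ ≤ 1 := by
  simp [T, Fin.forall_fin_succ, V0, V1, V2]

lemma γ_mem {u : ℝ} (h0 : 0 ≤ u) (h1 : u ≤ 1 / 4) : γ u ∈ K := by
  have p : 0 < 1 + u ^ 2 := by positivity
  have e1 : ‖γ u‖ ^ 2 = 1 := by simp only [nsq_eq, γ]; field_simp; ring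
  have e2 : ‖γ u - 1‖ ^ 2 = 4 * u ^ 2 / (1 + u ^ 2) := by
    simp only [nsq_eq, Complex.sub_re, Complex.sub_im, Complex.one_re, Complex.one_im, γ]
    field_simp; ring
  have e3 : ‖γ u - ω‖ ^ 2 = 1 - 2 * u * (√3 - u) / (1 + u ^ 2) := by
    simp only [nsq_eq, Complex.sub_re, Complex.sub_im, ω_re, ω_im, γ]
    field_simp; linear_combination (1 + u ^ 2) ^ 2 * s3
  have e4 : ‖γ u - 1‖ ≤ 0.6 := by
    refine (pow_le_pow_iff_left₀ (norm_nonneg _) (by norm_num) two_ne_zero).1 ?_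
    rw [e2, div_le_iff₀ p]; nlinarith
  have e5 : ‖γ u‖ = 1 := by nlinarith [norm_nonneg (γ u)]
  refine ⟨mem_T.2 ⟨by linarith, ?_, e5.le⟩, e5.ge, e4⟩
  have : 0 ≤ 2 * u * (√3 - u) / (1 + u ^ 2) :=
    div_nonneg (mul_nonneg (by linarith) (by linarith [s_lo])) p.le
  nlinarith [norm_nonneg (γ u - ω)]

noncomputable def atm (u : ℝ) : M := Finsupp.single (γ u) √(1 + u ^ 2)

noncomputable def σ0 : M := ∑ j ∈ Finset.range 18, (wt j : ℝ) •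
  ((8 : ℝ) • atm (2 ^ j * u0) - (14 : ℝ) • atm (2 * (2 ^ j * u0)) +
    (7 : ℝ) • atm (4 * (2 ^ j * u0)) - atm (8 * (2 ^ j * u0)))

lemma ev_σ0 (f : ℂ → ℝ) : ev f σ0 = L fun u => √(1 + u ^ 2) * f (γ u) := by
  simp only [σ0, map_sum, map_smul, map_sub, map_add, atm, ev_single, smul_eq_mul, L, E4]

noncomputable def σ1 : M := σ0 + Mc • (Finsupp.single (γ (1 / 4)) 1 - Finsupp.single (γ 0) 1)

lemma σ1_supp : (σ1.support : Set ℂ) ⊆ K := by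
  rw [← Finsupp.mem_supported ℝ]
  have a : ∀ u, 0 ≤ u → u ≤ u1 → atm u ∈ Finsupp.supported ℝ ℝ K := fun u h0 h1 =>
    Finsupp.single_mem_supported ℝ _ (γ_mem h0 (by linarith [u1_le]))
  refine add_mem (sum_mem fun j hj => Submodule.smul_mem _ _ ?_) (Submodule.smul_mem _ _
    (sub_mem (Finsupp.single_mem_supported ℝ _ (γ_mem (by norm_num) le_rfl))
      (Finsupp.single_mem_supported ℝ _ (γ_mem le_rfl (by norm_num)))))
  have h1 := (node_mem hj).2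
  have h0 := u0_pos.trans_le (node_mem hj).1
  exact sub_mem (add_mem (sub_mem (Submodule.smul_mem _ _ (a _ (by linarith) (by linarith)))
    (Submodule.smul_mem _ _ (a _ (by linarith) (by linarith))))
    (Submodule.smul_mem _ _ (a _ (by linarith) (by linarith)))) (a _ (by linarith) (by linarith))

lemma σ1_bd : ∃ C, 0 < C ∧ ∀ (f : ℂ → ℝ) (η : ℝ), 0 ≤ η → (∀ x ∈ K, |f x| ≤ η) →
    ev f σ1 ≤ C * η := by
  refine ⟨∑ x ∈ σ1.support, |σ1 x| + 1, by positivity, fun f η h0 h => ?_⟩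
  rw [ev_eq, add_mul, Finset.sum_mul]
  refine le_trans (Finset.sum_le_sum fun x hx => ?_) (le_add_of_nonneg_right (by linarith))
  exact (le_abs_self _).trans ((abs_mul _ _).trans_le
    (mul_le_mul_of_nonneg_left (h x (σ1_supp hx)) (abs_nonneg _)))

noncomputable def kk (y : ℂ) : ℝ := ‖γ (1 / 4) - y‖ - ‖1 - y‖

lemma γ0 : γ 0 = 1 := by apply Complex.ext <;> simp [γ]

lemma U_σ1 (y : ℂ) : U σ1 y = Ψ (‖y - 1‖ ^ 2) (‖y - ω‖ ^ 2) (‖y‖ ^ 2) + Mc * kk y := by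
  simp only [U, σ1, map_add, map_smul, map_sub, ev_single, ev_σ0, γ_dist, smul_eq_mul, one_mul,
    γ0, kk, Ψ]

lemma mass_σ1 : mass σ1 = L (φ 1 0 1) := by
  simp only [mass, σ1, map_add, map_smul, map_sub, ev_single, ev_σ0, smul_eq_mul, sub_self,
    mul_zero, add_zero, mul_one]
  congr 1; funext u; rw [φ]; congr 1; ring

noncomputable def ρ (z : ℂ) : ℂ := ω ^ 2 * z + 1
noncomputable def κ (z : ℂ) : ℂ := ω * (starRingEnd ℂ) z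

lemma ω3 : ω ^ 3 = -1 := by linear_combination (ω + 1) * ω_sq
lemma ωc : (starRingEnd ℂ) ω = 1 - ω := by apply Complex.ext <;> simp; norm_num

lemma ρ_iso (x y : ℂ) : ‖ρ x - ρ y‖ = ‖x - y‖ := by
  rw [ρ, ρ, add_sub_add_right_eq_sub, ← mul_sub, norm_mul, norm_pow, norm_ω]; simp
lemma κ_iso (x y : ℂ) : ‖κ x - κ y‖ = ‖x - y‖ := by
  rw [κ, κ, ← mul_sub, norm_mul, norm_ω, ← map_sub, Complex.norm_conj, one_mul]
lemma ρ0 : ρ 0 = 1 := by simp [ρ]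
lemma ρ1 : ρ 1 = ω := by rw [ρ, ω_sq]; ring
lemma ρω : ρ ω = 0 := by rw [ρ]; linear_combination ω3
lemma κ0 : κ 0 = 0 := by simp [κ]
lemma κ1 : κ 1 = ω := by simp [κ]
lemma κω : κ ω = 1 := by rw [κ, ωc]; linear_combination -ω_sq
lemma ρa (z : ℂ) : ‖ρ z - 1‖ = ‖z‖ := by rw [← ρ0, ρ_iso, sub_zero]
lemma ρb (z : ℂ) : ‖ρ z - ω‖ = ‖z - 1‖ := by rw [← ρ1, ρ_iso]
lemma ρc (z : ℂ) : ‖ρ z‖ = ‖z - ω‖ := by rw [← ρ_iso z, ρω, sub_zero]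
lemma κa (z : ℂ) : ‖κ z - 1‖ = ‖z - ω‖ := by rw [← κ_iso z, κω]
lemma κb (z : ℂ) : ‖κ z - ω‖ = ‖z - 1‖ := by rw [← κ1, κ_iso]
lemma κc (z : ℂ) : ‖κ z‖ = ‖z‖ := by rw [← sub_zero z, ← κ_iso z, κ0, sub_zero, sub_zero]
lemma ρρρ (z : ℂ) : ρ (ρ (ρ z)) = z := by
  simp only [ρ]; linear_combination (z * (ω ^ 3 - 1) + ω) * ω3 + ω_sq
lemma κκ (z : ℂ) : κ (κ z) = z := by
  simp only [κ, map_mul, ωc, Complex.conj_conj]; linear_combination -z * ω_sq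
lemma κρ (z : ℂ) : κ (ρ z) = ρ (ρ (κ z)) := by
  simp only [κ, ρ, map_mul, map_add, map_pow, map_one, ωc]
  linear_combination (-(starRingEnd ℂ) z * ω * (ω ^ 2 + ω - 1) - 1) * ω_sq
lemma ρ_T {z : ℂ} (h : z ∈ T) : ρ z ∈ T := by
  rw [mem_T] at *; rw [ρa, ρb, ρc]; tauto
lemma κ_T {z : ℂ} (h : z ∈ T) : κ z ∈ T := by
  rw [mem_T] at *; rw [κa, κb, κc]; tauto
lemma ρo : ρ o = o := by
  rw [ρ, ω_sq]; apply Complex.ext <;> simp [o] <;> linarith [s3]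
lemma κo : κ o = o := by
  rw [κ]; apply Complex.ext <;> simp [o] <;> linarith [s3]

noncomputable def ff (y : ℂ) : ℝ := U σ1 y - S * mass σ1

noncomputable def F (z : ℂ) : ℝ :=
  ff z + ff (ρ z) + ff (ρ (ρ z)) + ff (κ z) + ff (ρ (κ z)) + ff (ρ (ρ (κ z)))

lemma Fρ (z : ℂ) : F (ρ z) = F z := by simp only [F, κρ, ρρρ]; ring
lemma Fκ (z : ℂ) : F (κ z) = F z := by simp only [F, κκ]; ring

lemma F_cont : Continuous F := by
  have h : Continuous ff := by unfold ff U; simp only [ev_eq]; fun_prop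
  have h1 : Continuous ρ := by unfold ρ; fun_prop
  have h2 : Continuous κ := by unfold κ; fun_prop
  unfold F; fun_prop

lemma kk_lip (y w : ℂ) : kk w - 2 * ‖y - w‖ ≤ kk y := by
  have h1 := norm_sub_le_norm_sub_add_norm_sub (γ (1 / 4)) y w
  have h2 := norm_sub_le_norm_sub_add_norm_sub 1 w y
  rw [norm_sub_rev w y] at h2
  unfold kk; linarith

lemma xA : 0.485 ≤ ‖γ (1 / 4) - 1‖ ∧ ‖γ (1 / 4) - 1‖ ≤ 0.5 := by
  have : ‖γ (1 / 4) - 1‖ ^ 2 = 4 / 17 := by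
    simp only [nsq_eq, Complex.sub_re, Complex.sub_im, Complex.one_re, Complex.one_im, γ]
    norm_num
  constructor <;> nlinarith [norm_nonneg (γ (1 / 4) - 1)]

lemma xB : 0.55 ≤ ‖γ (1 / 4) - ω‖ := by
  have : ‖γ (1 / 4) - ω‖ ^ 2 = (19 - 8 * √3) / 17 := by
    simp only [nsq_eq, Complex.sub_re, Complex.sub_im, ω_re, ω_im, γ]
    linear_combination (1 / 4) * s3
  nlinarith [norm_nonneg (γ (1 / 4) - ω), s_hi]

lemma kk_ge (y : ℂ) : -0.5 ≤ kk y := by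
  have h1 := norm_sub_le_norm_sub_add_norm_sub 1 (γ (1 / 4)) y
  rw [norm_sub_rev 1 (γ _)] at h1
  unfold kk; linarith [xA.2]

lemma F_pos0 {z : ℂ} (hz : z ∈ T) (h1 : 1 ≤ ‖z‖) (h2 : ‖z - 1‖ ≤ ‖z - ω‖) : 0 < F z := by
  rw [mem_T] at hz
  have hc : ‖z‖ = 1 := le_antisymm hz.2.2 h1
  obtain ⟨D, hD⟩ : ∃ D, ‖z - ω‖ ^ 2 = 1 - D := ⟨1 - ‖z - ω‖ ^ 2, by ring⟩
  have h : RD (‖z - 1‖ ^ 2) D := by
    refine ⟨by positivity, by nlinarith [norm_nonneg (z - ω)], ?_, by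
      nlinarith [norm_nonneg (z - 1)]⟩
    have e := nsq_eq z
    rw [hc] at e
    have e1 : ‖z - 1‖ ^ 2 = 2 - 2 * z.re := by
      simp only [nsq_eq, Complex.sub_re, Complex.sub_im, Complex.one_re, Complex.one_im]
      linarith
    have e2 : D = z.re - 1 + √3 * z.im := by
      simp only [nsq_eq, Complex.sub_re, Complex.sub_im, ω_re, ω_im] at hD
      linear_combination hD + e - (1 / 4) * s3
    rw [e1, e2]; linear_combination (-3) * e + z.im ^ 2 * s3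
  have r : ‖z - 1‖ ≤ D := by
    refine (pow_le_pow_iff_left₀ (norm_nonneg _) h.d0 two_ne_zero).1 ?_
    nlinarith [h.a1, h.r0]
  have k1 : kk 1 = ‖γ (1 / 4) - 1‖ := by simp [kk]
  have k2 : kk ω = ‖γ (1 / 4) - ω‖ - 1 := by
    have := normV (i := 0) (j := 1) (by decide)
    rw [V0, V1] at this; rw [kk, this]
  have k3 : 0 ≤ kk 0 := by
    have := (γ_mem (u := 1 / 4) (by norm_num) le_rfl).2.1
    simpa [kk] using this
  have l1 := kk_lip z 1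
  have l2 := kk_lip (ρ z) (ρ 1)
  have l3 := kk_lip (ρ (ρ z)) (ρ (ρ 1))
  have l4 := kk_lip (κ z) (κ 1)
  have l5 := kk_lip (ρ (κ z)) (ρ (κ 1))
  have l6 := kk_lip (ρ (ρ (κ z))) (ρ (ρ (κ 1)))
  simp only [ρ_iso, κ_iso] at l2 l3 l4 l5 l6
  simp only [ρ0, ρ1, ρω, κ1] at l2 l3 l4 l5 l6
  have := h.tot (k := kk z + kk (ρ z) + kk (ρ (ρ z)) + kk (κ z) + kk (ρ (κ z)) + kk (ρ (ρ (κ z))))
    (by linarith [xA.1, xB]) (by
      linarith [kk_ge z, kk_ge (ρ z), kk_ge (ρ (ρ z)), kk_ge (κ z), kk_ge (ρ (κ z)),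
        kk_ge (ρ (ρ (κ z)))])
  simp only [F, ff, U_σ1, mass_σ1, ρa, ρb, ρc, κa, κb, κc, hc, hD, one_pow]
  linarith

lemma F_pos1 {z : ℂ} (hz : z ∈ T) (h1 : 1 ≤ ‖z‖) : 0 < F z := by
  rcases le_total ‖z - 1‖ ‖z - ω‖ with h | h
  · exact F_pos0 hz h1 h
  · rw [← Fκ]; exact F_pos0 (κ_T hz) (by rwa [κc]) (by rwa [κa, κb])

noncomputable def mx (z : ℂ) : ℝ := max ‖z - 1‖ (max ‖z - ω‖ ‖z‖)

theorem F_pos {z : ℂ} (hz : z ∈ T) (h : 1 ≤ mx z) : 0 < F z := by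
  simp only [mx, le_max_iff] at h
  rcases h with h | h | h
  · rw [← Fρ, ← Fρ]; exact F_pos1 (ρ_T (ρ_T hz)) (by rwa [ρc, ρb])
  · rw [← Fρ]; exact F_pos1 (ρ_T hz) (by rwa [ρc])
  · exact F_pos1 hz h

end Pool.Agent.Lib.MP_c4a252_co
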