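import Pool.Agent.Lib.MP_c4a252_co.Approx

/-! Reuleaux triangle, circumscribed hexagon, Minkowski convexity of the energy. -/

namespace Pool.Agent.Lib.MP_c4a252_co

def ip (z w : ℂ) : ℝ := z.re * w.re + z.im * w.im

lemma ip_le (z w : ℂ) : ip z w ≤ ‖z‖ * ‖w‖ := by
  have := real_inner_le_norm w z
  simpa [Complex.inner, ip, mul_comm] using this

lemma ip_self (z : ℂ) : ip z z = ‖z‖ ^ 2 := by
  rw [Complex.sq_norm, Complex.normSq_apply, ip]

noncomputable def ω : ℂ := ⟨1 / 2, √3 / 2⟩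

@[simp] lemma ω_re : ω.re = 1 / 2 := rfl
@[simp] lemma ω_im : ω.im = √3 / 2 := rfl
lemma s3 : √3 * √3 = 3 := Real.mul_self_sqrt (by norm_num)
lemma s3' : √3 ^ 2 = 3 := Real.sq_sqrt (by norm_num)
lemma ω_sq : ω ^ 2 = ω - 1 := by
  apply Complex.ext <;> simp [sq] <;> linarith [s3]
lemma norm_ω : ‖ω‖ = 1 := by
  have := ip_self ω
  simp [ip] at this
  nlinarith [norm_nonneg ω, s3]

abbrev P := ℤ × ℤ

noncomputable def emb (p : P) : ℂ := ⟨p.1 + p.2 / 2, p.2 * (√3 / 2)⟩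

def Vi : Fin 3 → P := ![(1, 0), (0, 1), (0, 0)]
def di : Fin 3 → P := ![(2, -1), (-1, 2), (-1, -1)]

noncomputable def V (i : Fin 3) : ℂ := emb (Vi i)
noncomputable def dd (i : Fin 3) : ℂ := emb (di i)
noncomputable def o : ℂ := ⟨1 / 2, √3 / 6⟩

lemma V0 : V 0 = 1 := by apply Complex.ext <;> simp [V, Vi, emb]
lemma V1 : V 1 = ω := by apply Complex.ext <;> simp [V, Vi, emb]
lemma V2 : V 2 = 0 := by apply Complex.ext <;> simp [V, Vi, emb]

def T : Set ℂ := {z | ∀ i, ‖z - V i‖ ≤ 1}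
def H : Set ℂ := {z | ∀ i j, ip (z - V i) (V i - V j) ≤ 0}

lemma norm_eq_one {z : ℂ} (h : ip z z = 1) : ‖z‖ = 1 := by
  rw [ip_self] at h; nlinarith [norm_nonneg z]

lemma norm_le_one {z : ℂ} (h : ip z z ≤ 1) : ‖z‖ ≤ 1 := by
  rw [ip_self] at h; nlinarith [norm_nonneg z]

lemma normV {i j : Fin 3} (h : i ≠ j) : ‖V i - V j‖ = 1 := by
  apply norm_eq_one
  fin_cases i <;> fin_cases j <;> simp [ip, V, Vi, emb] at h ⊢ <;> nlinarith [s3]

lemma V_mem (i : Fin 3) : V i ∈ T := fun j => by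
  by_cases h : i = j
  · simp [h]
  · exact (normV h).le

lemma T_H : T ⊆ H := fun z hz i j => by
  by_cases h : i = j
  · simp [h, ip]
  · have h1 := ip_le (z - V j) (V i - V j)
    have h2 := ip_self (V i - V j)
    rw [normV h] at h1 h2
    have := hz j
    simp only [ip, Complex.sub_re, Complex.sub_im] at *
    nlinarith

lemma convex_T : Convex ℝ T := by
  have : T = ⋂ i, Metric.closedBall (V i) 1 := by ext z; simp [T, dist_eq_norm]
  rw [this]; exact convex_iInter fun i => convex_closedBall _ _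

lemma compact_T : IsCompact T := by
  have : T = ⋂ i, Metric.closedBall (V i) 1 := by ext z; simp [T, dist_eq_norm]
  rw [this]
  exact (isCompact_closedBall (V 0) 1).of_isClosed_subset
    (isClosed_iInter fun i => Metric.isClosed_closedBall) (Set.iInter_subset _ 0)

lemma T_sector {x y : ℂ} (hx : x ∈ T) (hy : y ∈ T) (i j k : Fin 3) {a b : ℝ} (ha : 0 ≤ a)
    (hb : 0 ≤ b) (h : x - y = a • (V i - V j) + b • (V i - V k)) : ‖x - y‖ ≤ 1 := by
  have h1 := mul_nonneg ha (neg_nonneg.2 (T_H hx i j))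
  have h2 := mul_nonneg hb (neg_nonneg.2 (T_H hx i k))
  have h3 := ip_le (V i - y) (x - y)
  have h4 := hy i
  rw [norm_sub_rev] at h4
  have h5 : ip (x - y) (x - y) = ip (V i - y) (x - y) + ip (x - V i) (x - y) := by
    simp [ip]; ring
  have h6 : ip (x - V i) (x - y) =
      a * ip (x - V i) (V i - V j) + b * ip (x - V i) (V i - V k) := by
    rw [h]; simp [ip]; ring
  rw [ip_self] at h5
  nlinarith [norm_nonneg (x - y)]

lemma diam_T : Diam1 T := by
  intro x hx y hy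
  obtain ⟨a, b, h⟩ : ∃ a b : ℝ, x - y = a • (1 : ℂ) + b • ω :=
    ⟨(x - y).re - (x - y).im / √3, 2 * (x - y).im / √3, by
      apply Complex.ext <;> simp <;> field_simp <;> ring⟩
  wlog ha : 0 ≤ a generalizing x y a b
  · rw [norm_sub_rev]
    exact this y hy x hx (-a) (-b) (by rw [← neg_sub, h]; simp; ring) (by linarith)
  rcases le_total 0 b with hb | hb
  · rw [norm_sub_rev]
    exact T_sector hy hx 2 0 1 ha hb (by rw [← neg_sub, h, V0, V1, V2]; simp; ring)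
  rcases le_total 0 (a + b) with hc | hc
  · exact T_sector hx hy 0 1 2 (neg_nonneg.2 hb) hc (by rw [h, V0, V1, V2]; simp; ring)
  · rw [norm_sub_rev]
    exact T_sector hy hx 1 0 2 ha (neg_nonneg.2 hc) (by rw [← neg_sub, h, V0, V1, V2]; simp; ring)

lemma mem_H {z : ℂ} (h1 : |ip (z - o) 1| ≤ 1 / 2) (h2 : |ip (z - o) (ω - 1)| ≤ 1 / 2)
    (h3 : |ip (z - o) (-ω)| ≤ 1 / 2) : z ∈ H := by
  rw [abs_le] at h1 h2 h3
  intro i j
  fin_cases i <;> fin_cases j <;> simp [ip, V, Vi, emb, o] at * <;> nlinarith [s3]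

theorem pal {E : Set ℂ} (hc : IsCompact E) (hne : E.Nonempty) (hE : Diam1 E) :
    ∃ u c : ℂ, ‖u‖ = 1 ∧ ∀ x ∈ E, u * x + c ∈ H := by
  let h : ℂ → ℝ := fun v => sSup ((fun x => ip x v) '' E)
  have hcont : Continuous h :=
    hc.continuous_sSup (f := fun v x => ip x v) (by unfold ip Function.HasUncurry.uncurry; fun_prop)
  have hmax : ∀ v, ∃ x ∈ E, h v = ip x v ∧ ∀ y ∈ E, ip y v ≤ ip x v := fun v =>
    hc.exists_sSup_image_eq_and_ge hne (by unfold ip; fun_prop)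
  let c : ℂ → ℝ := fun v => (h v - h (-v)) / 2
  have hw : ∀ v : ℂ, ‖v‖ = 1 → ∀ x ∈ E, |ip x v - c v| ≤ 1 / 2 := by
    intro v hv x hx
    obtain ⟨p, hp, e1, h1⟩ := hmax v
    obtain ⟨q, hq, e2, h2⟩ := hmax (-v)
    have h3 := ip_le (p - q) v
    have := h1 x hx; have := h2 x hx; have := hE p hp q hq
    rw [hv, mul_one] at h3
    simp only [c, e1, e2, ip, Complex.neg_re, Complex.neg_im, Complex.sub_re, Complex.sub_im] at *
    rw [abs_le]; constructor <;> linarith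
  let φ : ℝ → ℝ := fun θ => c (Complex.exp (θ * Complex.I) * 1) +
    c (Complex.exp (θ * Complex.I) * (ω - 1)) + c (Complex.exp (θ * Complex.I) * (-ω))
  have hφ : Continuous φ := by simp only [φ, c]; fun_prop
  have e : φ Real.pi = -φ 0 := by simp [φ, c]; ring
  obtain ⟨θ, hθ⟩ : ∃ θ, φ θ = 0 := by
    rcases le_total (φ 0) 0 with h0 | h0
    · exact mem_range_of_exists_le_of_exists_ge hφ ⟨0, h0⟩ ⟨Real.pi, by linarith⟩
    · exact mem_range_of_exists_le_of_exists_ge hφ ⟨Real.pi, by linarith⟩ ⟨0, h0⟩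
  simp only [φ] at hθ
  have hu := Complex.norm_exp_ofReal_mul_I θ
  generalize Complex.exp (θ * Complex.I) = w at hθ hu
  have n2 : ‖ω - 1‖ = 1 := by rw [← ω_sq, norm_pow, norm_ω, one_pow]
  let c0 : ℂ := ⟨c (w * 1), (2 * c (w * (ω - 1)) + c (w * 1)) / √3⟩
  have key : ∀ x n, ip ((starRingEnd ℂ) w * x + (o - c0) - o) n = ip x (w * n) - ip c0 n := by
    intro x n; simp [ip]; ring
  refine ⟨(starRingEnd ℂ) w, o - c0, by simpa using hu, fun x hx => mem_H ?_ ?_ ?_⟩ <;> rw [key]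
  · convert hw (w * 1) (by simpa using hu) x hx using 3
    simp [ip, c0]
  · convert hw (w * (ω - 1)) (by rw [norm_mul, hu, n2, one_mul]) x hx using 3
    simp [ip, c0]; field_simp; ring
  · convert hw (w * -ω) (by rw [norm_mul, hu, norm_neg, norm_ω, one_mul]) x hx using 3
    rw [eq_neg_of_add_eq_zero_right hθ]
    simp [ip, c0]; field_simp; ring

theorem energy_dec {κ : Type} [Fintype κ] (l : κ → ℝ) (hl : ∀ k, 0 ≤ l k) (R : κ → Set ℂ)
    (cv : ∀ k, Convex ℝ (R k)) (cp : ∀ k, IsCompact (R k)) (b : κ → ℝ)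
    (hb : ∀ k ν, Prob (R k) ν → B ν ν ≤ b k) {E : Set ℂ}
    (hE : ∀ x ∈ E, ∀ u, ∃ y : κ → ℂ, (∀ k, y k ∈ R k) ∧ ip x u ≤ ∑ k, l k * ip (y k) u)
    {μ : M} (hμ : Prob E μ) : B μ μ ≤ ∑ k, l k * b k := by
  let L : (κ → ℂ) →ₗ[ℝ] ℂ := ∑ k, l k • LinearMap.proj k
  have hL : ∀ y, L y = ∑ k, l k • y k := fun y => by simp [L]
  have dec : ∀ x ∈ E, ∃ y : κ → ℂ, (∀ k, y k ∈ R k) ∧ x = ∑ k, l k • y k := by
    intro x hx
    by_contra hn
    obtain ⟨f, t, h1, h2⟩ := geometric_hahn_banach_closed_point (x := x)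
      ((convex_pi fun k _ => cv k : Convex ℝ (Set.univ.pi R)).linear_image L)
      ((isCompact_univ_pi cp).image L.continuous_of_finiteDimensional).isClosed
      (fun ⟨y, hy, e⟩ => hn ⟨y, fun k => hy k trivial, by rw [← e, hL]⟩)
    have hf : ∀ z, f z = ip z ⟨f 1, f Complex.I⟩ := fun z => by
      have : z = z.re • (1 : ℂ) + z.im • Complex.I := by simp
      conv_lhs => rw [this, map_add, map_smul, map_smul]
      simp [ip]
    obtain ⟨y, hy, h3⟩ := hE x hx ⟨f 1, f Complex.I⟩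
    have h4 := h1 _ ⟨y, fun k _ => hy k, rfl⟩
    rw [hL, map_sum] at h4
    simp only [map_smul, smul_eq_mul] at h4
    simp only [← hf] at h3
    linarith
  choose! Y hY using dec
  calc B μ μ ≤ ev (fun x => ev (fun x' => ∑ k, l k * ‖Y x' k - Y x k‖) μ) μ := by
        refine hμ.mono fun x hx => hμ.mono fun x' hx' => ?_
        conv_lhs => rw [(hY x hx).2, (hY x' hx').2, ← Finset.sum_sub_distrib]
        refine (norm_sum_le _ _).trans_eq (Finset.sum_congr rfl fun k _ => ?_)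
        rw [← smul_sub, norm_smul, Real.norm_of_nonneg (hl k)]
    _ = ∑ k, l k * B (μ.mapDomain (Y · k)) (μ.mapDomain (Y · k)) := by
        simp only [ev_sum, ev_mul, B, U, ev_map]
    _ ≤ _ := Finset.sum_le_sum fun k _ =>
        mul_le_mul_of_nonneg_left (hb k _ (hμ.map fun x hx => (hY x hx).1 k)) (hl k)

end Pool.Agent.Lib.MP_c4a252_co
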