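import Pool.Agent.Lib.MP_c4a252_co.Cert

/-! Near-maximisers of the energy sit close to a Reuleaux triangle. -/

namespace Pool.Agent.Lib.MP_c4a252_co

section convex
variable {X : Type} [AddCommGroup X] [Module ℝ X] {D : Set X}

lemma line_mem (hD : Convex ℝ D) {p v : X} {l h x : ℝ} (h1 : p + l • v ∈ D) (h2 : p + h • v ∈ D)
    (hl : l ≤ x) (hh : x ≤ h) : p + x • v ∈ D := by
  obtain ⟨a, b, ha, hb, hab, rfl⟩ := (Convex.mem_Icc (hl.trans hh)).1 ⟨hl, hh⟩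
  convert hD h1 h2 ha hb hab using 1
  rw [smul_add, smul_add, add_add_add_comm, ← add_smul, hab, one_smul, smul_smul, smul_smul,
    ← add_smul]

lemma simplex_mem (hD : Convex ℝ D) {n : ℕ} {p : X} {v : Fin n → X} {s : ℝ} (hs : 0 < s)
    (h : ∀ k, p + s • v k ∈ D) {α : Fin n → ℝ} (h0 : ∀ k, 0 ≤ α k) (h1 : ∑ k, α k = s) :
    p + ∑ k, α k • v k ∈ D := by
  have e : ∑ k, α k / s = 1 := by rw [← Finset.sum_div, h1, div_self hs.ne']
  convert hD.sum_mem (t := Finset.univ) (w := fun k => α k / s) (fun k _ => by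
    have := h0 k; positivity) e (fun k _ => h k) using 1
  simp only [smul_add, Finset.sum_add_distrib, ← Finset.sum_smul, e, one_smul, smul_smul,
    div_mul_cancel₀ _ hs.ne']

end convex

noncomputable def W3 : A3 := (V 0, V 1, V 2)

lemma pt3_V3 : pt3 V3 = W3 := by simp [pt3, V3, W3, pt_VQ]

noncomputable def tt (j : Fin 3) : ℂ := (1 / 3 : ℝ) • dd j

/-- displacement of point `i` along `tt j` -/
noncomputable def mv (i j : Fin 3) : A3 := ![(tt j, 0, 0), (0, tt j, 0), (0, 0, tt j)] i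

def sh (i j : Fin 3) (s : ℤ) : P := psub (VQ i) (psmul (-s) (di j))

lemma pt_sh (i j : Fin 3) (s : ℤ) : pt (sh i j s) = V i + ((s : ℝ) / 1000000) • tt j := by
  rw [sh, pt, emb_sub, smul_sub, ← pt, pt_VQ, emb_smul, tt, dd, smul_smul, smul_smul,
    sub_eq_add_neg, ← neg_smul]
  congr 2; push_cast; ring

def vq (c0 c1 c2 : ℤ) : P × P × P := (sh 0 0 (-c0), sh 1 1 (-c1), sh 2 2 (-c2))

noncomputable def hull (cs : List Cert) : Set A3 := convexHull ℝ {z | ∃ c ∈ cs, z = pt3 c.a}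

lemma mem_hull {cs : List Cert} {a : P × P × P} (h : a ∈ cs.map Cert.a) : pt3 a ∈ hull cs := by
  obtain ⟨c, hc, rfl⟩ := List.mem_map.1 h
  exact subset_convexHull _ _ ⟨c, hc, rfl⟩

noncomputable def Φ (x y z : ℝ) : A3 := W3 + x • -mv 0 0 + y • -mv 1 1 + z • -mv 2 2

lemma vq_mem {cs : List Cert} {x y z : ℤ} (h : vq x y z ∈ cs.map Cert.a) :
    Φ (x / 1000000) (y / 1000000) (z / 1000000) ∈ hull cs := by
  convert mem_hull h using 1
  simp [Φ, W3, mv, pt3, vq, pt_sh, neg_div]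

lemma Φ1 {D : Set A3} (hD : Convex ℝ D) {l h x y z : ℝ} (h1 : Φ l y z ∈ D) (h2 : Φ h y z ∈ D)
    (hl : l ≤ x) (hh : x ≤ h) : Φ x y z ∈ D := by
  have e : ∀ t, Φ t y z = (W3 + y • -mv 1 1 + z • -mv 2 2) + t • -mv 0 0 := fun t => by
    rw [Φ]; abel
  rw [e] at *; exact line_mem hD h1 h2 hl hh

lemma Φ2 {D : Set A3} (hD : Convex ℝ D) {l h x y z : ℝ} (h1 : Φ x l z ∈ D) (h2 : Φ x h z ∈ D)
    (hl : l ≤ y) (hh : y ≤ h) : Φ x y z ∈ D := by
  have e : ∀ t, Φ x t z = (W3 + x • -mv 0 0 + z • -mv 2 2) + t • -mv 1 1 := fun t => by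
    rw [Φ]; abel
  rw [e] at *; exact line_mem hD h1 h2 hl hh

lemma Φ3 {D : Set A3} (hD : Convex ℝ D) {l h x y z : ℝ} (h1 : Φ x y l ∈ D) (h2 : Φ x y h ∈ D)
    (hl : l ≤ z) (hh : z ≤ h) : Φ x y z ∈ D := line_mem hD h1 h2 hl hh

lemma hull_X {x y z : ℝ} (x1 : 0.2 ≤ x) (x2 : x ≤ 0.267949) (y1 : 0.067949 ≤ y) (y2 : y ≤ 0.2)
    (z1 : 0 ≤ z) (z2 : z ≤ 0.067949) : Φ x y z ∈ hull CX := by
  have c : Convex ℝ (hull CX) := convex_convexHull _ _
  have m : ∀ x ∈ [200000, 267949], ∀ y ∈ [67949, 200000], ∀ z ∈ [0, 67949],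
    vq x y z ∈ CX.map Cert.a := by decide +kernel
  have m' := fun x hx y hy z hz => vq_mem (m x hx y hy z hz)
  simp only [List.mem_cons, List.not_mem_nil, or_false, forall_eq_or_imp, forall_eq] at m'
  obtain ⟨⟨⟨a1, a2⟩, a3, a4⟩, ⟨a5, a6⟩, a7, a8⟩ := m'
  refine Φ1 c (Φ2 c (Φ3 c a1 a2 ?_ ?_) (Φ3 c a3 a4 ?_ ?_) ?_ ?_)
    (Φ2 c (Φ3 c a5 a6 ?_ ?_) (Φ3 c a7 a8 ?_ ?_) ?_ ?_) ?_ ?_ <;> push_cast <;> linarith

lemma hull_R {x y z : ℝ} (x2 : x ≤ 0.2) (y1 : 0 ≤ y) (y2 : y ≤ x)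
    (z1 : 0 ≤ z) (z2 : z ≤ x) (hs : 0.125 ≤ x + y + z) : Φ x y z ∈ hull CR := by
  have c : Convex ℝ (hull CR) := convex_convexHull _ _
  have m : (∀ y ∈ [0, 200000], ∀ z ∈ [0, 200000], vq 200000 y z ∈ CR.map Cert.a) ∧
    vq 125000 0 0 ∈ CR.map Cert.a ∧ vq 0 125000 0 ∈ CR.map Cert.a ∧
    vq 0 0 125000 ∈ CR.map Cert.a := by decide +kernel
  have m' := fun y hy z hz => vq_mem (m.1 y hy z hz)
  simp only [List.mem_cons, List.not_mem_nil, or_false, forall_eq_or_imp, forall_eq] at m'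
  obtain ⟨⟨a1, a2⟩, a3, a4⟩ := m'
  have hx : 0 < x := by linarith
  have e : ∀ t, Φ (t * x) (t * y) (t * z) =
      W3 + t • (x • -mv 0 0 + y • -mv 1 1 + z • -mv 2 2) := fun t => by
    simp only [Φ, smul_add, smul_smul]; abel
  have h1 : Φ (0.2 / x * x) (0.2 / x * y) (0.2 / x * z) ∈ hull CR := by
    have k : ∀ w, 0 ≤ w → w ≤ x → 0 ≤ 0.2 / x * w ∧ 0.2 / x * w ≤ 0.2 := fun w h1 h2 =>
      ⟨by positivity, by rw [div_mul_eq_mul_div, div_le_iff₀ hx]; linarith⟩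
    have := k y y1 y2; have := k z z1 z2
    rw [div_mul_cancel₀ _ hx.ne', show (0.2 : ℝ) = (200000 : ℤ) / 1000000 by norm_num]
    refine Φ2 c (Φ3 c a1 a2 ?_ ?_) (Φ3 c a3 a4 ?_ ?_) ?_ ?_ <;> push_cast <;> linarith
  have h2 : Φ (0.125 / (x + y + z) * x) (0.125 / (x + y + z) * y) (0.125 / (x + y + z) * z) ∈
      hull CR := by
    have := simplex_mem c (p := W3) (v := ![-mv 0 0, -mv 1 1, -mv 2 2]) (s := 0.125) (by norm_num)
      (fun k => by
        fin_cases k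
        · convert vq_mem m.2.1 using 1; simp [Φ]; norm_num
        · convert vq_mem m.2.2.1 using 1; simp [Φ]; norm_num
        · convert vq_mem m.2.2.2 using 1; simp [Φ]; norm_num)
      (α := ![0.125 / (x + y + z) * x, 0.125 / (x + y + z) * y, 0.125 / (x + y + z) * z])
      (fun k => by fin_cases k <;> simp <;> positivity)
      (by simp [Fin.sum_univ_three]; field_simp)
    simpa [Φ, Fin.sum_univ_three, add_assoc] using this
  rw [e] at h1 h2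
  have := line_mem c h2 h1 (x := 1) (by rw [div_le_one (by linarith)]; exact hs)
    (by rw [one_le_div hx]; exact x2)
  rw [← e] at this
  simpa using this

lemma coords {p : ℂ} (hp : p ∈ H) (i : Fin 3) : ∃ α : Fin 3 → ℝ, (∀ j, 0 ≤ α j) ∧ α i = 0 ∧
    p = V i + ∑ j, α j • tt j ∧ ∑ j, α j = 2 * (1 - ip (p - o) (dd i)) := by
  refine ⟨fun j => -2 * ip (p - V i) (V i - V j), fun j => by linarith [hp i j], by simp [ip],
    ?_, ?_⟩
  · have h1 : √3 * √3 * p.im = 3 * p.im := by rw [s3]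
    have h2 : √3 * √3 * √3 = 3 * √3 := by rw [s3]
    apply Complex.ext <;> fin_cases i <;>
      simp [Fin.sum_univ_three, ip, V, Vi, emb, tt, dd, di] <;> linarith [s3]
  · fin_cases i <;> simp [Fin.sum_univ_three, ip, V, Vi, emb, dd, di, o] <;> nlinarith [s3]

end Pool.Agent.Lib.MP_c4a252_co
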