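import Pool.Agent.Lib.MP_c4a252_co.Check

/-! A multi-scale functional built from third divided differences. -/

namespace Pool.Agent.Lib.MP_c4a252_co

open Set

lemma rolle3 {f f1 f2 f3 : ℝ → ℝ} {a b c d : ℝ} (hab : a < b) (hbc : b < c) (hcd : c < d)
    (h : ∀ u ∈ Icc a d, HasDerivAt f (f1 u) u ∧ HasDerivAt f1 (f2 u) u ∧ HasDerivAt f2 (f3 u) u)
    (ha : f a = 0) (hb : f b = 0) (hc : f c = 0) (hd : f d = 0) : ∃ u ∈ Icc a d, f3 u = 0 := by
  have R : ∀ {g g' : ℝ → ℝ} {x y : ℝ}, (∀ u ∈ Icc a d, HasDerivAt g (g' u) u) → a ≤ x → x < y →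
      y ≤ d → g x = 0 → g y = 0 → ∃ z ∈ Ioo x y, g' z = 0 := fun hg h1 h2 h3 h4 h5 =>
    exists_hasDerivAt_eq_zero h2
      (fun u hu => (hg u ⟨h1.trans hu.1, hu.2.trans h3⟩).continuousAt.continuousWithinAt)
      (h4.trans h5.symm) fun u hu => hg u ⟨h1.trans hu.1.le, hu.2.le.trans h3⟩
  obtain ⟨p, p1, p2⟩ := R (fun u hu => (h u hu).1) le_rfl hab (by linarith) ha hb
  obtain ⟨q, q1, q2⟩ := R (fun u hu => (h u hu).1) hab.le hbc hcd.le hb hc
  obtain ⟨r, r1, r2⟩ := R (fun u hu => (h u hu).1) (by linarith) hcd le_rfl hc hd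
  obtain ⟨s, s1, s2⟩ := R (fun u hu => (h u hu).2.1) p1.1.le (p1.2.trans q1.1)
    (by linarith [q1.2]) p2 q2
  obtain ⟨t, t1, t2⟩ := R (fun u hu => (h u hu).2.1) (by linarith [q1.1]) (q1.2.trans r1.1)
    r1.2.le q2 r2
  obtain ⟨v, v1, v2⟩ := R (fun u hu => (h u hu).2.2) (by linarith [p1.1, s1.1])
    (s1.2.trans t1.1) (by linarith [t1.2, r1.2]) s2 t2
  exact ⟨v, ⟨by linarith [p1.1, s1.1, v1.1], by linarith [v1.2, t1.2, r1.2]⟩, v2⟩

def E4 (ψ : ℝ → ℝ) (x : ℝ) : ℝ := 8 * ψ x - 14 * ψ (2 * x) + 7 * ψ (4 * x) - ψ (8 * x)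

noncomputable def u0 : ℝ := 1 / 2 ^ 40
noncomputable def u1 : ℝ := 1 / 2 ^ 20

def C3 (f f3 : ℝ → ℝ) : Prop := ∃ f1 f2 : ℝ → ℝ, ∀ u ∈ Icc u0 u1,
  HasDerivAt f (f1 u) u ∧ HasDerivAt f1 (f2 u) u ∧ HasDerivAt f2 (f3 u) u

lemma C3.sub {f f3 g g3 : ℝ → ℝ} (hf : C3 f f3) (hg : C3 g g3) (k : ℝ) :
    C3 (fun u => f u - k * g u) fun u => f3 u - k * g3 u := by
  obtain ⟨f1, f2, hf⟩ := hf
  obtain ⟨g1, g2, hg⟩ := hg
  exact ⟨fun u => f1 u - k * g1 u, fun u => f2 u - k * g2 u, fun u hu =>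
    ⟨(hf u hu).1.sub ((hg u hu).1.const_mul k), (hf u hu).2.1.sub ((hg u hu).2.1.const_mul k),
      (hf u hu).2.2.sub ((hg u hu).2.2.const_mul k)⟩⟩

lemma C3_poly (a b c d : ℝ) : C3 (fun u => a * u ^ 3 + b * u ^ 2 + c * u + d) fun _ => 6 * a :=
  ⟨fun u => 3 * a * u ^ 2 + 2 * b * u + c, fun u => 6 * a * u + 2 * b, fun u _ => ⟨
    (((((hasDerivAt_pow 3 u).const_mul a).add ((hasDerivAt_pow 2 u).const_mul b)).add
      ((hasDerivAt_id u).const_mul c)).add_const d).congr_deriv (by simp; ring),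
    ((((hasDerivAt_pow 2 u).const_mul (3 * a)).add
      ((hasDerivAt_id u).const_mul (2 * b))).add_const c).congr_deriv (by simp; ring),
    (((hasDerivAt_id u).const_mul (6 * a)).add_const (2 * b)).congr_deriv (by simp)⟩⟩

lemma E4_nonneg {f f3 : ℝ → ℝ} (h : C3 f f3) (h3 : ∀ u ∈ Icc u0 u1, f3 u ≤ 0) {x : ℝ}
    (h0 : u0 ≤ x) (h1 : 8 * x ≤ u1) : 0 ≤ E4 f x := by
  have hx : 0 < x := lt_of_lt_of_le (by unfold u0; positivity) h0
  obtain ⟨a, b, c, d, e1, e2, e3, e4, e5⟩ : ∃ a b c d : ℝ,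
      a * x ^ 3 + b * x ^ 2 + c * x + d = f x ∧
      a * (2 * x) ^ 3 + b * (2 * x) ^ 2 + c * (2 * x) + d = f (2 * x) ∧
      a * (4 * x) ^ 3 + b * (4 * x) ^ 2 + c * (4 * x) + d = f (4 * x) ∧
      a * (8 * x) ^ 3 + b * (8 * x) ^ 2 + c * (8 * x) + d = f (8 * x) ∧
      a = -E4 f x / (168 * x ^ 3) :=
    ⟨_, (2 / 3 * f x - 13 / 12 * f (2 * x) + 11 / 24 * f (4 * x) - 1 / 24 * f (8 * x)) / x ^ 2,
      (-8 / 3 * f x + 11 / 3 * f (2 * x) - 13 / 12 * f (4 * x) + 1 / 12 * f (8 * x)) / x,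
      64 / 21 * f x - 8 / 3 * f (2 * x) + 2 / 3 * f (4 * x) - 1 / 21 * f (8 * x),
      by unfold E4; field_simp; ring, by unfold E4; field_simp; ring,
      by unfold E4; field_simp; ring, by unfold E4; field_simp; ring, rfl⟩
  obtain ⟨g1, g2, hg⟩ := h.sub (C3_poly a b c d) 1
  obtain ⟨u, hu, h4⟩ := rolle3 (a := x) (b := 2 * x) (c := 4 * x) (d := 8 * x) (by linarith)
    (by linarith) (by linarith) (fun u hu => hg u ⟨h0.trans hu.1, hu.2.trans h1⟩)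
    (by simp [e1]) (by simp [e2]) (by simp [e3]) (by simp [e4])
  have := h3 u ⟨h0.trans hu.1, hu.2.trans h1⟩
  have h5 : a ≤ 0 := by linarith
  rw [e5, div_nonpos_iff] at h5
  rcases h5 with ⟨-, h5⟩ | ⟨h5, -⟩
  · nlinarith [pow_pos hx 3]
  · linarith

def wl : List ℕ := [1632708483018734, 402848920284448, 90528218899442,
  19172468106074, 3890668575284, 763420232849,
  145604971631, 27074843949, 4915616497, 871636054,
  150821369, 25410450, 4151906, 653402, 97845, 13621, 1672, 153]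

def wt (j : ℕ) : ℕ := wl.getD j 0

noncomputable def L (ψ : ℝ → ℝ) : ℝ := ∑ j ∈ Finset.range 18, wt j * E4 ψ (2 ^ j * u0)

lemma node_mem {j : ℕ} (hj : j ∈ Finset.range 18) : u0 ≤ 2 ^ j * u0 ∧ 8 * (2 ^ j * u0) ≤ u1 := by
  have h1 : (1 : ℝ) ≤ 2 ^ j := one_le_pow₀ (by norm_num)
  have h2 : (2 : ℝ) ^ j ≤ 2 ^ 17 :=
    pow_le_pow_right₀ (by norm_num) (Nat.lt_succ_iff.1 (Finset.mem_range.1 hj))
  unfold u0 u1; constructor <;> linarith

lemma L_sub (f g : ℝ → ℝ) (k : ℝ) : L (fun u => f u - k * g u) = L f - k * L g := by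
  simp only [L, E4, Finset.mul_sum, ← Finset.sum_sub_distrib]
  exact Finset.sum_congr rfl fun j _ => by ring

lemma L_congr {f g : ℝ → ℝ} (h : ∀ k ≤ 20, f (2 ^ k * u0) = g (2 ^ k * u0)) : L f = L g := by
  refine Finset.sum_congr rfl fun j hj => ?_
  have := Finset.mem_range.1 hj
  have e : ∀ i : ℕ, (2 : ℝ) ^ i * (2 ^ j * u0) = 2 ^ (j + i) * u0 := fun i => by ring
  have e1 := e 1; have e2 := e 2; have e3 := e 3
  norm_num at e1 e2 e3
  simp only [E4]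
  rw [show 2 * (2 ^ j * u0) = 2 ^ (j + 1) * u0 by ring,
    show 4 * (2 ^ j * u0) = 2 ^ (j + 2) * u0 by ring,
    show 8 * (2 ^ j * u0) = 2 ^ (j + 3) * u0 by ring, h j (by omega), h _ (by omega),
    h (j + 2) (by omega), h (j + 3) (by omega)]

lemma L_lin (a b : ℝ) : L (fun u => a * u + b) = 0 :=
  Finset.sum_eq_zero fun j _ => by simp only [E4]; ring

lemma L_mono {f f3 g g3 : ℝ → ℝ} (hf : C3 f f3) (hg : C3 g g3) (k : ℝ)
    (h : ∀ u ∈ Icc u0 u1, f3 u ≤ k * g3 u) : k * L g ≤ L f := by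
  rw [← sub_nonneg, ← L_sub]
  exact Finset.sum_nonneg fun j hj => mul_nonneg (Nat.cast_nonneg _)
    (E4_nonneg (hf.sub hg k) (fun u hu => sub_nonpos.2 (h u hu)) (node_mem hj).1 (node_mem hj).2)

noncomputable def Mc : ℝ := L fun u => -1 / 6 * u ^ 3 + 0 * u ^ 2 + 0 * u + 0

lemma Mc_pos : 0 < Mc := by
  refine Finset.sum_pos' (fun j _ => mul_nonneg (Nat.cast_nonneg _) ?_)
    ⟨0, Finset.mem_range.2 (by omega), ?_⟩
  · have : 0 < 2 ^ j * u0 := by unfold u0; positivity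
    simp only [E4]; nlinarith [pow_pos this 3]
  · norm_num [wt, wl, E4, u0]

lemma L_ge {f f3 : ℝ → ℝ} (hf : C3 f f3) {K : ℝ} (h : ∀ u ∈ Icc u0 u1, f3 u ≤ K) :
    -K * Mc ≤ L f := L_mono hf (C3_poly _ _ _ _) (-K) fun u hu => by linarith [h u hu]

lemma L_le {f f3 : ℝ → ℝ} (hf : C3 f f3) {K : ℝ} (h : ∀ u ∈ Icc u0 u1, -K ≤ f3 u) :
    L f ≤ K * Mc := by
  have := L_mono ((C3_poly 0 0 0 0).sub hf 1) (C3_poly (-1 / 6) 0 0 0) (-K)
    fun u hu => by linarith [h u hu]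
  rw [L_sub, L_congr (f := fun u => 0 * u ^ 3 + 0 * u ^ 2 + 0 * u + 0) (g := fun u => 0 * u + 0)
    (by simp), L_lin] at this
  unfold Mc; linarith

noncomputable def φ (a b c u : ℝ) : ℝ := √(a * u ^ 2 - 2 * b * u + c)

noncomputable def φ3 (a b c u : ℝ) : ℝ := -3 * (a * c - b ^ 2) * (a * u - b) / φ a b c u ^ 5

lemma C3_φ {a b c : ℝ} (h : ∀ u ∈ Icc u0 u1, 0 < a * u ^ 2 - 2 * b * u + c) :
    C3 (φ a b c) (φ3 a b c) := by
  refine ⟨fun u => (a * u - b) / φ a b c u, fun u => (a * c - b ^ 2) / φ a b c u ^ 3,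
    fun u hu => ?_⟩
  have hp : 0 < φ a b c u := Real.sqrt_pos.2 (h u hu)
  have hs : φ a b c u ^ 2 = a * u ^ 2 - 2 * b * u + c := Real.sq_sqrt (h u hu).le
  have h1 : HasDerivAt (φ a b c) ((a * u - b) / φ a b c u) u :=
    ((((hasDerivAt_pow 2 u).const_mul a).sub ((hasDerivAt_id u).const_mul (2 * b))).add_const
      c).sqrt (h u hu).ne' |>.congr_deriv (by
        simp only [φ, Pi.sub_apply, id] at hp ⊢
        rw [div_eq_div_iff (by positivity) hp.ne']; push_cast; ring)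
  refine ⟨h1, ((((hasDerivAt_id u).const_mul a).sub_const b).div h1 hp.ne').congr_deriv ?_,
    ((hasDerivAt_const u _).div (h1.pow 3) (pow_pos hp 3).ne').congr_deriv ?_⟩
  · simp only [id]; field_simp; rw [hs]; ring
  · simp only [φ3, Pi.pow_apply]; field_simp; ring

/-! the wedge inequality -/

def ad (a b : ℕ) : ℕ := Nat.add (Nat.sub a b) (Nat.sub b a)

lemma ad_eq (a b : ℕ) : (ad a b : ℝ) = |(a : ℝ) - b| := by
  rcases le_total a b with h | h
  · have : ad a b = b - a := by simp only [ad, Nat.add_eq, Nat.sub_eq]; omega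
    rw [this, Nat.cast_sub h, abs_sub_comm, abs_of_nonneg (sub_nonneg.2 (Nat.cast_le.2 h))]
  · have : ad a b = a - b := by simp only [ad, Nat.add_eq, Nat.sub_eq]; omega
    rw [this, Nat.cast_sub h, abs_of_nonneg (sub_nonneg.2 (Nat.cast_le.2 h))]

noncomputable def sumR (f : ℕ → ℕ) (n : ℕ) : ℕ :=
  Nat.rec (motive := fun _ => ℕ) 0 (fun j s => force s fun s => force (f j) fun y => Nat.add s y) n

lemma sumR_eq (f : ℕ → ℕ) (n : ℕ) : (sumR f n : ℝ) = ∑ j ∈ Finset.range n, (f j : ℝ) := by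
  induction n with
  | zero => simp [sumR]
  | succ n ih => rw [Finset.sum_range_succ, ← ih]; simp [sumR, force_eq]

def qq (a b : ℕ) : ℕ := 3 ^ 100 * (a * a + a * b + b * b)

noncomputable def loG (q x : ℕ) : ℕ :=
  force q fun q => force (nt q 8 x) fun r => cond (Nat.ble (r * r) q) r 0

noncomputable def upG (q x : ℕ) : ℕ :=
  force q fun q => force (nt q 8 x + 1) fun r => cond (Nat.ble q (r * r)) r (q + 1)

lemma loG_le (q x : ℕ) : (loG q x : ℝ) ≤ √q := by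
  simp only [loG, force_eq]
  generalize nt _ _ _ = r
  cases h : Nat.ble (r * r) q
  · simp
  · exact Real.le_sqrt_of_sq_le (by rw [sq]; exact_mod_cast Nat.le_of_ble_eq_true h)

lemma le_upG (q x : ℕ) : √q ≤ (upG q x : ℝ) := by
  simp only [upG, force_eq]
  generalize nt _ _ _ + 1 = r
  cases h : Nat.ble q (r * r)
  · exact Real.sqrt_le_iff.2 ⟨by positivity, by
      simp only [cond_false]; push_cast; nlinarith [Nat.cast_nonneg (α := ℝ) q]⟩
  · exact Real.sqrt_le_iff.2 ⟨by positivity, by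
      rw [sq]; exact_mod_cast Nat.le_of_ble_eq_true h⟩

noncomputable def lo2 (a b : ℕ) : ℕ := loG (qq a b) (3 ^ 50 * (a + b))

noncomputable def up2 (a b : ℕ) : ℕ := upG (qq a b) (3 ^ 50 * (a + b))

noncomputable def sm (f : ℕ → ℕ) (c1 c2 k1 k2 : ℕ) : ℕ :=
  sumR (fun j => force (2 ^ j * 16) fun x => force (f (k1 * x)) fun y1 =>
    force (f (k2 * x)) fun y2 => force (wt j) fun w => w * (c1 * y1 + c2 * y2)) 18

noncomputable def wchk (i b1 b2 : ℕ) : Bool :=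
  force (sm (fun x => lo2 x b2) 8 7 1 4) fun gp =>
  force (sm (fun x => up2 x b2) 14 1 2 8) fun gn =>
  [b1, b2].all fun b =>
    force (sm (fun x => ad x b) 14 1 2 8) fun nn =>
    force (sm (fun x => ad x b) 8 7 1 4) fun np =>
    force (1000 * (17 + i) ^ 3 * 3 ^ 50) fun c => force (999 * (16 + i) ^ 3) fun k =>
    force (c * nn) fun x1 => force (k * gn) fun x2 =>
    force (c * np) fun x3 => force (k * gp) fun x4 =>
    Nat.ble (Nat.add x1 x2) (Nat.add x3 x4)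

set_option maxRecDepth 100000 in
theorem wchk_all : (List.range 20).all (fun k => (List.range 16).all fun i =>
    force (2 ^ k * (16 + i)) fun b1 => force (2 ^ k * (17 + i)) fun b2 => wchk i b1 b2) = true := by
  decide +kernel

end Pool.Agent.Lib.MP_c4a252_co
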