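import Pool.Agent.Lib.MP_c4a252_co.Wedge

/-! Soundness of the wedge check. -/

namespace Pool.Agent.Lib.MP_c4a252_co

open Set

noncomputable def dl : ℝ := 1 / 2 ^ 44

lemma sm_eq (f : ℕ → ℕ) (c1 c2 k1 k2 : ℕ) : (sm f c1 c2 k1 k2 : ℝ) =
    ∑ j ∈ Finset.range 18, (wt j : ℝ) *
      (c1 * f (k1 * (2 ^ j * 16)) + c2 * f (k2 * (2 ^ j * 16))) := by
  rw [sm, sumR_eq]
  refine Finset.sum_congr rfl fun j _ => ?_
  simp only [force_eq]
  push_cast; rfl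

lemma L_nat {ψ : ℝ → ℝ} {f g : ℕ → ℕ} {c : ℝ} (hf : ∀ n : ℕ, (f n : ℝ) ≤ c * ψ (n * dl))
    (hg : ∀ n : ℕ, c * ψ (n * dl) ≤ g n) : (sm f 8 7 1 4 : ℝ) - sm g 14 1 2 8 ≤ c * L ψ := by
  rw [sm_eq, sm_eq, L, Finset.mul_sum, ← Finset.sum_sub_distrib]
  refine Finset.sum_le_sum fun j _ => ?_
  have e : ∀ k : ℕ, ((k * (2 ^ j * 16) : ℕ) : ℝ) * dl = k * (2 ^ j * u0) := fun k => by
    push_cast; unfold dl u0; ring
  have h1 := hf (1 * (2 ^ j * 16))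
  have h2 := hg (2 * (2 ^ j * 16))
  have h3 := hf (4 * (2 ^ j * 16))
  have h4 := hg (8 * (2 ^ j * 16))
  rw [e] at h1 h2 h3 h4
  simp only [Nat.cast_ofNat, Nat.cast_one] at h1 h2 h3 h4 ⊢
  rw [one_mul (2 ^ j * u0)] at h1
  rw [← mul_sub, mul_left_comm c]
  refine mul_le_mul_of_nonneg_left ?_ (Nat.cast_nonneg _)
  unfold E4; linarith

noncomputable def NN (t : ℝ) : ℝ := L fun u => |u - t|
noncomputable def GG (b : ℝ) : ℝ := L (φ 1 (-b / 2) (b ^ 2))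

lemma sqrt_qq (a b : ℕ) : √(qq a b) = 3 ^ 50 * 2 ^ 44 * φ 1 (-(b * dl) / 2) ((b * dl) ^ 2) (a * dl) := by
  rw [φ, ← Real.sqrt_sq (by positivity : (0 : ℝ) ≤ 3 ^ 50 * 2 ^ 44), ← Real.sqrt_mul (by positivity)]
  congr 1
  have : ((qq a b : ℕ) : ℝ) = 3 ^ 100 * (a * a + a * b + b * b) := by
    rw [qq, Nat.cast_mul, Nat.cast_pow]; push_cast; rfl
  rw [this, dl]; ring

lemma wchk_sound {i b1 b2 : ℕ} (h : wchk i b1 b2 = true) {b : ℕ} (hb : b ∈ [b1, b2]) :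
    0 ≤ NN (b * dl) + 0.999 * ((16 + i) / (17 + i)) ^ 3 * GG (b2 * dl) := by
  simp only [wchk, force_eq, List.all_eq_true, Nat.ble_eq, Nat.add_eq] at h
  have h1 := (Nat.cast_le (α := ℝ)).2 (h b hb)
  have h2 := L_nat (ψ := φ 1 (-(b2 * dl) / 2) ((b2 * dl) ^ 2)) (f := fun x => lo2 x b2)
    (g := fun x => up2 x b2) (c := 3 ^ 50 * 2 ^ 44) (fun n => sqrt_qq n b2 ▸ loG_le _ _)
    (fun n => sqrt_qq n b2 ▸ le_upG _ _)
  have e : ∀ n : ℕ, (ad n b : ℝ) = 2 ^ 44 * |n * dl - b * dl| := fun n => by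
    rw [ad_eq, ← sub_mul, abs_mul, abs_of_pos (by unfold dl; positivity : 0 < dl), dl]; ring
  have h3 := L_nat (ψ := fun u => |u - b * dl|) (f := fun x => ad x b) (g := fun x => ad x b)
    (c := 2 ^ 44) (fun n => (e n).le) (fun n => (e n).ge)
  simp only [Nat.cast_add, Nat.cast_mul, Nat.cast_pow, Nat.cast_ofNat] at h1
  change _ ≤ _ * GG _ at h2
  change _ ≤ _ * NN _ at h3
  generalize (sm _ 8 7 1 4 : ℝ) = x1 at *
  generalize (sm _ 8 7 1 4 : ℝ) = x2 at *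
  generalize (sm _ 14 1 2 8 : ℝ) = x3 at *
  generalize (sm _ 14 1 2 8 : ℝ) = x4 at *
  have p1 : (0 : ℝ) < (17 + i) ^ 3 := by positivity
  have p2 : (0 : ℝ) < (16 + i) ^ 3 := by positivity
  rw [div_pow]
  generalize ((17 : ℝ) + i) ^ 3 = p at *
  generalize ((16 : ℝ) + i) ^ 3 = q at *
  have h4 := mul_le_mul_of_nonneg_left h2 p2.le
  have h5 := mul_le_mul_of_nonneg_left h3 p1.le
  have : 0 ≤ p * NN (b * dl) + 0.999 * q * GG (b2 * dl) := by linarith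
  have e2 : NN (b * dl) + 0.999 * (q / p) * GG (b2 * dl) =
      (p * NN (b * dl) + 0.999 * q * GG (b2 * dl)) / p := by field_simp
  rw [e2]; positivity

lemma L_comb (f g : ℝ → ℝ) (a b : ℝ) : L (fun u => a * f u + b * g u) = a * L f + b * L g := by
  simp only [L, E4, Finset.mul_sum, ← Finset.sum_add_distrib]
  exact Finset.sum_congr rfl fun j _ => by ring

lemma node20 {k : ℕ} (hk : k ≤ 20) : 2 ^ k * u0 ∈ Icc u0 u1 := by
  have h1 : (1 : ℝ) ≤ 2 ^ k := one_le_pow₀ (by norm_num)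
  have h2 : (2 : ℝ) ^ k ≤ 2 ^ 20 := pow_le_pow_right₀ (by norm_num) hk
  unfold u0 u1; constructor <;> linarith

lemma L_congr' {f g : ℝ → ℝ} (h : ∀ u ∈ Icc u0 u1, f u = g u) : L f = L g :=
  L_congr fun _ hk => h _ (node20 hk)

lemma NN_hi {t : ℝ} (h : u1 ≤ t) : NN t = 0 := by
  rw [NN, L_congr' (g := fun u => -1 * u + t) fun u hu => by
    rw [abs_of_nonpos (by linarith [hu.2])]; ring, L_lin]

lemma NN_lo {t : ℝ} (h : t ≤ u0) : NN t = 0 := by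
  rw [NN, L_congr' (g := fun u => 1 * u + -t) fun u hu => by
    rw [abs_of_nonneg (by linarith [hu.1])]; ring, L_lin]

theorem wedge (t : ℝ) : 0 ≤ NN t ∨ ∃ ρ b : ℝ, 0 ≤ ρ ∧ ρ ≤ 1 ∧ 0 < b ∧ ρ * b ≤ t ∧ t ≤ b ∧ t ≤ u1 ∧
    0 ≤ NN t + 0.999 * ρ ^ 3 * GG b := by
  rcases le_or_gt u1 t with h1 | h1
  · exact Or.inl (NN_hi h1).ge
  rcases le_or_gt t u0 with h0 | h0
  · exact Or.inl (NN_lo h0).ge
  right
  have hd : 0 < dl := by unfold dl; positivity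
  have hu : u0 = 16 * dl := by unfold dl u0; norm_num
  obtain ⟨k, k1, k2⟩ := exists_nat_pow_near (x := t / u0) (y := 2)
    ((one_le_div (by unfold u0; positivity)).2 h0.le) (by norm_num)
  rw [le_div_iff₀ (by unfold u0; positivity)] at k1
  rw [div_lt_iff₀ (by unfold u0; positivity)] at k2
  have hk : k < 20 := by
    by_contra hk
    have : (2 : ℝ) ^ 20 ≤ 2 ^ k := pow_le_pow_right₀ (by norm_num) (not_lt.1 hk)
    unfold u0 u1 at *; linarith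
  have hp : 0 < 2 ^ k * dl := by positivity
  obtain ⟨i, hi, i1, i2⟩ : ∃ i : ℕ, i < 16 ∧ (16 + i) * (2 ^ k * dl) ≤ t ∧
      t ≤ (17 + i) * (2 ^ k * dl) := by
    have a1 : 16 ≤ t / (2 ^ k * dl) := by rw [le_div_iff₀ hp]; rw [hu] at k1; linarith
    have a2 : t / (2 ^ k * dl) < 32 := by rw [div_lt_iff₀ hp]; rw [hu, pow_succ] at k2; linarith
    refine ⟨⌊t / (2 ^ k * dl) - 16⌋₊, (Nat.floor_lt (by linarith)).2 (by push_cast; linarith),
      ?_, ?_⟩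
    · rw [← le_div_iff₀ hp]; linarith [Nat.floor_le (sub_nonneg.2 a1)]
    · rw [← div_le_iff₀ hp]; linarith [Nat.lt_floor_add_one (t / (2 ^ k * dl) - 16)]
  have hw := wchk_all
  simp only [force_eq, List.all_eq_true, List.mem_range] at hw
  have w1 := wchk_sound (hw k hk i hi) (b := 2 ^ k * (16 + i)) (by simp)
  have w2 := wchk_sound (hw k hk i hi) (b := 2 ^ k * (17 + i)) (by simp)
  have e1 : ((2 ^ k * (16 + i) : ℕ) : ℝ) * dl = (16 + i) * (2 ^ k * dl) := by push_cast; ring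
  have e2 : ((2 ^ k * (17 + i) : ℕ) : ℝ) * dl = (17 + i) * (2 ^ k * dl) := by push_cast; ring
  rw [e1, e2] at w1
  rw [e2] at w2
  have hi' : (i : ℝ) ≤ 15 := by exact_mod_cast Nat.lt_succ_iff.1 hi
  have hi0 : (0 : ℝ) ≤ i := Nat.cast_nonneg i
  refine ⟨(16 + i) / (17 + i), (17 + i) * (2 ^ k * dl), by positivity,
    (div_le_one (by positivity)).2 (by linarith), by positivity, ?_, i2, h1.le, ?_⟩
  · rwa [← mul_assoc, div_mul_cancel₀ _ (by positivity)]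
  obtain ⟨s, hs⟩ : ∃ s, t = (16 + i + s) * (2 ^ k * dl) :=
    ⟨t / (2 ^ k * dl) - 16 - i, by field_simp; ring⟩
  have s0 : 0 ≤ s := by rw [hs] at i1; nlinarith
  have s1 : s ≤ 1 := by rw [hs] at i2; nlinarith
  have e : NN t = (1 - s) * NN ((16 + i) * (2 ^ k * dl)) + s * NN ((17 + i) * (2 ^ k * dl)) := by
    rw [NN, NN, NN, ← L_comb]
    refine L_congr fun m _ => ?_
    rcases le_or_gt m k with hm | hm
    · have : (2 : ℝ) ^ m * u0 ≤ 16 * (2 ^ k * dl) := by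
        have : (2 : ℝ) ^ m ≤ 2 ^ k := pow_le_pow_right₀ (by norm_num) hm
        rw [hu]; nlinarith
      rw [abs_of_nonpos (by nlinarith), abs_of_nonpos (by nlinarith), abs_of_nonpos (by nlinarith),
        hs]
      ring
    · have : 32 * (2 ^ k * dl) ≤ (2 : ℝ) ^ m * u0 := by
        have : (2 : ℝ) ^ (k + 1) ≤ 2 ^ m := pow_le_pow_right₀ (by norm_num) hm
        rw [hu]; rw [pow_succ] at this; nlinarith
      rw [abs_of_nonneg (by nlinarith), abs_of_nonneg (by nlinarith), abs_of_nonneg (by nlinarith),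
        hs]
      ring
  rw [e]
  nlinarith [mul_nonneg s0 w2, mul_nonneg (sub_nonneg.2 s1) w1]

end Pool.Agent.Lib.MP_c4a252_co
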